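import Pool.Agent.Helper854.Oracle

set_option autoImplicit false

namespace Pool.Agent.Helper854

/-- weak Koenig lemma for predicates closed under initial segments -/
theorem konig (T : List Bool → Prop) (hcl : ∀ ξ b, T (ξ ++ [b]) → T ξ)
    (hinf : ∀ n, ∃ ξ, ξ.length = n ∧ T ξ) : ∃ f : ℕ → Bool, ∀ n, T (seg f n) := by
  have hcl' : ∀ (ζ ξ : List Bool), T (ξ ++ ζ) → T ξ := by
    intro ζ
    induction ζ using List.reverseRecOn with
    | nil => intro ξ h; simpa using h
    | append_singleton ζ b ih =>
      intro ξ h
      apply ih
      apply hcl _ b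
      simpa using h
  let big : List Bool → Prop := fun ξ => ∀ n, ∃ ζ, ζ.length = n ∧ T (ξ ++ ζ)
  have hbig0 : big [] := by
    intro n
    obtain ⟨ξ, h1, h2⟩ := hinf n
    exact ⟨ξ, h1, by simpa using h2⟩
  have hstep : ∀ ξ, big ξ → ∃ b, big (ξ ++ [b]) := by
    intro ξ hξ
    by_contra hcon
    push Not at hcon
    have h1 := hcon false
    have h2 := hcon true
    simp only [big, not_forall, not_exists, not_and] at h1 h2
    obtain ⟨n1, h1⟩ := h1
    obtain ⟨n2, h2⟩ := h2
    obtain ⟨ζ, hl, hT⟩ := hξ (max n1 n2 + 1)
    cases ζ with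
    | nil => simp at hl
    | cons b ζ =>
      have hl' : ζ.length = max n1 n2 := by simpa using hl
      cases b with
      | false =>
        apply h1 (ζ.take n1) (by simp [hl'])
        apply hcl' (ζ.drop n1)
        simpa using hT
      | true =>
        apply h2 (ζ.take n2) (by simp [hl'])
        apply hcl' (ζ.drop n2)
        simpa using hT
  choose! g hg using hstep
  let s : ℕ → List Bool := fun n => Nat.rec [] (fun _ ξ => ξ ++ [g ξ]) n
  have hs0 : s 0 = [] := rfl
  have hs1 : ∀ n, s (n+1) = s n ++ [g (s n)] := fun n => rfl
  have hsb : ∀ n, big (s n) := by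
    intro n
    induction n with
    | zero => exact hbig0
    | succ n ih => rw [hs1]; exact hg _ ih
  refine ⟨fun n => g (s n), fun n => ?_⟩
  have hseg : ∀ n, seg (fun n => g (s n)) n = s n := by
    intro n
    induction n with
    | zero => simp [hs0]
    | succ n ih => rw [seg_succ, ih, hs1]
  rw [hseg]
  obtain ⟨ζ, _, h⟩ := hsb n 0
  exact hcl' ζ _ h

theorem exists_bound {α : Type*} (l : List α) (f : α → ℕ) : ∃ N, ∀ x ∈ l, f x ≤ N := by
  induction l with
  | nil => exact ⟨0, by simp⟩
  | cons a l ih =>
    obtain ⟨N, hN⟩ := ih
    refine ⟨max (f a) N, ?_⟩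
    intro x hx
    rcases List.mem_cons.mp hx with h | h
    · subst h; exact le_max_left _ _
    · exact (hN x h).trans (le_max_right _ _)

/-- first success of an option valued search below `N` -/
theorem head?_filterMap_range {β : Type*} (g : ℕ → Option β) (N : ℕ) (b : β) :
    ((List.range N).filterMap g).head? = some b ↔
      ∃ j < N, g j = some b ∧ ∀ i < j, g i = none := by
  induction N with
  | zero => simp
  | succ N ih =>
    rw [List.range_succ, List.filterMap_append, List.head?_append]
    cases h : ((List.range N).filterMap g).head? with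
    | some b' =>
      rw [Option.some_or]
      constructor
      · rintro rfl' 
        have h2 := (ih).mp (by rw [h]; exact rfl')
        obtain ⟨j, hj, h3⟩ := h2
        exact ⟨j, by omega, h3⟩
      · rintro ⟨j, hj, hgj, hlt⟩
        rw [← h]
        apply ih.mpr
        refine ⟨j, ?_, hgj, hlt⟩
        rcases Nat.lt_succ_iff_lt_or_eq.mp hj with h' | h'
        · exact h'
        · subst h'
          exfalso
          have : b' ∈ (List.range j).filterMap g := List.mem_of_mem_head? h
          rw [List.mem_filterMap] at this
          obtain ⟨i, hi, hgi⟩ := this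
          rw [hlt i (List.mem_range.mp hi)] at hgi
          cases hgi
    | none =>
      rw [Option.none_or]
      have hnil : (List.range N).filterMap g = [] := by simpa using h
      have hnone : ∀ i < N, g i = none := by
        intro i hi
        have := (List.filterMap_eq_nil_iff.mp hnil) i (List.mem_range.mpr hi)
        exact this
      constructor
      · intro h2
        refine ⟨N, Nat.lt_succ_self N, ?_, hnone⟩
        cases hg : g N with
        | none => simp [hg] at h2
        | some c => simpa [hg] using h2
      · rintro ⟨j, hj, hgj, hlt⟩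
        rcases Nat.lt_succ_iff_lt_or_eq.mp hj with h' | h'
        · rw [hnone j h'] at hgj; cases hgj
        · subst h'; simp [hgj]

theorem head?_filterMap_range_none {β : Type*} (g : ℕ → Option β) (N : ℕ) :
    ((List.range N).filterMap g).head? = none ↔ ∀ i < N, g i = none := by
  rw [List.head?_eq_none_iff, List.filterMap_eq_nil_iff]
  simp

/-- a function given by a computable search is computable -/
theorem computable_of_search (B : ℕ → Bool) (D : ℕ → ℕ → Option Bool) (hD : Computable₂ D)
    (h1 : ∀ m, ∃ k, (D m k).isSome = true) (h2 : ∀ m k b, D m k = some b → b = B m) :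
    Computable B := by
  have h3 : Partrec (fun m => Nat.rfindOpt (D m)) := Partrec.rfindOpt hD
  refine h3.of_eq (fun m => ?_)
  have hdom : (Nat.rfindOpt (D m)).Dom := by
    rw [Nat.rfindOpt_dom]
    obtain ⟨k, hk⟩ := h1 m
    obtain ⟨b, hb⟩ := Option.isSome_iff_exists.mp hk
    exact ⟨k, b, hb⟩
  have hmem := Part.get_mem hdom
  obtain ⟨k, hk⟩ := Nat.rfindOpt_spec hmem
  have := h2 m k _ hk
  apply Part.eq_some_iff.mpr
  show B m ∈ Nat.rfindOpt (D m)
  rw [← this]
  exact hmem

end Pool.Agent.Helper854
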