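import Mathlib

set_option autoImplicit false

namespace Pool.Agent.Helper854.Usp

noncomputable section

variable {ι : Type} [Fintype ι]

/-- The number of coordinates of absolute value larger than `t`. -/
def cnt (v : ι → ℝ) (t : ℝ) : ℕ := (Finset.univ.filter (fun m => t < |v m|)).card

/-- The distance from `v` to the vectors with at most `e` nonzero coordinates. -/
def N (e : ℕ) (v : ι → ℝ) : ℝ := sInf {t : ℝ | 0 ≤ t ∧ cnt v t ≤ e}

lemma bddBelow_set (e : ℕ) (v : ι → ℝ) : BddBelow {t : ℝ | 0 ≤ t ∧ cnt v t ≤ e} :=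
  ⟨0, fun _ ht => ht.1⟩

lemma cnt_norm (v : ι → ℝ) : cnt v ‖v‖ = 0 := by
  unfold cnt
  rw [Finset.card_eq_zero, Finset.filter_eq_empty_iff]
  intro m _
  have := norm_le_pi_norm v m
  rw [Real.norm_eq_abs] at this
  exact not_lt.mpr this

lemma norm_mem (e : ℕ) (v : ι → ℝ) : ‖v‖ ∈ {t : ℝ | 0 ≤ t ∧ cnt v t ≤ e} :=
  ⟨norm_nonneg v, by rw [cnt_norm]; exact Nat.zero_le _⟩

lemma N_nonneg (e : ℕ) (v : ι → ℝ) : 0 ≤ N e v :=
  le_csInf ⟨_, norm_mem e v⟩ (fun _ ht => ht.1)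

lemma N_le {e : ℕ} {v : ι → ℝ} {t : ℝ} (h0 : 0 ≤ t) (h : cnt v t ≤ e) : N e v ≤ t :=
  csInf_le (bddBelow_set e v) ⟨h0, h⟩

lemma N_le_norm (e : ℕ) (v : ι → ℝ) : N e v ≤ ‖v‖ :=
  csInf_le (bddBelow_set e v) (norm_mem e v)

lemma cnt_anti (v : ι → ℝ) {s t : ℝ} (h : s ≤ t) : cnt v t ≤ cnt v s := by
  unfold cnt
  apply Finset.card_le_card
  intro m hm
  rw [Finset.mem_filter] at hm ⊢
  exact ⟨hm.1, lt_of_le_of_lt h hm.2⟩

lemma cnt_N (e : ℕ) (v : ι → ℝ) : cnt v (N e v) ≤ e := by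
  classical
  by_contra hcon
  push Not at hcon
  set A : Finset ι := Finset.univ.filter (fun m => N e v < |v m|) with hA
  have hAne : A.Nonempty := by
    rw [← Finset.card_pos]
    exact lt_of_le_of_lt (Nat.zero_le _) hcon
  obtain ⟨m0, hm0, hmin⟩ := A.exists_min_image (fun m => |v m|) hAne
  have h1 : N e v < |v m0| := (Finset.mem_filter.mp hm0).2
  obtain ⟨t, ht, htlt⟩ := exists_lt_of_csInf_lt ⟨_, norm_mem e v⟩ h1
  have h2 : A.card ≤ cnt v t := by
    unfold cnt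
    apply Finset.card_le_card
    intro m hm
    rw [Finset.mem_filter]
    exact ⟨Finset.mem_univ _, lt_of_lt_of_le htlt (hmin m hm)⟩
  have h3 : cnt v t ≤ e := ht.2
  have h4 : e < A.card := hcon
  omega

lemma N_le_iff {e : ℕ} {v : ι → ℝ} {t : ℝ} (h0 : 0 ≤ t) : N e v ≤ t ↔ cnt v t ≤ e :=
  ⟨fun h => (cnt_anti v h).trans (cnt_N e v), fun h => N_le h0 h⟩

lemma N_anti {e e' : ℕ} (h : e ≤ e') (v : ι → ℝ) : N e' v ≤ N e v :=
  N_le (N_nonneg e v) ((cnt_N e v).trans h)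

lemma N_add_le (e : ℕ) (v w : ι → ℝ) : N e (v + w) ≤ N e v + ‖w‖ := by
  apply N_le (add_nonneg (N_nonneg e v) (norm_nonneg w))
  refine le_trans ?_ (cnt_N e v)
  unfold cnt
  apply Finset.card_le_card
  intro m hm
  rw [Finset.mem_filter] at hm ⊢
  refine ⟨hm.1, ?_⟩
  have h1 : |w m| ≤ ‖w‖ := by
    have := norm_le_pi_norm w m
    rwa [Real.norm_eq_abs] at this
  have h2 : |(v + w) m| ≤ |v m| + |w m| := by
    rw [Pi.add_apply]; exact abs_add_le _ _
  linarith [hm.2]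

lemma N_dist (e : ℕ) (v w : ι → ℝ) : |N e v - N e w| ≤ ‖v - w‖ := by
  have h1 := N_add_le e w (v - w)
  have h2 := N_add_le e v (w - v)
  rw [add_sub_cancel] at h1 h2
  rw [norm_sub_rev w v] at h2
  rw [abs_le]
  constructor <;> linarith

/-- Clamping of a real number to `[-r, r]`. -/
def clamp (r x : ℝ) : ℝ := max (-r) (min r x)

/-- The truncation of `v` to at most `e` nonzero coordinates. -/
def tau (e : ℕ) (v : ι → ℝ) : ι → ℝ := fun m => v m - clamp (N e v) (v m)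

lemma abs_clamp_le {r : ℝ} (hr : 0 ≤ r) (x : ℝ) : |clamp r x| ≤ r := by
  unfold clamp
  rw [abs_le]
  exact ⟨le_max_left _ _, max_le (by linarith) (min_le_left _ _)⟩

lemma clamp_of_abs_le {r x : ℝ} (h : |x| ≤ r) : clamp r x = x := by
  unfold clamp
  rw [abs_le] at h
  rw [min_eq_right h.2, max_eq_right h.1]

lemma clamp_dist (r s x y : ℝ) : |clamp r x - clamp s y| ≤ max |r - s| |x - y| := by
  unfold clamp
  refine (abs_max_sub_max_le_max _ _ _ _).trans ?_
  apply max_le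
  · have : -r - -s = -(r - s) := by ring
    rw [this, abs_neg]; exact le_max_left _ _
  · exact (abs_min_sub_min_le_max _ _ _ _)

lemma tau_zero (v : ι → ℝ) : tau 0 v = 0 := by
  funext m
  have h := cnt_N 0 v
  unfold cnt at h
  rw [Nat.le_zero, Finset.card_eq_zero, Finset.filter_eq_empty_iff] at h
  have h1 : |v m| ≤ N 0 v := not_lt.mp (h (Finset.mem_univ m))
  unfold tau
  rw [clamp_of_abs_le h1, sub_self, Pi.zero_apply]

lemma norm_sub_tau (e : ℕ) (v : ι → ℝ) : ‖v - tau e v‖ ≤ N e v := by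
  rw [pi_norm_le_iff_of_nonneg (N_nonneg e v)]
  intro m
  have : (v - tau e v) m = clamp (N e v) (v m) := by
    simp [tau]
  rw [this, Real.norm_eq_abs]
  exact abs_clamp_le (N_nonneg e v) _

lemma N_tau (e : ℕ) (v : ι → ℝ) : N e (tau e v) ≤ 0 := by
  apply N_le le_rfl
  refine le_trans ?_ (cnt_N e v)
  unfold cnt
  apply Finset.card_le_card
  intro m hm
  rw [Finset.mem_filter] at hm ⊢
  refine ⟨hm.1, ?_⟩
  by_contra hcon
  have h1 := hm.2
  unfold tau at h1
  rw [clamp_of_abs_le (not_lt.mp hcon), sub_self, abs_zero] at h1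
  exact lt_irrefl _ h1

lemma N_add_tau (e : ℕ) (b v : ι → ℝ) : N e (b + tau e v) ≤ ‖b‖ := by
  rw [add_comm]
  have := N_add_le e (tau e v) b
  linarith [N_tau e v]

lemma tau_dist (e : ℕ) (v w : ι → ℝ) : ‖tau e v - tau e w‖ ≤ 2 * ‖v - w‖ := by
  have h0 : (0:ℝ) ≤ 2 * ‖v - w‖ := by positivity
  rw [pi_norm_le_iff_of_nonneg h0]
  intro m
  have h1 : (tau e v - tau e w) m
      = (v m - w m) - (clamp (N e v) (v m) - clamp (N e w) (w m)) := by
    simp only [tau, Pi.sub_apply]; ring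
  have h2 : |v m - w m| ≤ ‖v - w‖ := by
    have := norm_le_pi_norm (v - w) m
    rwa [Real.norm_eq_abs, Pi.sub_apply] at this
  have h3 := clamp_dist (N e v) (N e w) (v m) (w m)
  have h4 := N_dist e v w
  have h5 : max |N e v - N e w| |v m - w m| ≤ ‖v - w‖ := max_le h4 h2
  rw [h1, Real.norm_eq_abs]
  have h6 := abs_sub (v m - w m) (clamp (N e v) (v m) - clamp (N e w) (w m))
  linarith

lemma uniformContinuous_tau (e : ℕ) : UniformContinuous (tau e : (ι → ℝ) → (ι → ℝ)) := by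
  have h : LipschitzWith 2 (tau e : (ι → ℝ) → (ι → ℝ)) := by
    apply LipschitzWith.of_dist_le_mul
    intro v w
    rw [dist_eq_norm, dist_eq_norm]
    exact tau_dist e v w
  exact h.uniformContinuous

end

end Pool.Agent.Helper854.Usp
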