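import Mathlib
import Pool.Agent.Helper854.Trunc

set_option autoImplicit false

open Filter Topology

namespace Pool.Agent.Helper854.Usp

noncomputable section

/-- A block of coordinates. -/
abbrev V (j : ℕ) : Type := Fin (2 ^ j) → ℝ

/-- All functions on the disjoint union of the blocks. -/
abbrev W : Type := (j : ℕ) → V j

/-- The number of coordinates allowed at level `k` in block `j`. -/
def ee (j k : ℕ) : ℕ := 2 ^ j / 2 ^ k

lemma ee_anti {j k k' : ℕ} (h : k ≤ k') : ee j k' ≤ ee j k := by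
  unfold ee
  exact Nat.div_le_div_left (Nat.pow_le_pow_right (by norm_num) h) (by positivity)

lemma ee_zero {j k : ℕ} (h : j < k) : ee j k = 0 := by
  unfold ee
  exact Nat.div_eq_of_lt (Nat.pow_lt_pow_right (by norm_num) h)

/-- Partial sums. -/
def P (g : W) (c : ℕ → W) (k : ℕ) : W := fun j => g j + ∑ i ∈ Finset.range k, c i j

/-- The telescoping map. -/
def F (g : W) (c : ℕ → W) : ℕ → W :=
  fun k j => P g c k j - tau (ee j k) (P g c (k + 1) j)

/-- Backward recursion. -/
def R (j : ℕ) (b : ℕ → V j) : ℕ → ℕ → V j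
  | 0, k => b k
  | n + 1, k => b k + tau (ee j k) (R j b n (k + 1))

/-- The partial sums recovered from the image. -/
def Gs (b : ℕ → W) (k : ℕ) : W := fun j => R j (fun i => b i j) (j + 1) k

lemma P_zero (g : W) (c : ℕ → W) : P g c 0 = g := by
  funext j; simp [P]

lemma P_succ (g : W) (c : ℕ → W) (k : ℕ) (j : ℕ) : P g c (k + 1) j = P g c k j + c k j := by
  simp only [P, Finset.sum_range_succ]
  rw [add_assoc]

lemma R_stable (j : ℕ) (b : ℕ → V j) :
    ∀ n k : ℕ, j + 1 ≤ n + k → R j b n k = R j b (n + 1) k := by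
  intro n
  induction n with
  | zero =>
    intro k hk
    simp only [R]
    rw [ee_zero (by omega), tau_zero, add_zero]
  | succ n ih =>
    intro k hk
    rw [R, R, ih (k + 1) (by omega)]

lemma Gs_rec (b : ℕ → W) (k j : ℕ) :
    Gs b k j = b k j + tau (ee j k) (Gs b (k + 1) j) := by
  unfold Gs
  rw [R_stable j _ (j + 1) k (by omega)]
  rfl

lemma R_P (g : W) (c : ℕ → W) (j : ℕ) :
    ∀ n k : ℕ, j + 1 ≤ n + k → R j (fun i => F g c i j) n k = P g c k j := by
  intro n
  induction n with
  | zero =>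
    intro k hk
    simp only [R, F]
    rw [ee_zero (by omega), tau_zero, sub_zero]
  | succ n ih =>
    intro k hk
    rw [R, ih (k + 1) (by omega)]
    simp only [F]
    rw [sub_add_cancel]

lemma Gs_F (g : W) (c : ℕ → W) (k : ℕ) : Gs (F g c) k = P g c k := by
  funext j
  exact R_P g c j (j + 1) k (by omega)

lemma P_Gs (b : ℕ → W) (k : ℕ) :
    P (Gs b 0) (fun i => Gs b (i + 1) - Gs b i) k = Gs b k := by
  induction k with
  | zero => rw [P_zero]
  | succ k ih =>
    funext j
    rw [P_succ, ih]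
    simp only [Pi.sub_apply]
    rw [add_sub_cancel]

lemma F_Gs (b : ℕ → W) : F (Gs b 0) (fun i => Gs b (i + 1) - Gs b i) = b := by
  funext k j
  unfold F
  rw [P_Gs, P_Gs, Gs_rec b k j, add_sub_cancel_right]

/-- The functions tending to zero along the filter of sets of density one. -/
def GG : Set W := {g | ∀ k : ℕ, Tendsto (fun j => N (ee j k) (g j)) atTop (𝓝 0)}

/-- Sequences of functions tending to zero. -/
def AA : Set (ℕ → W) := {a | ∀ k : ℕ, Tendsto (fun j => ‖a k j‖) atTop (𝓝 0)}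

lemma N_sum_le (e j k : ℕ) (v : V j) (c : ℕ → W) :
    N e (v + ∑ i ∈ Finset.range k, c i j) ≤ N e v + ∑ i ∈ Finset.range k, ‖c i j‖ := by
  refine (N_add_le e v _).trans ?_
  gcongr
  exact norm_sum_le _ _

lemma tendsto_sum_norm {c : ℕ → W} (hc : c ∈ AA) (k : ℕ) :
    Tendsto (fun j => ∑ i ∈ Finset.range k, ‖c i j‖) atTop (𝓝 0) := by
  have := tendsto_finsetSum (Finset.range k) (fun i _ => hc i)
  simpa using this

lemma F_mem {g : W} {c : ℕ → W} (hg : g ∈ GG) (hc : c ∈ AA) : F g c ∈ AA := by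
  intro k
  have hb : ∀ j, ‖F g c k j‖ ≤ N (ee j k) (g j) + ∑ i ∈ Finset.range (k + 1), ‖c i j‖
      + ‖c k j‖ := by
    intro j
    have h1 : F g c k j = (P g c (k + 1) j - tau (ee j k) (P g c (k + 1) j)) - c k j := by
      unfold F
      rw [P_succ]
      abel
    have h2 : ‖F g c k j‖ ≤ ‖P g c (k + 1) j - tau (ee j k) (P g c (k + 1) j)‖ + ‖c k j‖ := by
      rw [h1]; exact norm_sub_le _ _
    have h3 := norm_sub_tau (ee j k) (P g c (k + 1) j)
    have h4 : N (ee j k) (P g c (k + 1) j)
        ≤ N (ee j k) (g j) + ∑ i ∈ Finset.range (k + 1), ‖c i j‖ :=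
      N_sum_le _ _ _ _ _
    linarith
  have hlim : Tendsto (fun j => N (ee j k) (g j) + ∑ i ∈ Finset.range (k + 1), ‖c i j‖
      + ‖c k j‖) atTop (𝓝 0) := by
    have := ((hg k).add (tendsto_sum_norm hc (k + 1))).add (hc k)
    simpa using this
  exact squeeze_zero (fun j => norm_nonneg _) hb hlim

lemma diff_mem {b : ℕ → W} (hb : b ∈ AA) : (fun k => Gs b (k + 1) - Gs b k) ∈ AA := by
  intro k
  have hbd : ∀ j, ‖(Gs b (k + 1) - Gs b k) j‖ ≤ ‖b (k + 1) j‖ + ‖b k j‖ := by
    intro j
    have h1 : (Gs b (k + 1) - Gs b k) j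
        = (Gs b (k + 1) j - tau (ee j k) (Gs b (k + 1) j)) - b k j := by
      rw [Pi.sub_apply, Gs_rec b k j]
      abel
    have h2 : ‖(Gs b (k + 1) - Gs b k) j‖
        ≤ ‖Gs b (k + 1) j - tau (ee j k) (Gs b (k + 1) j)‖ + ‖b k j‖ := by
      rw [h1]; exact norm_sub_le _ _
    have h3 := norm_sub_tau (ee j k) (Gs b (k + 1) j)
    have h4 : N (ee j k) (Gs b (k + 1) j) ≤ N (ee j (k + 1)) (Gs b (k + 1) j) :=
      N_anti (ee_anti (Nat.le_succ k)) _
    have h5 : N (ee j (k + 1)) (Gs b (k + 1) j) ≤ ‖b (k + 1) j‖ := by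
      rw [Gs_rec b (k + 1) j]
      exact N_add_tau _ _ _
    linarith
  have hlim : Tendsto (fun j => ‖b (k + 1) j‖ + ‖b k j‖) atTop (𝓝 0) := by
    have := (hb (k + 1)).add (hb k)
    simpa using this
  exact squeeze_zero (fun j => norm_nonneg _) hbd hlim

lemma Gs_zero_mem {b : ℕ → W} (hb : b ∈ AA) : Gs b 0 ∈ GG := by
  intro k
  set c : ℕ → W := fun i => Gs b (i + 1) - Gs b i with hc
  have hcA : c ∈ AA := diff_mem hb
  have hbd : ∀ j, N (ee j k) (Gs b 0 j) ≤ ‖b k j‖ + ∑ i ∈ Finset.range k, ‖c i j‖ := by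
    intro j
    have h0 : Gs b 0 j = Gs b k j + (- ∑ i ∈ Finset.range k, c i j) := by
      have := congrFun (P_Gs b k) j
      simp only [P] at this
      rw [← this]
      abel
    rw [h0]
    have h1 := N_add_le (ee j k) (Gs b k j) (- ∑ i ∈ Finset.range k, c i j)
    rw [norm_neg] at h1
    have h2 : N (ee j k) (Gs b k j) ≤ ‖b k j‖ := by
      rw [Gs_rec b k j]
      exact N_add_tau _ _ _
    have h3 : ‖∑ i ∈ Finset.range k, c i j‖ ≤ ∑ i ∈ Finset.range k, ‖c i j‖ := norm_sum_le _ _
    linarith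
  have hlim : Tendsto (fun j => ‖b k j‖ + ∑ i ∈ Finset.range k, ‖c i j‖) atTop (𝓝 0) := by
    have := (hb k).add (tendsto_sum_norm hcA k)
    simpa using this
  exact squeeze_zero (fun j => N_nonneg _ _) hbd hlim

/-- Coordinate evaluation to a block is uniformly continuous. -/
lemma uc_eval (k j : ℕ) : UniformContinuous (fun c : ℕ → W => c k j) :=
  (Pi.uniformContinuous_proj _ j).comp (Pi.uniformContinuous_proj _ k)

lemma uc_P (k j : ℕ) : UniformContinuous (fun p : W × (ℕ → W) => P p.1 p.2 k j) := by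
  unfold P
  apply UniformContinuous.add
  · exact (Pi.uniformContinuous_proj _ j).comp uniformContinuous_fst
  · induction k with
    | zero => simpa using uniformContinuous_const
    | succ k ih =>
      simp only [Finset.sum_range_succ]
      exact ih.add ((uc_eval k j).comp uniformContinuous_snd)

lemma uc_F : UniformContinuous (fun p : W × (ℕ → W) => F p.1 p.2) := by
  rw [uniformContinuous_pi]
  intro k
  rw [uniformContinuous_pi]
  intro j
  exact (uc_P k j).sub ((uniformContinuous_tau (ee j k)).comp (uc_P (k + 1) j))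

lemma uc_R (j : ℕ) : ∀ n k : ℕ, UniformContinuous (fun b : ℕ → W => R j (fun i => b i j) n k) := by
  intro n
  induction n with
  | zero => intro k; exact uc_eval k j
  | succ n ih =>
    intro k
    exact (uc_eval k j).add ((uniformContinuous_tau (ee j k)).comp (ih (k + 1)))

lemma uc_Gs (k : ℕ) : UniformContinuous (fun b : ℕ → W => Gs b k) := by
  rw [uniformContinuous_pi]
  intro j
  exact uc_R j (j + 1) k

/-- The telescoping uniform homeomorphism. -/
def teleEquiv : (GG × AA) ≃ᵤ AA where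
  toFun p := ⟨F p.1.1 p.2.1, F_mem p.1.2 p.2.2⟩
  invFun b := (⟨Gs b.1 0, Gs_zero_mem b.2⟩, ⟨fun k => Gs b.1 (k + 1) - Gs b.1 k, diff_mem b.2⟩)
  left_inv := by
    rintro ⟨⟨g, hg⟩, ⟨c, hc⟩⟩
    refine Prod.ext (Subtype.ext ?_) (Subtype.ext ?_)
    · change Gs (F g c) 0 = g
      rw [Gs_F, P_zero]
    · change (fun k => Gs (F g c) (k + 1) - Gs (F g c) k) = c
      funext k j
      rw [Gs_F, Gs_F, Pi.sub_apply, P_succ, add_sub_cancel_left]
  right_inv := by
    rintro ⟨b, hb⟩
    refine Subtype.ext ?_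
    exact F_Gs b
  uniformContinuous_toFun := by
    apply UniformContinuous.subtype_mk
    exact uc_F.comp ((uniformContinuous_subtype_val.comp uniformContinuous_fst).prodMk
      (uniformContinuous_subtype_val.comp uniformContinuous_snd))
  uniformContinuous_invFun := by
    apply UniformContinuous.prodMk
    · apply UniformContinuous.subtype_mk
      exact (uc_Gs 0).comp uniformContinuous_subtype_val
    · apply UniformContinuous.subtype_mk
      rw [uniformContinuous_pi]
      intro k
      exact ((uc_Gs (k + 1)).comp uniformContinuous_subtype_val).sub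
        ((uc_Gs k).comp uniformContinuous_subtype_val)

end

end Pool.Agent.Helper854.Usp
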