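import Mathlib
import Pool.Agent.Helper854.Tele

set_option autoImplicit false

open Filter Topology

namespace Pool.Agent.Helper854.Usp

noncomputable section

/-- The isolated points. -/
abbrev D : Type := Σ j : ℕ, Fin (2 ^ j)

open Classical in
/-- The points of `E` in block `j`. -/
def blk (E : Set D) (j : ℕ) : Finset (Fin (2 ^ j)) :=
  Finset.univ.filter (fun m : Fin (2 ^ j) => (⟨j, m⟩ : D) ∈ E)

open Classical in
lemma mem_blk (E : Set D) (j : ℕ) (m : Fin (2 ^ j)) : m ∈ blk E j ↔ (⟨j, m⟩ : D) ∈ E := by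
  unfold blk
  rw [Finset.mem_filter]
  exact ⟨fun h => h.2, fun h => ⟨Finset.mem_univ _, h⟩⟩

/-- Number of points of `E` in block `j`. -/
def num (E : Set D) (j : ℕ) : ℕ := (blk E j).card

/-- Sets of density zero. -/
def Small (E : Set D) : Prop := ∀ k : ℕ, ∀ᶠ j in atTop, num E j ≤ ee j k

lemma num_mono {E E' : Set D} (h : E ⊆ E') (j : ℕ) : num E j ≤ num E' j := by
  unfold num
  apply Finset.card_le_card
  intro m hm
  rw [mem_blk] at hm ⊢
  exact h hm

lemma num_union (E E' : Set D) (j : ℕ) : num (E ∪ E') j ≤ num E j + num E' j := by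
  classical
  unfold num
  refine le_trans (Finset.card_le_card ?_) (Finset.card_union_le _ _)
  intro m hm
  rw [mem_blk] at hm
  rw [Finset.mem_union, mem_blk, mem_blk]
  exact hm

lemma num_univ (j : ℕ) : num Set.univ j = 2 ^ j := by
  have : blk Set.univ j = Finset.univ := by
    ext m
    rw [mem_blk]
    simp
  unfold num
  rw [this]
  simp

lemma num_empty (j : ℕ) : num ∅ j = 0 := by
  have : blk ∅ j = ∅ := by
    ext m
    rw [mem_blk]
    simp
  unfold num
  rw [this]
  rfl

lemma num_le_one {E : Set D} {j : ℕ}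
    (h : ∀ a b : Fin (2 ^ j), (⟨j, a⟩ : D) ∈ E → (⟨j, b⟩ : D) ∈ E → a = b) : num E j ≤ 1 := by
  unfold num
  rw [Finset.card_le_one]
  intro a ha b hb
  rw [mem_blk] at ha hb
  exact h a b ha hb

lemma ee_add (j k : ℕ) : ee j (k + 1) + ee j (k + 1) ≤ ee j k := by
  unfold ee
  rw [pow_succ, ← Nat.div_div_eq_div_mul]
  omega

lemma Small.mono {E E' : Set D} (h : E ⊆ E') (hE : Small E') : Small E :=
  fun k => (hE k).mono (fun j hj => (num_mono h j).trans hj)

lemma Small.union {E E' : Set D} (h : Small E) (h' : Small E') : Small (E ∪ E') := by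
  intro k
  filter_upwards [h (k + 1), h' (k + 1)] with j h1 h2
  have := num_union E E' j
  have := ee_add j k
  omega

lemma small_empty : Small ∅ := by
  intro k
  filter_upwards with j
  rw [num_empty]
  exact Nat.zero_le _

lemma not_small_univ : ¬ Small Set.univ := by
  intro h
  obtain ⟨j, hj⟩ := (h 1).exists
  rw [num_univ] at hj
  unfold ee at hj
  have : 0 < 2 ^ j := by positivity
  omega

lemma small_of_num_le_one {E : Set D} (h : ∀ j, num E j ≤ 1) : Small E := by
  intro k
  filter_upwards [eventually_ge_atTop k] with j hj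
  refine (h j).trans ?_
  unfold ee
  rw [Nat.one_le_div_iff (by positivity)]
  exact Nat.pow_le_pow_right (by norm_num) hj

/-- The space: the isolated points together with the real line. -/
def X1 : Type := D ⊕ ℝ

/-- The isolated point `d`. -/
def pt (d : D) : X1 := Sum.inl d

/-- The point of the line. -/
def re (r : ℝ) : X1 := Sum.inr r

instance : TopologicalSpace X1 where
  IsOpen U := IsOpen {r : ℝ | re r ∈ U} ∧ (re 0 ∈ U → Small {d | pt d ∉ U})
  isOpen_univ := by
    refine ⟨by simp, fun _ => ?_⟩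
    simpa using small_empty
  isOpen_inter := by
    intro s t hs ht
    refine ⟨?_, ?_⟩
    · exact hs.1.inter ht.1
    · rintro ⟨h1, h2⟩
      refine Small.mono ?_ ((hs.2 h1).union (ht.2 h2))
      intro d hd
      simp only [Set.mem_inter_iff, Set.mem_ofPred_eq, not_and_or] at hd
      exact hd
  isOpen_sUnion := by
    intro S hS
    refine ⟨?_, ?_⟩
    · have : {r : ℝ | re r ∈ ⋃₀ S} = ⋃ U ∈ S, {r : ℝ | re r ∈ U} := by
        ext r; simp
      rw [this]
      exact isOpen_biUnion (fun U hU => (hS U hU).1)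
    · rintro ⟨U, hU, h0⟩
      refine Small.mono ?_ ((hS U hU).2 h0)
      intro d hd hdU
      exact hd ⟨U, hU, hdU⟩

lemma isOpen_X1 {U : Set X1} :
    IsOpen U ↔ IsOpen {r : ℝ | re r ∈ U} ∧ (re 0 ∈ U → Small {d | pt d ∉ U}) := Iff.rfl

lemma pt_ne_re (d : D) (r : ℝ) : pt d ≠ re r := Sum.inl_ne_inr

lemma re_inj {r s : ℝ} : re r = re s ↔ r = s := Sum.inr_injective.eq_iff

lemma pt_inj {d e : D} : pt d = pt e ↔ d = e := Sum.inl_injective.eq_iff

lemma continuous_re : Continuous re := by
  rw [continuous_def]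
  intro U hU
  exact hU.1

/-- Sets not containing the point zero are open when their trace on the line is. -/
lemma isOpen_of_not_mem {U : Set X1} (h0 : re 0 ∉ U) (h : IsOpen {r : ℝ | re r ∈ U}) :
    IsOpen U := ⟨h, fun h1 => absurd h1 h0⟩

lemma isOpen_pt (S : Set D) : IsOpen (pt '' S) := by
  apply isOpen_of_not_mem
  · rintro ⟨d, _, hd⟩
    exact pt_ne_re _ _ hd
  · have : {r : ℝ | re r ∈ pt '' S} = ∅ := by
      ext r
      simp only [Set.mem_ofPred_eq, Set.mem_image, Set.mem_empty_iff_false, iff_false, not_exists,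
        not_and]
      intro d _ hd
      exact pt_ne_re _ _ hd
    rw [this]
    exact isOpen_empty

lemma continuous_iff_X1 (h : X1 → ℝ) :
    Continuous h ↔ Continuous (fun r => h (re r)) ∧
      ∀ ε : ℝ, 0 < ε → Small {d | ε < |h (pt d) - h (re 0)|} := by
  constructor
  · intro hc
    refine ⟨hc.comp continuous_re, ?_⟩
    intro ε hε
    have ho : IsOpen (h ⁻¹' (Metric.ball (h (re 0)) ε)) := Metric.isOpen_ball.preimage hc
    have := ho.2 (by simpa using hε)
    refine Small.mono ?_ this
    intro d hd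
    simp only [Set.mem_ofPred_eq, Set.mem_preimage, Metric.mem_ball, Real.dist_eq, not_lt] at hd ⊢
    exact hd.le
  · rintro ⟨h1, h2⟩
    rw [continuous_def]
    intro U hU
    refine ⟨hU.preimage h1, ?_⟩
    intro h0
    obtain ⟨ε, hε, hball⟩ := Metric.isOpen_iff.mp hU _ h0
    refine Small.mono ?_ (h2 (ε / 2) (by positivity))
    intro d hd
    simp only [Set.mem_ofPred_eq, Set.mem_preimage] at hd ⊢
    by_contra hcon
    push Not at hcon
    apply hd
    apply hball
    rw [Metric.mem_ball, Real.dist_eq]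
    linarith

lemma cases_X1 (x : X1) : (∃ d, x = pt d) ∨ ∃ r, x = re r := by
  rcases x with d | r
  · exact Or.inl ⟨d, rfl⟩
  · exact Or.inr ⟨r, rfl⟩

instance : T1Space X1 := by
  refine ⟨fun x => ?_⟩
  rw [← isOpen_compl_iff]
  rcases cases_X1 x with ⟨d, rfl⟩ | ⟨r, rfl⟩
  · refine ⟨?_, ?_⟩
    · have : {s : ℝ | re s ∈ ({pt d} : Set X1)ᶜ} = Set.univ := by
        ext s
        simp only [Set.mem_compl_iff, Set.mem_singleton_iff, Set.mem_ofPred_eq, Set.mem_univ,
          iff_true]
        exact fun h => pt_ne_re d s h.symm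
      rw [this]; exact isOpen_univ
    · intro _
      apply small_of_num_le_one
      intro j
      apply num_le_one
      intro a b ha hb
      have ha' : (⟨j, a⟩ : D) = d := by
        simp only [Set.mem_compl_iff, Set.mem_singleton_iff, Set.mem_ofPred_eq, not_not] at ha
        exact pt_inj.mp ha
      have hb' : (⟨j, b⟩ : D) = d := by
        simp only [Set.mem_compl_iff, Set.mem_singleton_iff, Set.mem_ofPred_eq, not_not] at hb
        exact pt_inj.mp hb
      have := ha'.trans hb'.symm
      simpa using this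
  · refine ⟨?_, ?_⟩
    · have : {s : ℝ | re s ∈ ({re r} : Set X1)ᶜ} = ({r} : Set ℝ)ᶜ := by
        ext s
        simp only [Set.mem_compl_iff, Set.mem_singleton_iff, Set.mem_ofPred_eq]
        exact not_congr re_inj
      rw [this]; exact isOpen_compl_singleton
    · intro _
      have : {d | pt d ∉ ({re r} : Set X1)ᶜ} = ∅ := by
        ext d
        simp only [Set.mem_compl_iff, Set.mem_singleton_iff, Set.mem_ofPred_eq, not_not,
          Set.mem_empty_iff_false, iff_false]
        exact pt_ne_re d r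
      rw [this]; exact small_empty

/-- Separation when the second set misses the point zero. -/
lemma sep_aux (s t : Set X1) (hs : IsClosed s) (ht : IsClosed t) (hst : Disjoint s t)
    (h0 : re 0 ∉ t) : SeparatedNhds s t := by
  have hs' : IsClosed {r : ℝ | re r ∈ s} := hs.preimage continuous_re
  have ht' : IsClosed {r : ℝ | re r ∈ t} := ht.preimage continuous_re
  have hd : Disjoint {r : ℝ | re r ∈ s} {r : ℝ | re r ∈ t} := by
    rw [Set.disjoint_left]
    intro r h1 h2
    exact Set.disjoint_left.mp hst h1 h2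
  obtain ⟨U, Vv, hU, hV, hsU, htV, hUV⟩ := normal_separation hs' ht' hd
  have htsmall : Small {d | pt d ∈ t} := by
    have := ht.isOpen_compl.2 h0
    refine Small.mono ?_ this
    intro d hdt
    simp only [Set.mem_ofPred_eq, Set.mem_compl_iff, not_not]
    exact hdt
  refine ⟨re '' U ∪ pt '' {d | pt d ∉ t}, re '' (Vv \ {0}) ∪ pt '' {d | pt d ∈ t}, ?_, ?_, ?_, ?_, ?_⟩
  · refine ⟨?_, ?_⟩
    · have : {r : ℝ | re r ∈ re '' U ∪ pt '' {d | pt d ∉ t}} = U := by
        ext r
        simp only [Set.mem_union, Set.mem_image, Set.mem_ofPred_eq]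
        constructor
        · rintro (⟨s, hs, h⟩ | ⟨d, _, h⟩)
          · rwa [← re_inj.mp h]
          · exact absurd h (pt_ne_re _ _)
        · intro h
          exact Or.inl ⟨r, h, rfl⟩
      rw [this]; exact hU
    · intro _
      refine Small.mono ?_ htsmall
      intro d hd
      simp only [Set.mem_ofPred_eq, Set.mem_union, not_or] at hd ⊢
      by_contra hcon
      exact hd.2 ⟨d, hcon, rfl⟩
  · apply isOpen_of_not_mem
    · rintro (⟨s, hs, h⟩ | ⟨d, _, h⟩)
      · exact hs.2 (re_inj.mp h)
      · exact pt_ne_re _ _ h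
    · have : {r : ℝ | re r ∈ re '' (Vv \ {0}) ∪ pt '' {d | pt d ∈ t}} = Vv \ {0} := by
        ext r
        simp only [Set.mem_union, Set.mem_image, Set.mem_ofPred_eq]
        constructor
        · rintro (⟨s, hs, h⟩ | ⟨d, _, h⟩)
          · rwa [← re_inj.mp h]
          · exact absurd h (pt_ne_re _ _)
        · intro h
          exact Or.inl ⟨r, h, rfl⟩
      rw [this]
      exact hV.sdiff isClosed_singleton
  · intro x hx
    rcases x with d | r
    · right
      exact ⟨d, fun h => Set.disjoint_left.mp hst hx h, rfl⟩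
    · left
      exact ⟨r, hsU hx, rfl⟩
  · intro x hx
    rcases x with d | r
    · right
      exact ⟨d, hx, rfl⟩
    · left
      refine ⟨r, ⟨htV hx, ?_⟩, rfl⟩
      rintro rfl
      exact h0 hx
  · rw [Set.disjoint_left]
    rintro x (⟨r, hr, rfl⟩ | ⟨d, hd, rfl⟩) (⟨s, hs, h⟩ | ⟨e, he, h⟩)
    · rw [re_inj] at h
      subst h
      exact Set.disjoint_left.mp hUV hr hs.1
    · exact pt_ne_re _ _ h
    · exact pt_ne_re _ _ h.symm
    · rw [pt_inj] at h
      subst h
      exact hd he

instance : NormalSpace X1 := by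
  refine ⟨fun s t hs ht hst => ?_⟩
  by_cases h0 : re 0 ∈ t
  · have h1 : re 0 ∉ s := fun h => Set.disjoint_left.mp hst h h0
    exact (sep_aux t s ht hs hst.symm h1).symm
  · exact sep_aux s t hs ht hst h0

instance : T4Space X1 := ⟨⟩

example : T35Space X1 := inferInstance

/-- Every infinite set of isolated points contains an infinite small set. -/
lemma exists_small {S : Set D} (hS : S.Infinite) : ∃ B ⊆ S, B.Infinite ∧ Small B := by
  classical
  set J : Set ℕ := {j | ∃ m : Fin (2 ^ j), (⟨j, m⟩ : D) ∈ S} with hJ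
  have hJinf : J.Infinite := by
    intro hfin
    apply hS
    have hsub : S ⊆ ⋃ j ∈ J, Set.range (fun m : Fin (2 ^ j) => (⟨j, m⟩ : D)) := by
      rintro ⟨j, m⟩ hm
      simp only [Set.mem_iUnion]
      exact ⟨j, ⟨m, hm⟩, m, rfl⟩
    exact (hfin.biUnion (fun j _ => Set.finite_range _)).subset hsub
  choose! f hf using fun (j : ℕ) (hj : j ∈ J) => hj
  let q : ℕ → D := fun j => ⟨j, f j⟩
  have hq : Function.Injective q := by
    intro a b hab
    exact congrArg Sigma.fst hab
  refine ⟨q '' J, ?_, hJinf.image hq.injOn, ?_⟩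
  · rintro _ ⟨j, hj, rfl⟩
    exact hf j hj
  · apply small_of_num_le_one
    intro j
    apply num_le_one
    intro a b ha hb
    obtain ⟨i, _, hi⟩ := ha
    obtain ⟨i', _, hi'⟩ := hb
    have h1 : i = j := congrArg Sigma.fst hi
    have h2 : i' = j := congrArg Sigma.fst hi'
    subst h1
    subst h2
    have := hi.symm.trans hi'
    simpa using this

/-- Compact sets contain finitely many isolated points. -/
lemma finite_of_isCompact {K : Set X1} (hK : IsCompact K) : {d | pt d ∈ K}.Finite := by
  by_contra hinf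
  obtain ⟨B, hBK, hBinf, hBsmall⟩ := exists_small hinf
  have hclosed : IsClosed (pt '' B) := by
    rw [← isOpen_compl_iff]
    refine ⟨?_, ?_⟩
    · have : {r : ℝ | re r ∈ (pt '' B)ᶜ} = Set.univ := by
        ext r
        simp only [Set.mem_compl_iff, Set.mem_image, not_exists, not_and, Set.mem_ofPred_eq,
          Set.mem_univ, iff_true]
        intro d _
        exact pt_ne_re d r
      rw [this]; exact isOpen_univ
    · intro _
      refine Small.mono ?_ hBsmall
      intro d hd
      simp only [Set.mem_compl_iff, Set.mem_ofPred_eq, not_not] at hd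
      obtain ⟨e, he, h⟩ := hd
      rw [← pt_inj.mp h]; exact he
  have hcomp : IsCompact (pt '' B) := by
    refine hK.of_isClosed_subset hclosed ?_
    rintro _ ⟨d, hd, rfl⟩
    exact hBK hd
  have hdisc : DiscreteTopology (pt '' B) := by
    rw [discreteTopology_iff_isOpen_singleton]
    rintro ⟨x, d, hd, rfl⟩
    rw [isOpen_induced_iff]
    refine ⟨pt '' {d}, isOpen_pt _, ?_⟩
    ext ⟨y, e, he, rfl⟩
    simp only [Set.image_singleton, Set.mem_preimage, Set.mem_singleton_iff]
    exact ⟨fun h => Subtype.ext h, fun h => congrArg Subtype.val h⟩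
  have hfin := hcomp.finite ⟨hdisc⟩
  have : (pt '' B).Infinite := hBinf.image (fun a _ b _ h => pt_inj.mp h)
  exact this hfin

theorem not_komega : ¬ ∃ K : ℕ → Set X1, (∀ n, IsCompact (K n)) ∧ (⋃ n, K n) = Set.univ ∧
    ∀ F : Set X1, (∀ n, IsClosed ((Subtype.val : ↥(K n) → X1) ⁻¹' F)) → IsClosed F := by
  rintro ⟨K, hK, -, hF⟩
  have hcl : IsClosed (Set.range pt) := by
    apply hF
    intro n
    have hfin : (pt '' {d | pt d ∈ K n}).Finite := (finite_of_isCompact (hK n)).image pt
    have : (Subtype.val : ↥(K n) → X1) ⁻¹' (Set.range pt)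
        = (Subtype.val : ↥(K n) → X1) ⁻¹' (pt '' {d | pt d ∈ K n}) := by
      ext ⟨x, hx⟩
      simp only [Set.mem_preimage, Set.mem_range, Set.mem_image, Set.mem_ofPred_eq]
      constructor
      · rintro ⟨d, rfl⟩
        exact ⟨d, hx, rfl⟩
      · rintro ⟨d, _, rfl⟩
        exact ⟨d, rfl⟩
    rw [this]
    exact hfin.isClosed.preimage continuous_subtype_val
  have hop := hcl.isOpen_compl
  have h0 : re 0 ∈ (Set.range pt)ᶜ := by
    rintro ⟨d, hd⟩
    exact pt_ne_re _ _ hd
  have := hop.2 h0
  apply not_small_univ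
  refine Small.mono ?_ this
  intro d _
  simp only [Set.mem_compl_iff, Set.mem_range, Set.mem_ofPred_eq, not_not]
  exact ⟨d, rfl⟩

end

end Pool.Agent.Helper854.Usp
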