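import Mathlib
import Pool.Agent.Helper854.Space

set_option autoImplicit false

open Filter Topology

namespace Pool.Agent.Helper854.Usp

noncomputable section

/-- Code of an index. -/
def code (d : D) : ℕ := Nat.pair d.1 (d.2 : ℕ)

lemma code_inj {d e : D} (h : code d = code e) : d = e := by
  obtain ⟨j, m⟩ := d
  obtain ⟨j', m'⟩ := e
  unfold code at h
  rw [Nat.pair_eq_pair] at h
  obtain ⟨h1, h2⟩ := h
  simp only at h1 h2
  subst h1
  rw [Fin.ext h2]

lemma le_code (d : D) : d.1 ≤ code d := Nat.left_le_pair _ _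

/-- The evaluation points. -/
def node (k : ℕ) (d : D) : ℝ := (k : ℝ) + (1 / 2) ^ (code d + 1)

/-- The bump functions. -/
def psi (k : ℕ) (d : D) (t : ℝ) : ℝ := max 0 (1 - 4 * |2 ^ (code d + 1) * (t - k) - 1|)

lemma continuous_psi (k : ℕ) (d : D) : Continuous (psi k d) := by
  unfold psi; fun_prop

lemma psi_nonneg (k : ℕ) (d : D) (t : ℝ) : 0 ≤ psi k d t := le_max_left _ _

lemma psi_le_one (k : ℕ) (d : D) (t : ℝ) : psi k d t ≤ 1 := by
  unfold psi
  apply max_le (by norm_num)
  have := abs_nonneg (2 ^ (code d + 1) * (t - k) - 1)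
  linarith

lemma psi_node (k : ℕ) (d : D) : psi k d (node k d) = 1 := by
  unfold psi node
  have : (2:ℝ) ^ (code d + 1) * ((k : ℝ) + (1 / 2) ^ (code d + 1) - k) = 1 := by
    rw [add_sub_cancel_left, ← mul_pow]
    norm_num
  rw [this]
  norm_num

lemma psi_supp {k : ℕ} {d : D} {t : ℝ} (h : psi k d t ≠ 0) :
    3 / 4 * (1 / 2 : ℝ) ^ (code d + 1) < t - k ∧ t - k < 5 / 4 * (1 / 2 : ℝ) ^ (code d + 1) := by
  have h1 : |2 ^ (code d + 1) * (t - k) - 1| < 1 / 4 := by
    by_contra hcon
    push Not at hcon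
    apply h
    unfold psi
    apply max_eq_left
    linarith
  rw [abs_lt] at h1
  have hp : (0:ℝ) < (1 / 2) ^ (code d + 1) := by positivity
  have h2 : (1 / 2 : ℝ) ^ (code d + 1) * (2 ^ (code d + 1) * (t - k)) = t - k := by
    rw [← mul_assoc, ← mul_pow]
    norm_num
  constructor
  · have : 3 / 4 < (2:ℝ) ^ (code d + 1) * (t - k) := by linarith [h1.1]
    nlinarith
  · have : (2:ℝ) ^ (code d + 1) * (t - k) < 5 / 4 := by linarith [h1.2]
    nlinarith

lemma psi_supp' {k : ℕ} {d : D} {t : ℝ} (h : psi k d t ≠ 0) : (k : ℝ) < t ∧ t < k + 1 := by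
  obtain ⟨h1, h2⟩ := psi_supp h
  have hp : (0:ℝ) < (1 / 2) ^ (code d + 1) := by positivity
  have hq : (1 / 2 : ℝ) ^ (code d + 1) ≤ 1 / 2 := by
    rw [pow_succ]
    have : (1 / 2 : ℝ) ^ (code d) ≤ 1 := pow_le_one₀ (by norm_num) (by norm_num)
    linarith
  constructor <;> linarith

lemma code_aux {c c' : ℕ} {s : ℝ} (h : c < c') (h1 : 3 / 4 * (1 / 2 : ℝ) ^ (c + 1) < s)
    (h2 : s < 5 / 4 * (1 / 2 : ℝ) ^ (c' + 1)) : False := by
  have hp : (0:ℝ) < (1 / 2) ^ (c + 1) := by positivity
  have : (1 / 2 : ℝ) ^ (c' + 1) ≤ (1 / 2) ^ (c + 2) :=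
    pow_le_pow_of_le_one (by norm_num) (by norm_num) (by omega)
  have h3 : (1 / 2 : ℝ) ^ (c + 2) = (1 / 2) ^ (c + 1) * (1 / 2) := by rw [← pow_succ]
  linarith

lemma psi_unique {k k' : ℕ} {d d' : D} {t : ℝ} (h : psi k d t ≠ 0) (h' : psi k' d' t ≠ 0) :
    k = k' ∧ d = d' := by
  have h1 := psi_supp' h
  have h2 := psi_supp' h'
  have hk : k = k' := by
    have h3 : (k : ℝ) < k' + 1 := by linarith
    have h4 : (k' : ℝ) < k + 1 := by linarith
    have h5 : k < k' + 1 := by exact_mod_cast h3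
    have h6 : k' < k + 1 := by exact_mod_cast h4
    omega
  subst hk
  refine ⟨rfl, code_inj ?_⟩
  obtain ⟨a1, a2⟩ := psi_supp h
  obtain ⟨b1, b2⟩ := psi_supp h'
  rcases lt_trichotomy (code d) (code d') with hlt | heq | hgt
  · exact (code_aux hlt a1 b2).elim
  · exact heq
  · exact (code_aux hgt b1 a2).elim

/-- The linear extension operator. -/
def ext (a : ℕ → W) (t : ℝ) : ℝ := ∑ᶠ p : ℕ × D, a p.1 p.2.1 p.2.2 * psi p.1 p.2 t

lemma ext_eq {a : ℕ → W} {t : ℝ} {k : ℕ} {d : D} (h : psi k d t ≠ 0) :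
    ext a t = a k d.1 d.2 * psi k d t := by
  unfold ext
  rw [finsum_eq_single _ ((k, d) : ℕ × D)]
  rintro ⟨k', d'⟩ hne
  by_contra hcon
  have h' : psi k' d' t ≠ 0 := right_ne_zero_of_mul hcon
  obtain ⟨h1, h2⟩ := psi_unique h h'
  exact hne (by rw [h1, h2])

lemma ext_eq_zero {a : ℕ → W} {t : ℝ} (h : ∀ k d, psi k d t = 0) : ext a t = 0 := by
  unfold ext
  have : (fun p : ℕ × D => a p.1 p.2.1 p.2.2 * psi p.1 p.2 t) = fun _ => 0 := by
    funext p
    rw [h, mul_zero]
  rw [this, finsum_zero]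

lemma ext_cases (t : ℝ) : (∃ k d, psi k d t ≠ 0) ∨ ∀ k d, psi k d t = 0 := by
  by_cases h : ∃ k d, psi k d t ≠ 0
  · exact Or.inl h
  · push Not at h
    exact Or.inr h

lemma ext_sub (a b : ℕ → W) (t : ℝ) : ext (a - b) t = ext a t - ext b t := by
  rcases ext_cases t with ⟨k, d, h⟩ | h
  · rw [ext_eq h, ext_eq h, ext_eq h]
    simp only [Pi.sub_apply]
    ring
  · rw [ext_eq_zero h, ext_eq_zero h, ext_eq_zero h, sub_zero]

lemma ext_node (a : ℕ → W) (k : ℕ) (d : D) : ext a (node k d) = a k d.1 d.2 := by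
  have h : psi k d (node k d) ≠ 0 := by rw [psi_node]; norm_num
  rw [ext_eq h, psi_node, mul_one]

lemma ext_nat (a : ℕ → W) (k : ℕ) : ext a k = 0 := by
  apply ext_eq_zero
  intro k' d'
  by_contra h
  have h1 := psi_supp' h
  have h2 : k' < k := by exact_mod_cast h1.1
  have h3 : k < k' + 1 := by exact_mod_cast h1.2
  omega

lemma uc_ext (t : ℝ) : UniformContinuous (fun a : ℕ → W => ext a t) := by
  rcases ext_cases t with ⟨k, d, h⟩ | h
  · have : (fun a : ℕ → W => ext a t) = fun a => a k d.1 d.2 * psi k d t := by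
      funext a; exact ext_eq h
    rw [this]
    have h1 : UniformContinuous (fun a : ℕ → W => a k d.1 d.2) :=
      (Pi.uniformContinuous_proj _ d.2).comp (uc_eval k d.1)
    have h2 : UniformContinuous (fun x : ℝ => x * psi k d t) := by
      have := Real.uniformContinuous_const_mul (x := psi k d t)
      simpa only [mul_comm] using this
    exact h2.comp h1
  · have : (fun a : ℕ → W => ext a t) = fun _ => 0 := by
      funext a; exact ext_eq_zero h
    rw [this]
    exact uniformContinuous_const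

lemma finite_Iio (J : ℕ) : {d : D | d.1 < J}.Finite := by
  have : {d : D | d.1 < J} ⊆ ⋃ j ∈ Set.Iio J, Set.range (fun m : Fin (2 ^ j) => (⟨j, m⟩ : D)) := by
    rintro ⟨j, m⟩ hj
    simp only [Set.mem_iUnion]
    exact ⟨j, hj, m, rfl⟩
  exact ((Set.finite_Iio J).biUnion (fun j _ => Set.finite_range _)).subset this

lemma finite_large {a : ℕ → W} (ha : a ∈ AA) (k : ℕ) {ε : ℝ} (hε : 0 < ε) :
    {d : D | ε < |a k d.1 d.2|}.Finite := by
  obtain ⟨J, hJ⟩ := ((Metric.tendsto_atTop.mp (ha k)) ε hε)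
  refine (finite_Iio J).subset ?_
  intro d hd
  simp only [Set.mem_ofPred_eq] at hd ⊢
  by_contra hcon
  push Not at hcon
  have h1 := hJ d.1 hcon
  rw [Real.dist_eq, sub_zero, abs_norm] at h1
  have h2 := norm_le_pi_norm (a k d.1) d.2
  rw [Real.norm_eq_abs] at h2
  linarith

/-- Removing small coordinates. -/
def cut (ε : ℝ) (a : ℕ → W) : ℕ → W := fun k j m => if ε < |a k j m| then a k j m else 0

lemma continuous_ext_cut {a : ℕ → W} (ha : a ∈ AA) {ε : ℝ} (hε : 0 < ε) :
    Continuous (ext (cut ε a)) := by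
  unfold ext
  apply continuous_finsum
  · intro p
    exact continuous_const.mul (continuous_psi _ _)
  · intro t0
    refine ⟨Set.Ioo (t0 - 1) (t0 + 1), Ioo_mem_nhds (by linarith) (by linarith), ?_⟩
    obtain ⟨M, hM⟩ := exists_nat_gt (t0 + 1)
    have hfin : (⋃ k ∈ Set.Iio M, (Prod.mk k) '' {d : D | ε < |a k d.1 d.2|} :
        Set (ℕ × D)).Finite :=
      (Set.finite_Iio M).biUnion (fun k _ => (finite_large ha k hε).image _)
    refine hfin.subset ?_
    rintro ⟨k, d⟩ ⟨t, ht1, ht2⟩
    rw [Function.mem_support] at ht1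
    have h1 : psi k d t ≠ 0 := right_ne_zero_of_mul ht1
    have h2 : cut ε a k d.1 d.2 ≠ 0 := left_ne_zero_of_mul ht1
    have h3 : ε < |a k d.1 d.2| := by
      by_contra hcon
      apply h2
      unfold cut
      rw [if_neg hcon]
    have h4 := psi_supp' h1
    have h5 : (k : ℝ) < M := by linarith [ht2.2]
    have h6 : k < M := by exact_mod_cast h5
    simp only [Set.mem_iUnion]
    exact ⟨k, h6, d, h3, rfl⟩

lemma abs_ext_sub_cut {a : ℕ → W} {ε : ℝ} (hε : 0 < ε) (t : ℝ) :
    |ext a t - ext (cut ε a) t| ≤ ε := by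
  rcases ext_cases t with ⟨k, d, h⟩ | h
  · rw [ext_eq h, ext_eq h, ← sub_mul, abs_mul]
    have h1 : |psi k d t| ≤ 1 := by
      rw [abs_of_nonneg (psi_nonneg _ _ _)]; exact psi_le_one _ _ _
    have h2 : |a k d.1 d.2 - cut ε a k d.1 d.2| ≤ ε := by
      unfold cut
      split_ifs with h3
      · rw [sub_self, abs_zero]; exact hε.le
      · rw [sub_zero]; exact not_lt.mp h3
    calc |a k d.1 d.2 - cut ε a k d.1 d.2| * |psi k d t| ≤ ε * 1 :=
          mul_le_mul h2 h1 (abs_nonneg _) hε.le
      _ = ε := mul_one _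
  · rw [ext_eq_zero h, ext_eq_zero h, sub_zero, abs_zero]
    exact hε.le

lemma continuous_ext {a : ℕ → W} (ha : a ∈ AA) : Continuous (ext a) := by
  apply continuous_of_uniform_approx_of_continuous
  intro u hu
  obtain ⟨ε, hε, hu⟩ := Metric.mem_uniformity_dist.mp hu
  refine ⟨ext (cut (ε / 2) a), continuous_ext_cut ha (by positivity), ?_⟩
  intro t
  apply hu
  rw [Real.dist_eq]
  have := abs_ext_sub_cut (a := a) (ε := ε / 2) (by positivity) t
  linarith

/-- The evaluation operator. -/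
def ev (f : ℝ → ℝ) : ℕ → W := fun k j m => f (node k ⟨j, m⟩) - f k

lemma ev_sub (f g : ℝ → ℝ) : ev (f - g) = ev f - ev g := by
  funext k j m
  simp only [ev, Pi.sub_apply]
  ring

lemma ev_ext (a : ℕ → W) : ev (ext a) = a := by
  funext k j m
  unfold ev
  rw [ext_node, ext_nat, sub_zero]

lemma ev_mem {f : ℝ → ℝ} (hf : Continuous f) : ev f ∈ AA := by
  intro k
  rw [Metric.tendsto_atTop]
  intro ε hε
  obtain ⟨δ, hδ, hball⟩ := Metric.continuousAt_iff.mp (hf.continuousAt (x := (k : ℝ))) (ε / 2)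
    (by positivity)
  obtain ⟨J, hJ⟩ := exists_pow_lt_of_lt_one hδ (show (1 / 2 : ℝ) < 1 by norm_num)
  refine ⟨J, fun j hj => ?_⟩
  rw [Real.dist_eq, sub_zero, abs_norm]
  have : ‖ev f k j‖ ≤ ε / 2 := by
    rw [pi_norm_le_iff_of_nonneg (by positivity)]
    intro m
    unfold ev
    rw [Real.norm_eq_abs, ← Real.dist_eq]
    apply le_of_lt
    apply hball
    rw [Real.dist_eq]
    unfold node
    rw [add_sub_cancel_left, abs_of_pos (by positivity)]
    refine lt_of_le_of_lt ?_ hJ
    apply pow_le_pow_of_le_one (by norm_num) (by norm_num)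
    have := le_code ⟨j, m⟩
    simp only at this
    omega
  linarith

/-- Continuous functions on the line. -/
abbrev CR : Type := {f : ℝ → ℝ // Continuous f}

/-- Continuous functions on the line vanishing under evaluation. -/
abbrev ZR : Type := {f : ℝ → ℝ // Continuous f ∧ ev f = 0}

lemma uc_ev : UniformContinuous ev := by
  rw [uniformContinuous_pi]
  intro k
  rw [uniformContinuous_pi]
  intro j
  rw [uniformContinuous_pi]
  intro m
  exact (Pi.uniformContinuous_proj _ _).sub (Pi.uniformContinuous_proj _ _)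

lemma uc_ext' : UniformContinuous ext := by
  rw [uniformContinuous_pi]
  exact uc_ext

/-- Splitting off a product of sequence spaces from the functions on the line. -/
def lineEquiv : CR ≃ᵤ (AA × ZR) where
  toFun f := (⟨ev f.1, ev_mem f.2⟩, ⟨f.1 - ext (ev f.1), f.2.sub (continuous_ext (ev_mem f.2)), by
    rw [ev_sub, ev_ext, sub_self]⟩)
  invFun p := ⟨p.2.1 + ext p.1.1, p.2.2.1.add (continuous_ext p.1.2)⟩
  left_inv := by
    rintro ⟨f, hf⟩
    apply Subtype.ext
    simp
  right_inv := by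
    rintro ⟨⟨a, ha⟩, ⟨z, hz, hz0⟩⟩
    have hev : ev (z + ext a) = a := by
      have h1 : z + ext a = z - (0 - ext a) := by abel
      have h2 : ev (0 : ℝ → ℝ) = 0 := by
        funext k j m
        simp [ev]
      rw [h1, ev_sub, ev_sub, hz0, h2, ev_ext]
      abel
    refine Prod.ext (Subtype.ext ?_) (Subtype.ext ?_)
    · exact hev
    · change (z + ext a) - ext (ev (z + ext a)) = z
      rw [hev]
      abel
  uniformContinuous_toFun := by
    apply UniformContinuous.prodMk
    · apply UniformContinuous.subtype_mk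
      exact uc_ev.comp uniformContinuous_subtype_val
    · apply UniformContinuous.subtype_mk
      exact uniformContinuous_subtype_val.sub
        (uc_ext'.comp (uc_ev.comp uniformContinuous_subtype_val))
  uniformContinuous_invFun := by
    apply UniformContinuous.subtype_mk
    exact (uniformContinuous_subtype_val.comp uniformContinuous_snd).add
      (uc_ext'.comp (uniformContinuous_subtype_val.comp uniformContinuous_fst))

/-- Continuous functions on the new space. -/
abbrev CX : Type := {h : X1 → ℝ // Continuous h}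

/-- The trace on the isolated points. -/
def gOf (h : X1 → ℝ) : W := fun j m => h (pt ⟨j, m⟩) - h (re 0)

/-- The function on the new space with given parts. -/
def hOf (g : W) (f : ℝ → ℝ) : X1 → ℝ := Sum.elim (fun d : D => g d.1 d.2 + f 0) f

lemma hOf_pt (g : W) (f : ℝ → ℝ) (d : D) : hOf g f (pt d) = g d.1 d.2 + f 0 := rfl

lemma hOf_re (g : W) (f : ℝ → ℝ) (r : ℝ) : hOf g f (re r) = f r := rfl

lemma num_eq_cnt (g : W) (ε : ℝ) (j : ℕ) : num {d : D | ε < |g d.1 d.2|} j = cnt (g j) ε := by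
  unfold num cnt
  congr 1

lemma small_iff_GG (g : W) : (∀ ε : ℝ, 0 < ε → Small {d : D | ε < |g d.1 d.2|}) ↔ g ∈ GG := by
  constructor
  · intro h k
    rw [Metric.tendsto_nhds]
    intro ε hε
    filter_upwards [h (ε / 2) (by positivity) k] with j hj
    rw [num_eq_cnt] at hj
    have := N_le (v := g j) (show (0:ℝ) ≤ ε / 2 by positivity) hj
    rw [Real.dist_eq, sub_zero, abs_of_nonneg (N_nonneg _ _)]
    linarith
  · intro h ε hε k
    have := (Metric.tendsto_nhds.mp (h k)) ε hε
    filter_upwards [this] with j hj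
    rw [Real.dist_eq, sub_zero, abs_of_nonneg (N_nonneg _ _)] at hj
    rw [num_eq_cnt]
    exact (N_le_iff hε.le).mp hj.le

lemma gOf_mem {h : X1 → ℝ} (hh : Continuous h) : gOf h ∈ GG := by
  rw [← small_iff_GG]
  exact ((continuous_iff_X1 h).mp hh).2

lemma continuous_hOf {g : W} {f : ℝ → ℝ} (hg : g ∈ GG) (hf : Continuous f) :
    Continuous (hOf g f) := by
  rw [continuous_iff_X1]
  refine ⟨hf, ?_⟩
  intro ε hε
  refine Small.mono ?_ ((small_iff_GG g).mpr hg ε hε)
  intro d hd
  simp only [Set.mem_ofPred_eq, hOf_pt, hOf_re, add_sub_cancel_right] at hd ⊢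
  exact hd

/-- Splitting the functions on the new space. -/
def spaceEquiv : CX ≃ᵤ (GG × CR) where
  toFun h := (⟨gOf h.1, gOf_mem h.2⟩, ⟨fun r => h.1 (re r), h.2.comp continuous_re⟩)
  invFun p := ⟨hOf p.1.1 p.2.1, continuous_hOf p.1.2 p.2.2⟩
  left_inv := by
    rintro ⟨h, hh⟩
    apply Subtype.ext
    funext x
    rcases cases_X1 x with ⟨d, rfl⟩ | ⟨r, rfl⟩
    · change hOf _ _ (pt d) = h (pt d)
      rw [hOf_pt]
      simp [gOf]
    · rfl
  right_inv := by
    rintro ⟨⟨g, hg⟩, ⟨f, hf⟩⟩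
    refine Prod.ext (Subtype.ext ?_) (Subtype.ext ?_)
    · funext j m
      change hOf g f (pt ⟨j, m⟩) - hOf g f (re 0) = g j m
      rw [hOf_pt, hOf_re, add_sub_cancel_right]
    · funext r
      rfl
  uniformContinuous_toFun := by
    apply UniformContinuous.prodMk
    · apply UniformContinuous.subtype_mk
      rw [uniformContinuous_pi]
      intro j
      rw [uniformContinuous_pi]
      intro m
      exact ((Pi.uniformContinuous_proj _ _).comp uniformContinuous_subtype_val).sub
        ((Pi.uniformContinuous_proj _ _).comp uniformContinuous_subtype_val)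
    · apply UniformContinuous.subtype_mk
      rw [uniformContinuous_pi]
      intro r
      exact (Pi.uniformContinuous_proj _ _).comp uniformContinuous_subtype_val
  uniformContinuous_invFun := by
    apply UniformContinuous.subtype_mk
    rw [uniformContinuous_pi]
    intro x
    have hf : ∀ r : ℝ, UniformContinuous (fun p : GG × CR => p.2.1 r) := fun r =>
      (Pi.uniformContinuous_proj _ r).comp
        (uniformContinuous_subtype_val.comp uniformContinuous_snd)
    rcases cases_X1 x with ⟨d, rfl⟩ | ⟨r, rfl⟩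
    · have hg : UniformContinuous (fun p : GG × CR => p.1.1 d.1 d.2) :=
        (Pi.uniformContinuous_proj _ d.2).comp ((Pi.uniformContinuous_proj _ d.1).comp
          (uniformContinuous_subtype_val.comp uniformContinuous_fst))
      exact hg.add (hf 0)
    · exact hf r

/-- The uniform homeomorphism. -/
def mainEquiv : CX ≃ᵤ CR :=
  spaceEquiv.trans
    (((UniformEquiv.refl GG).prodCongr lineEquiv).trans
      ((UniformEquiv.prodAssoc GG AA ZR).symm.trans
        ((teleEquiv.prodCongr (UniformEquiv.refl ZR)).trans lineEquiv.symm)))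

end

end Pool.Agent.Helper854.Usp
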