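import Pool.Agent.Helper854.PartOneD

set_option autoImplicit false

namespace Pool.Agent.Helper854

open Encodable

/-- the code-indexed version of the first tree: `n` is decoded and compared with `B` -/
def T1 (n : ℕ) (β : List Bool) : Bool :=
  ((decode (α := List Bool) n).map (fun ξ => FF ξ (β.take ξ.length))).getD false

theorem primrec_T1 : Primrec₂ T1 := by
  unfold T1
  have hd : Primrec (fun p : ℕ × List Bool => decode (α := List Bool) p.1) :=
    Primrec.decode.comp Primrec.fst
  have hf : Primrec₂ (fun (p : ℕ × List Bool) (ξ : List Bool) => FF ξ (p.2.take ξ.length)) :=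
    primrec_FF.comp Primrec.snd (Primrec.list_take.comp (Primrec.list_length.comp Primrec.snd)
      (Primrec.snd.comp Primrec.fst))
  exact Primrec.option_getD.comp (Primrec.option_map hd hf) (Primrec.const false)

/-- the code-indexed version of a tree -/
def T2 (T : List Bool → Bool) (n : ℕ) (_ : List Bool) : Bool :=
  ((decode (α := List Bool) n).map T).getD false

theorem primrec_T2 {T : List Bool → Bool} (hT : Primrec T) : Primrec₂ (T2 T) := by
  unfold T2
  have hd : Primrec (fun p : ℕ × List Bool => decode (α := List Bool) p.1) :=
    Primrec.decode.comp Primrec.fst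
  have hf : Primrec₂ (fun (_ : ℕ × List Bool) (ξ : List Bool) => T ξ) := hT.comp Primrec.snd
  exact Primrec.option_getD.comp (Primrec.option_map hd hf) (Primrec.const false)

theorem T1_encode (B f : ℕ → Bool) (n : ℕ) :
    T1 (encode (List.ofFn (fun i : Fin n => f i)))
      (seg B (encode (List.ofFn (fun i : Fin n => f i)))) = FF (seg f n) (seg B n) := by
  rw [← seg_eq_ofFn]
  unfold T1
  rw [encodek]
  have h := length_le_encode (seg f n)
  rw [length_seg] at h
  simp only [Option.map_some, Option.getD_some, length_seg]
  rw [take_seg B _ _ h]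

theorem T2_encode (T : List Bool → Bool) (f : ℕ → Bool) (n : ℕ) (β : List Bool) :
    T2 T (encode (List.ofFn (fun i : Fin n => f i))) β = T (seg f n) := by
  rw [← seg_eq_ofFn]
  unfold T2
  rw [encodek]
  simp only [Option.map_some, Option.getD_some]

theorem main_theorem (B : ℕ → Bool) (hB : ¬ Computable B) :
      ∃ T : ℕ → Bool,
        RecursiveIn {fun n => Part.some (if B n then 1 else 0)}
          (fun n => Part.some (if T n then 1 else 0)) ∧
        (∃ f : ℕ → Bool, ∀ n : ℕ,
          T (Encodable.encode (List.ofFn (fun i : Fin n => f i))) = true) ∧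
        ∀ f : ℕ → Bool,
          (∀ n : ℕ, T (Encodable.encode (List.ofFn (fun i : Fin n => f i))) = true) →
            (¬ RecursiveIn {fun n => Part.some (if B n then 1 else 0)}
                (fun n => Part.some (if f n then 1 else 0)) ∧
             ¬ RecursiveIn {fun n => Part.some (if f n then 1 else 0)}
                (fun n => Part.some (if B n then 1 else 0))) := by
  by_cases hcase : ∃ X : ℕ → Bool, (∀ n, FF (seg X n) (seg B n) = true) ∧ ∃ e, Red e X B
  · obtain ⟨X, hX, e, hR⟩ := hcase
    obtain ⟨T, hT, ⟨f, hf⟩, hinc⟩ := case_two hB hX hR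
    refine ⟨fun n => T2 T n (seg B n), recursiveIn_of_primrec (primrec_T2 hT), ⟨f, ?_⟩, ?_⟩
    · intro n
      show T2 T _ _ = true
      rw [T2_encode]; exact hf n
    · intro g hg
      have hg' : ∀ n, T (seg g n) = true := by
        intro n
        have h1 := hg n
        simp only [T2_encode] at h1
        exact h1
      refine ⟨?_, ?_⟩
      · intro hrec
        obtain ⟨i, hi⟩ := exists_red hrec
        exact (hinc g hg' i).2 hi
      · intro hrec
        obtain ⟨i, hi⟩ := exists_red hrec
        exact (hinc g hg' i).1 hi
  · push Not at hcase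
    obtain ⟨f, hf⟩ := FF_path B
    refine ⟨fun n => T1 n (seg B n), recursiveIn_of_primrec primrec_T1, ⟨f, ?_⟩, ?_⟩
    · intro n
      show T1 _ _ = true
      rw [T1_encode]; exact hf n
    · intro g hg
      have hg' : ∀ n, FF (seg g n) (seg B n) = true := by
        intro n
        have h1 := hg n
        simp only [T1_encode] at h1
        exact h1
      refine ⟨?_, ?_⟩
      · intro hrec
        obtain ⟨i, hi⟩ := exists_red hrec
        exact FF_not_red hg' i hi
      · intro hrec
        obtain ⟨i, hi⟩ := exists_red hrec
        exact hcase g hg' i hi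

end Pool.Agent.Helper854
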