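import Mathlib

set_option autoImplicit false

namespace Pool.Agent.Helper854

open Nat.Partrec (Code)
open Encodable

/-- initial segment of `X` of length `n` -/
def seg (X : ℕ → Bool) (n : ℕ) : List Bool := (List.range n).map X

@[simp] theorem length_seg (X : ℕ → Bool) (n : ℕ) : (seg X n).length = n := by
  simp [seg]

@[simp] theorem getElem_seg (X : ℕ → Bool) (n i : ℕ) (h : i < (seg X n).length) :
    (seg X n)[i] = X i := by
  simp [seg]

theorem getElem?_seg (X : ℕ → Bool) (n i : ℕ) (h : i < n) :
    (seg X n)[i]? = some (X i) := by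
  rw [List.getElem?_eq_getElem (by simpa using h)]; simp

@[simp] theorem seg_zero (X : ℕ → Bool) : seg X 0 = [] := by simp [seg]

theorem seg_succ (X : ℕ → Bool) (n : ℕ) : seg X (n+1) = seg X n ++ [X n] := by
  simp [seg, List.range_succ]

theorem take_seg (X : ℕ → Bool) (n m : ℕ) (h : m ≤ n) : (seg X n).take m = seg X m := by
  apply List.ext_getElem
  · simp [h]
  · intro i h1 h2
    simp

theorem seg_prefix_seg (X : ℕ → Bool) {m n : ℕ} (h : m ≤ n) : seg X m <+: seg X n := by
  rw [← take_seg X n m h]; exact List.take_prefix _ _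

theorem seg_eq_ofFn (X : ℕ → Bool) (n : ℕ) : seg X n = List.ofFn (fun i : Fin n => X i) := by
  apply List.ext_getElem
  · simp
  · intro i h1 h2
    simp

/-- `u` is an initial segment of `X` -/
def Pre (u : List Bool) (X : ℕ → Bool) : Prop := seg X u.length = u

theorem pre_seg (X : ℕ → Bool) (n : ℕ) : Pre (seg X n) X := by simp [Pre]

theorem prefix_seg_iff {u : List Bool} {X : ℕ → Bool} {n : ℕ} :
    u <+: seg X n ↔ u.length ≤ n ∧ Pre u X := by
  constructor
  · intro h
    have hl : u.length ≤ n := by simpa using h.length_le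
    refine ⟨hl, ?_⟩
    unfold Pre
    rw [← take_seg X n _ hl]
    exact (List.prefix_iff_eq_take.mp h).symm
  · rintro ⟨hl, h⟩
    rw [← h]; exact seg_prefix_seg X hl

theorem Pre.prefix_of_le {u : List Bool} {X : ℕ → Bool} (h : Pre u X) {n : ℕ}
    (hn : u.length ≤ n) : u <+: seg X n := prefix_seg_iff.mpr ⟨hn, h⟩

theorem Pre.of_prefix {u v : List Bool} {X : ℕ → Bool} (h : Pre v X) (huv : u <+: v) :
    Pre u X := by
  have : u <+: seg X v.length := by rw [h]; exact huv
  exact (prefix_seg_iff.mp this).2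

theorem Pre.prefix_of_length_le {u v : List Bool} {X : ℕ → Bool} (hu : Pre u X) (hv : Pre v X)
    (h : u.length ≤ v.length) : u <+: v := by
  rw [← hv]; exact hu.prefix_of_le h

theorem Pre.getElem {u : List Bool} {X : ℕ → Bool} (h : Pre u X) (i : ℕ) (hi : i < u.length) :
    u[i] = X i := by
  have h2 : u = seg X u.length := h.symm
  have : u[i]? = some (X i) := by
    rw [h2]; exact getElem?_seg X _ _ hi
  rw [List.getElem?_eq_getElem hi] at this
  exact Option.some.inj this

theorem pre_of_getElem {u : List Bool} {X : ℕ → Bool}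
    (h : ∀ i (hi : i < u.length), u[i] = X i) : Pre u X := by
  unfold Pre
  apply List.ext_getElem
  · simp
  · intro i h1 h2
    simp [h i h2]

/-- the raw search -/
def valF (e : ℕ) (τ : List Bool) (n j : ℕ) : Option ℕ :=
  Code.evaln j.unpair.1 (Denumerable.ofNat Code e) (encode (τ.take j.unpair.2, n))

def val (e : ℕ) (τ : List Bool) (n : ℕ) : Option ℕ :=
  ((List.range τ.length).filterMap (valF e τ n)).head?

def out (e : ℕ) (τ : List Bool) : List Bool :=
  (((List.range τ.length).map (val e τ)).takeWhile (fun o => o.isSome)).map (fun o => decide (o = some 1))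

theorem primrec_valF : Primrec (fun p : (ℕ × List Bool × ℕ) × ℕ => valF p.1.1 p.1.2.1 p.1.2.2 p.2) := by
  unfold valF
  have h1 : Primrec (fun p : (ℕ × List Bool × ℕ) × ℕ =>
      ((p.2.unpair.1, Denumerable.ofNat Code p.1.1), encode (p.1.2.1.take p.2.unpair.2, p.1.2.2))) := by
    refine Primrec.pair (Primrec.pair ?_ ?_) ?_
    · exact Primrec.fst.comp (Primrec.unpair.comp Primrec.snd)
    · exact (Primrec.ofNat Code).comp (Primrec.fst.comp Primrec.fst)
    · refine Primrec.encode.comp (Primrec.pair ?_ ?_)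
      · exact Primrec.list_take.comp (Primrec.snd.comp (Primrec.unpair.comp Primrec.snd))
          (Primrec.fst.comp (Primrec.snd.comp Primrec.fst))
      · exact Primrec.snd.comp (Primrec.snd.comp Primrec.fst)
  exact Code.primrec_evaln.comp h1

theorem primrec_val : Primrec (fun p : ℕ × List Bool × ℕ => val p.1 p.2.1 p.2.2) := by
  unfold val
  refine Primrec.list_head?.comp ?_
  refine Primrec.listFilterMap ?_ ?_
  · exact Primrec.list_range.comp (Primrec.list_length.comp (Primrec.fst.comp Primrec.snd))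
  · exact primrec_valF

theorem primrec_out : Primrec₂ out := by
  unfold out
  have h0 : Primrec (fun p : ℕ × List Bool => (List.range p.2.length).map (val p.1 p.2)) := by
    refine Primrec.list_map ?_ ?_
    · exact Primrec.list_range.comp (Primrec.list_length.comp Primrec.snd)
    · have : Primrec (fun q : (ℕ × List Bool) × ℕ => (q.1.1, q.1.2, q.2)) :=
        Primrec.pair (Primrec.fst.comp Primrec.fst)
          (Primrec.pair (Primrec.snd.comp Primrec.fst) Primrec.snd)
      exact (primrec_val.comp this).to₂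
  have h1 : Primrec (fun p : ℕ × List Bool =>
      ((List.range p.2.length).map (val p.1 p.2)).takeWhile (fun o => o.isSome)) :=
    (Primrec.list_takeWhile (p := fun o : Option ℕ => o.isSome) Primrec.option_isSome).comp h0
  refine Primrec.list_map h1 ?_
  exact (Primrec.eq.comp (Primrec.snd (α := ℕ × List Bool) (β := Option ℕ)) (Primrec.const (some 1))).decide.to₂


theorem head?_eq_of_prefix {α : Type*} {l l' : List α} (h : l <+: l') {a : α}
    (ha : l.head? = some a) : l'.head? = some a := by
  obtain ⟨t, rfl⟩ := h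
  cases l with
  | nil => simp at ha
  | cons x xs => simpa using ha

theorem val_mono {e : ℕ} {τ τ' : List Bool} (h : τ <+: τ') {n v : ℕ}
    (hv : val e τ n = some v) : val e τ' n = some v := by
  unfold val at *
  refine head?_eq_of_prefix ?_ hv
  have hl : τ.length ≤ τ'.length := h.length_le
  obtain ⟨t, rfl⟩ := h
  have h1 : (List.range (τ ++ t).length) = List.range τ.length ++
      (List.range t.length).map (τ.length + ·) := by
    rw [List.length_append, List.range_add]
  rw [h1, List.filterMap_append]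
  have h2 : (List.range τ.length).filterMap (valF e (τ ++ t) n) =
      (List.range τ.length).filterMap (valF e τ n) := by
    apply List.filterMap_congr
    intro j hj
    have hj' : j < τ.length := List.mem_range.mp hj
    unfold valF
    have : (τ ++ t).take j.unpair.2 = τ.take j.unpair.2 := by
      rw [List.take_append_of_le_length]
      exact (Nat.unpair_right_le j).trans hj'.le
    rw [this]
  rw [h2]
  exact List.prefix_append _ _

theorem le_length_takeWhile {α : Type*} (p : α → Bool) (l : List α) (m : ℕ) :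
    m ≤ (l.takeWhile p).length ↔ m ≤ l.length ∧ ∀ i (h : i < l.length), i < m → p l[i] = true := by
  induction l generalizing m with
  | nil => simp
  | cons a l ih =>
    by_cases ha : p a = true
    · rw [List.takeWhile_cons_of_pos ha]
      cases m with
      | zero => simp
      | succ m =>
        simp only [List.length_cons, Nat.add_le_add_iff_right]
        rw [ih m]
        constructor
        · rintro ⟨h1, h2⟩
          refine ⟨h1, ?_⟩
          intro i hi him
          cases i with
          | zero => simpa using ha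
          | succ i => simpa using h2 i (by simpa using hi) (by omega)
        · rintro ⟨h1, h2⟩
          refine ⟨h1, ?_⟩
          intro i hi him
          exact h2 (i+1) (by simpa using hi) (by omega)
    · rw [List.takeWhile_cons_of_neg ha]
      cases m with
      | zero => simp
      | succ m =>
        simp only [List.length_nil, Nat.le_zero, Nat.add_eq_zero_iff, one_ne_zero, and_false,
          List.length_cons, Nat.add_le_add_iff_right, false_iff, not_and, not_forall]
        intro _
        exact ⟨0, by simp, by simp, by simpa using ha⟩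

theorem getElem_takeWhile' {α : Type*} (p : α → Bool) (l : List α) (i : ℕ)
    (h : i < (l.takeWhile p).length) :
    (l.takeWhile p)[i] = l[i]'(h.trans_le (List.takeWhile_prefix p).length_le) := by
  have := (List.takeWhile_prefix (l := l) p)
  exact this.getElem h

theorem le_length_out {e : ℕ} {τ : List Bool} {m : ℕ} :
    m ≤ (out e τ).length ↔ m ≤ τ.length ∧ ∀ i < m, (val e τ i).isSome = true := by
  unfold out
  rw [List.length_map, le_length_takeWhile]
  simp only [List.length_map, List.length_range, List.getElem_map, List.getElem_range]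
  constructor
  · rintro ⟨h1, h2⟩
    exact ⟨h1, fun i hi => h2 i (by omega) hi⟩
  · rintro ⟨h1, h2⟩
    exact ⟨h1, fun i _ hi => h2 i hi⟩

theorem length_out_le (e : ℕ) (τ : List Bool) : (out e τ).length ≤ τ.length :=
  (le_length_out.mp le_rfl).1

theorem getElem_out (e : ℕ) (τ : List Bool) (i : ℕ) (h : i < (out e τ).length) :
    (out e τ)[i] = decide (val e τ i = some 1) := by
  simp only [out, List.getElem_map, getElem_takeWhile', List.getElem_range]

theorem out_mono {e : ℕ} {τ τ' : List Bool} (h : τ <+: τ') : out e τ <+: out e τ' := by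
  have hle : (out e τ).length ≤ (out e τ').length := by
    rw [le_length_out]
    obtain ⟨h1, h2⟩ := le_length_out.mp (le_refl (out e τ).length)
    refine ⟨h1.trans h.length_le, fun i hi => ?_⟩
    obtain ⟨v, hv⟩ := Option.isSome_iff_exists.mp (h2 i hi)
    rw [val_mono h hv]; rfl
  rw [List.prefix_iff_getElem]
  refine ⟨hle, fun i hi => ?_⟩
  rw [getElem_out, getElem_out]
  obtain ⟨h1, h2⟩ := le_length_out.mp (le_refl (out e τ).length)
  obtain ⟨v, hv⟩ := Option.isSome_iff_exists.mp (h2 i hi)
  rw [val_mono h hv, hv]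

/-- `Y` is computed from `X` through index `e` -/
def Red (e : ℕ) (X Y : ℕ → Bool) : Prop := ∀ n, ∃ k, seg Y n <+: out e (seg X k)

theorem Red.pre_out {e : ℕ} {X Y : ℕ → Bool} (h : Red e X Y) {τ : List Bool} (hτ : Pre τ X) :
    Pre (out e τ) Y := by
  obtain ⟨k, hk⟩ := h (out e τ).length
  have h1 : out e τ <+: out e (seg X (max k τ.length)) :=
    out_mono (hτ.prefix_of_le (le_max_right _ _))
  have h2 : seg Y (out e τ).length <+: out e (seg X (max k τ.length)) :=
    hk.trans (out_mono (seg_prefix_seg X (le_max_left _ _)))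
  exact (List.prefix_of_prefix_length_le h2 h1 (by simp)).eq_of_length (by simp)

theorem Red.exists_length {e : ℕ} {X Y : ℕ → Bool} (h : Red e X Y) (n : ℕ) :
    ∃ k₀, ∀ k ≥ k₀, n ≤ (out e (seg X k)).length := by
  obtain ⟨k₀, hk⟩ := h n
  refine ⟨k₀, fun k hk' => ?_⟩
  have := (hk.trans (out_mono (seg_prefix_seg X hk'))).length_le
  simpa using this


/-- the oracle attached to a set -/
def orc (X : ℕ → Bool) : Set (ℕ →. ℕ) := {fun n => Part.some (if X n then 1 else 0)}

/-- `g` is represented by a partial recursive function on initial segments of `X` -/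
def Rep (X : ℕ → Bool) (g : ℕ →. ℕ) : Prop :=
  ∃ F : List Bool × ℕ →. ℕ, Partrec F ∧ (∀ k n m, m ∈ F (seg X k, n) → m ∈ g n) ∧
    (∀ n m, m ∈ g n → ∃ k₀, ∀ k ≥ k₀, m ∈ F (seg X k, n))

theorem rep_of_partrec {X : ℕ → Bool} {g : ℕ →. ℕ} (hg : Nat.Partrec g) : Rep X g := by
  refine ⟨fun p => g p.2, ?_, fun k n m h => h, fun n m h => ⟨0, fun k _ => h⟩⟩
  exact (Partrec.nat_iff.mpr hg).comp Computable.snd

theorem rep_oracle {X : ℕ → Bool} : Rep X (fun n => Part.some (if X n then 1 else 0)) := by
  refine ⟨fun p => ((p.1[p.2]?).map (fun b : Bool => if b then 1 else 0) : Option ℕ), ?_, ?_, ?_⟩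
  · apply Computable.ofOption
    apply Computable.option_map
    · exact (Primrec.list_getElem?.comp Primrec.fst Primrec.snd).to_comp
    · exact ((Primrec.dom_bool (fun b : Bool => if b then 1 else 0)).comp
        Primrec.snd).to_comp.to₂
  · intro k n m h
    simp only [Part.mem_ofOption, Option.mem_def, Option.map_eq_some_iff] at h
    obtain ⟨b, hb, hm⟩ := h
    by_cases hk : n < k
    · rw [getElem?_seg X k n hk] at hb
      cases hb
      simp [← hm]
    · rw [List.getElem?_eq_none (by simpa using hk)] at hb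
      cases hb
  · intro n m h
    refine ⟨n+1, fun k hk => ?_⟩
    simp only [Part.mem_some_iff] at h
    simp only [Part.mem_ofOption, Option.mem_def, Option.map_eq_some_iff]
    exact ⟨X n, getElem?_seg X k n (by omega), h.symm⟩

theorem rep_pair {X : ℕ → Bool} {f h : ℕ →. ℕ} (hf : Rep X f) (hh : Rep X h) :
    Rep X (fun n => (Nat.pair <$> f n <*> h n)) := by
  obtain ⟨F, hF, hF1, hF2⟩ := hf
  obtain ⟨H, hH, hH1, hH2⟩ := hh
  refine ⟨fun p => (F p).bind fun a => (H p).map fun b => Nat.pair a b, ?_, ?_, ?_⟩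
  · refine Partrec.bind hF ?_
    refine Partrec.map (hH.comp Computable.fst) ?_
    exact (Primrec₂.natPair.comp (Primrec.snd.comp Primrec.fst) Primrec.snd).to_comp.to₂
  · intro k n m hm
    simp only [Part.mem_bind_iff, Part.mem_map_iff] at hm
    obtain ⟨a, ha, b, hb, rfl⟩ := hm
    simp only [Seq.seq, Part.mem_bind_iff, Part.map_eq_map, Part.mem_map_iff]
    exact ⟨Nat.pair a, ⟨a, hF1 _ _ _ ha, rfl⟩, b, hH1 _ _ _ hb, rfl⟩
  · intro n m hm
    simp only [Seq.seq, Part.mem_bind_iff, Part.map_eq_map, Part.mem_map_iff] at hm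
    obtain ⟨_, ⟨a, ha, rfl⟩, b, hb, rfl⟩ := hm
    obtain ⟨k1, hk1⟩ := hF2 _ _ ha
    obtain ⟨k2, hk2⟩ := hH2 _ _ hb
    refine ⟨max k1 k2, fun k hk => ?_⟩
    simp only [Part.mem_bind_iff, Part.mem_map_iff]
    exact ⟨a, hk1 k (le_trans (le_max_left _ _) hk), b, hk2 k (le_trans (le_max_right _ _) hk), rfl⟩

theorem rep_comp {X : ℕ → Bool} {f h : ℕ →. ℕ} (hf : Rep X f) (hh : Rep X h) :
    Rep X (fun n => h n >>= f) := by
  obtain ⟨F, hF, hF1, hF2⟩ := hf
  obtain ⟨H, hH, hH1, hH2⟩ := hh
  refine ⟨fun p => (H p).bind fun a => F (p.1, a), ?_, ?_, ?_⟩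
  · refine Partrec.bind hH ?_
    exact hF.comp (Computable.pair (Computable.fst.comp Computable.fst) Computable.snd)
  · intro k n m hm
    simp only [Part.mem_bind_iff] at hm
    obtain ⟨a, ha, hm⟩ := hm
    exact Part.mem_bind_iff.mpr ⟨a, hH1 _ _ _ ha, hF1 _ _ _ hm⟩
  · intro n m hm
    obtain ⟨a, ha, hm⟩ := Part.mem_bind_iff.mp hm
    obtain ⟨k1, hk1⟩ := hH2 _ _ ha
    obtain ⟨k2, hk2⟩ := hF2 _ _ hm
    refine ⟨max k1 k2, fun k hk => ?_⟩
    simp only [Part.mem_bind_iff]
    exact ⟨a, hk1 k (le_trans (le_max_left _ _) hk), hk2 k (le_trans (le_max_right _ _) hk)⟩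

theorem rep_prec {X : ℕ → Bool} {f h : ℕ →. ℕ} (hf : Rep X f) (hh : Rep X h) :
    Rep X (fun p =>
        let (a, n) := Nat.unpair p
        n.rec (f a) fun y IH => do
          let i ← IH
          h (Nat.pair a (Nat.pair y i))) := by
  obtain ⟨F, hF, hF1, hF2⟩ := hf
  obtain ⟨H, hH, hH1, hH2⟩ := hh
  refine ⟨fun p => Nat.rec (F (p.1, p.2.unpair.1)) (fun y IH => IH.bind fun i =>
    H (p.1, Nat.pair p.2.unpair.1 (Nat.pair y i))) p.2.unpair.2, ?_, ?_, ?_⟩
  · refine Partrec.nat_rec (f := fun p : List Bool × ℕ => p.2.unpair.2)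
      (g := fun p => F (p.1, p.2.unpair.1))
      (h := fun p (q : ℕ × ℕ) => H (p.1, Nat.pair p.2.unpair.1 (Nat.pair q.1 q.2))) ?_ ?_ ?_
    · exact (Primrec.snd.comp (Primrec.unpair.comp Primrec.snd)).to_comp
    · exact hF.comp (Primrec.pair Primrec.fst
        (Primrec.fst.comp (Primrec.unpair.comp Primrec.snd))).to_comp
    · refine hH.comp (Primrec.pair (Primrec.fst.comp Primrec.fst)
        (Primrec₂.natPair.comp (Primrec.fst.comp (Primrec.unpair.comp
          (Primrec.snd.comp Primrec.fst))) (Primrec₂.natPair.comp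
            (Primrec.fst.comp Primrec.snd) (Primrec.snd.comp Primrec.snd)))).to_comp
  · intro k p m hm
    simp only at hm ⊢
    generalize p.unpair.2 = n at hm ⊢
    induction n generalizing m with
    | zero => exact hF1 _ _ _ hm
    | succ n ih =>
      simp only [Part.mem_bind_iff, Part.bind_eq_bind] at hm ⊢
      obtain ⟨i, hi, hm⟩ := hm
      exact ⟨i, ih i hi, hH1 _ _ _ hm⟩
  · intro p m hm
    simp only at hm ⊢
    generalize p.unpair.2 = n at hm ⊢
    induction n generalizing m with
    | zero => exact hF2 _ _ hm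
    | succ n ih =>
      simp only [Part.mem_bind_iff, Part.bind_eq_bind] at hm ⊢
      obtain ⟨i, hi, hm⟩ := hm
      obtain ⟨k1, hk1⟩ := ih i hi
      obtain ⟨k2, hk2⟩ := hH2 _ _ hm
      exact ⟨max k1 k2, fun k hk => ⟨i, hk1 k (le_trans (le_max_left _ _) hk),
        hk2 k (le_trans (le_max_right _ _) hk)⟩⟩

theorem rep_rfind {X : ℕ → Bool} {f : ℕ →. ℕ} (hf : Rep X f) :
    Rep X (fun a => Nat.rfind fun n => (fun m => m = 0) <$> f (Nat.pair a n)) := by
  obtain ⟨F, hF, hF1, hF2⟩ := hf
  refine ⟨fun p => Nat.rfind fun n => (F (p.1, Nat.pair p.2 n)).map (fun m => decide (m = 0)),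
    ?_, ?_, ?_⟩
  · refine Partrec.rfind ?_
    refine Partrec.map (f := fun q : (List Bool × ℕ) × ℕ => F (q.1.1, Nat.pair q.1.2 q.2)) ?_ ?_
    · exact hF.comp (Primrec.pair (Primrec.fst.comp Primrec.fst)
        (Primrec₂.natPair.comp (Primrec.snd.comp Primrec.fst) Primrec.snd)).to_comp
    · exact (Primrec.eq.decide.comp Primrec.snd (Primrec.const 0)).to_comp.to₂
  · intro k n m hm
    obtain ⟨h1, h2⟩ := Nat.mem_rfind.mp hm
    refine Nat.mem_rfind.mpr ⟨?_, ?_⟩
    · obtain ⟨a, ha, ha0⟩ := (Part.mem_map_iff _).mp h1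
      exact (Part.mem_map_iff _).mpr ⟨a, hF1 _ _ _ ha, ha0⟩
    · intro j hj
      obtain ⟨a, ha, ha0⟩ := (Part.mem_map_iff _).mp (h2 hj)
      exact (Part.mem_map_iff _).mpr ⟨a, hF1 _ _ _ ha, ha0⟩
  · intro n m hm
    obtain ⟨h1, h2⟩ := Nat.mem_rfind.mp hm
    obtain ⟨a0, h1', ha00⟩ := (Part.mem_map_iff _).mp h1
    obtain ⟨k1, hk1⟩ := hF2 _ _ h1'
    clear h1' 
    have h3 : ∃ k2, ∀ j < m, ∀ k ≥ k2, ∃ a, a ∈ F (seg X k, Nat.pair n j) ∧
        decide (a = 0) = false := by
      clear hk1 hm h1
      revert h2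
      intro h2
      induction m with
      | zero => exact ⟨0, fun j hj => absurd hj (Nat.not_lt_zero _)⟩
      | succ m ih =>
        obtain ⟨k2, hk2⟩ := ih (fun {j} hj => h2 (Nat.lt_succ_of_lt hj))
        obtain ⟨a, ha, ha0⟩ := (Part.mem_map_iff _).mp (h2 (Nat.lt_succ_self m))
        obtain ⟨k3, hk3⟩ := hF2 _ _ ha
        refine ⟨max k2 k3, fun j hj k hk => ?_⟩
        rcases Nat.lt_succ_iff_lt_or_eq.mp hj with h | h
        · exact hk2 j h k (le_trans (le_max_left _ _) hk)
        · subst h
          exact ⟨a, hk3 k (le_trans (le_max_right _ _) hk), ha0⟩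
    obtain ⟨k2, hk2⟩ := h3
    refine ⟨max k1 k2, fun k hk => ?_⟩
    refine Nat.mem_rfind.mpr ⟨?_, ?_⟩
    · exact (Part.mem_map_iff _).mpr ⟨a0, hk1 k (le_trans (le_max_left _ _) hk), ha00⟩
    · intro j hj
      exact (Part.mem_map_iff _).mpr (hk2 j hj k (le_trans (le_max_right _ _) hk))

theorem rep_of_recursiveIn {X : ℕ → Bool} {g : ℕ →. ℕ} (h : Nat.RecursiveIn (orc X) g) :
    Rep X g := by
  induction h with
  | zero => exact rep_of_partrec Nat.Partrec.zero
  | succ => exact rep_of_partrec Nat.Partrec.succ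
  | left => exact rep_of_partrec Nat.Partrec.left
  | right => exact rep_of_partrec Nat.Partrec.right
  | oracle g hg =>
    have hg' : g = (fun n => Part.some (if X n then 1 else 0)) := hg
    rw [hg']
    exact rep_oracle
  | pair _ _ ih1 ih2 => exact rep_pair ih1 ih2
  | comp _ _ ih1 ih2 => exact rep_comp ih1 ih2
  | prec _ _ ih1 ih2 => exact rep_prec ih1 ih2
  | rfind _ ih => exact rep_rfind ih

theorem exists_red {X Y : ℕ → Bool}
    (h : RecursiveIn (orc X) (fun n => Part.some (if Y n then 1 else 0))) :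
    ∃ e, Red e X Y := by
  replace h := RecursiveIn.iff_nat.mp h
  obtain ⟨F, hF, hF1, hF2⟩ := rep_of_recursiveIn h
  obtain ⟨c, hc⟩ := Code.exists_code.mp hF
  have key : ∀ (τ : List Bool) (n m : ℕ), m ∈ Code.eval c (encode (τ, n)) ↔ m ∈ F (τ, n) := by
    intro τ n m
    rw [hc]
    simp
  have hsound : ∀ τ n v, Pre τ X → val (encode c) τ n = some v →
      v = (if Y n then 1 else 0) := by
    intro τ n v hτ hv
    unfold val at hv
    have hv' : v ∈ (List.range τ.length).filterMap (valF (encode c) τ n) :=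
      List.mem_of_mem_head? hv
    rw [List.mem_filterMap] at hv'
    obtain ⟨j, _, hj⟩ := hv'
    unfold valF at hj
    have h1 : v ∈ Code.eval c (encode (τ.take j.unpair.2, n)) := by
      have : Denumerable.ofNat Code (encode c) = c := Denumerable.ofNat_encode c
      rw [this] at hj
      exact Code.evaln_sound hj
    rw [key] at h1
    have h2 : τ.take j.unpair.2 = seg X (τ.take j.unpair.2).length :=
      (hτ.of_prefix (List.take_prefix _ _)).symm
    rw [h2] at h1
    have := hF1 _ _ _ h1
    simpa using this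
  have hcomp : ∀ n, ∃ k₀, ∀ k ≥ k₀, (val (encode c) (seg X k) n).isSome = true := by
    intro n
    obtain ⟨k0, hk0⟩ := hF2 n (if Y n then 1 else 0) (by simp)
    have h1 := (key _ _ _).mpr (hk0 k0 le_rfl)
    obtain ⟨s, hs⟩ := Code.evaln_complete.mp h1
    refine ⟨Nat.pair s k0 + k0 + 1, fun k hk => ?_⟩
    unfold val
    have hm : (if Y n then 1 else 0) ∈
        (List.range (seg X k).length).filterMap (valF (encode c) (seg X k) n) := by
      rw [List.mem_filterMap]
      refine ⟨Nat.pair s k0, ?_, ?_⟩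
      · rw [List.mem_range, length_seg]; omega
      · unfold valF
        rw [Nat.unpair_pair, Denumerable.ofNat_encode, take_seg X k k0 (by omega)]
        exact hs
    cases hh : (List.range (seg X k).length).filterMap (valF (encode c) (seg X k) n) with
    | nil => rw [hh] at hm; simp at hm
    | cons a l => simp
  refine ⟨encode c, fun n => ?_⟩
  have h3 : ∃ k₀, ∀ i < n, ∀ k ≥ k₀, (val (encode c) (seg X k) i).isSome = true := by
    induction n with
    | zero => exact ⟨0, fun j hj => absurd hj (Nat.not_lt_zero _)⟩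
    | succ n ih =>
      obtain ⟨k1, hk1⟩ := ih
      obtain ⟨k2, hk2⟩ := hcomp n
      refine ⟨max k1 k2, fun j hj k hk => ?_⟩
      rcases Nat.lt_succ_iff_lt_or_eq.mp hj with h | h
      · exact hk1 j h k (le_trans (le_max_left _ _) hk)
      · subst h
        exact hk2 k (le_trans (le_max_right _ _) hk)
  obtain ⟨k₀, hk₀⟩ := h3
  refine ⟨max k₀ n, ?_⟩
  have hlen : n ≤ (out (encode c) (seg X (max k₀ n))).length := by
    rw [le_length_out]
    exact ⟨by simp, fun i hi => hk₀ i hi _ (le_max_left _ _)⟩
  rw [List.prefix_iff_getElem]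
  refine ⟨by simpa using hlen, fun i hi => ?_⟩
  have hi' : i < n := by simpa using hi
  rw [getElem_seg, getElem_out]
  obtain ⟨v, hv⟩ := Option.isSome_iff_exists.mp (hk₀ i hi' _ (le_max_left k₀ n))
  rw [hv, hsound _ _ _ (pre_seg _ _) hv]
  cases Y i <;> simp

theorem ri_some {O : Set (ℕ →. ℕ)} {f g : ℕ → ℕ}
    (hf : Nat.RecursiveIn O (fun n => Part.some (f n))) (hg : Nat.RecursiveIn O (fun n => Part.some (g n))) :
    Nat.RecursiveIn O (fun n => Part.some (f (g n))) := by
  have := Nat.RecursiveIn.comp hf hg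
  refine this.of_eq (fun n => ?_)
  exact Part.bind_some _ _

theorem ri_pair {O : Set (ℕ →. ℕ)} {f g : ℕ → ℕ}
    (hf : Nat.RecursiveIn O (fun n => Part.some (f n))) (hg : Nat.RecursiveIn O (fun n => Part.some (g n))) :
    Nat.RecursiveIn O (fun n => Part.some (Nat.pair (f n) (g n))) := by
  have := Nat.RecursiveIn.pair hf hg
  refine this.of_eq (fun n => ?_)
  simp [Seq.seq]

theorem ri_prim {O : Set (ℕ →. ℕ)} {f : ℕ → ℕ} (hf : Primrec f) :
    Nat.RecursiveIn O (fun n => Part.some (f n)) :=
  Nat.Primrec.recursiveIn (Primrec.nat_iff.mp hf)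

theorem ri_rec {O : Set (ℕ →. ℕ)} {h : ℕ → ℕ → ℕ} (a : ℕ)
    (hh : Nat.RecursiveIn O (fun n => Part.some (h n.unpair.1 n.unpair.2))) :
    Nat.RecursiveIn O (fun n => Part.some (Nat.rec (motive := fun _ => ℕ) a (fun y ih => h y ih) n)) := by
  have h1 : Nat.RecursiveIn O (fun n => Part.some (h (n.unpair.2).unpair.1 (n.unpair.2).unpair.2)) :=
    ri_some hh (ri_prim (Primrec.snd.comp Primrec.unpair))
  have h2 := Nat.RecursiveIn.prec (ri_prim (O := O) (Primrec.const a)) h1
  have h3 : Nat.RecursiveIn O (fun n => Part.some (Nat.rec (motive := fun _ => ℕ) a (fun y ih => h y ih) (n.unpair.2))) := by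
    refine h2.of_eq (fun p => ?_)
    simp only
    generalize p.unpair.2 = n
    induction n with
    | zero => rfl
    | succ n ih =>
      simp only at ih ⊢
      rw [ih]
      simp
  have h4 := ri_some h3 (ri_prim (f := fun n => Nat.pair 0 n) (Primrec₂.natPair.comp (Primrec.const 0) Primrec.id))
  simpa using h4

theorem ri_seg (B : ℕ → Bool) : Nat.RecursiveIn (orc B) (fun n => Part.some (encode (seg B n))) := by
  let C : ℕ → ℕ → ℕ := fun i b => encode (((decode i : Option (List Bool)).getD []) ++ [decide (b = 1)])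
  have hC : Primrec₂ C := by
    refine Primrec.encode.comp ?_
    refine Primrec.list_concat.comp ?_ ?_
    · exact Primrec.option_getD.comp (Primrec.decode.comp Primrec.fst) (Primrec.const [])
    · exact (Primrec.eq.comp Primrec.snd (Primrec.const 1)).decide
  have horc : Nat.RecursiveIn (orc B) (fun n => Part.some (if B n then 1 else 0)) :=
    Nat.RecursiveIn.oracle _ rfl
  have h1 : Nat.RecursiveIn (orc B) (fun n => Part.some
      (C n.unpair.2 (if B n.unpair.1 then 1 else 0))) := by
    have h2 : Nat.RecursiveIn (orc B) (fun n => Part.some (if B n.unpair.1 then 1 else 0)) :=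
      ri_some (f := fun n => if B n then 1 else 0) horc (ri_prim (Primrec.fst.comp Primrec.unpair))
    have h3 := ri_pair (ri_prim (O := orc B) (Primrec.snd.comp Primrec.unpair)) h2
    have h4 : Nat.RecursiveIn (orc B) (fun n => Part.some (C n.unpair.1 n.unpair.2)) :=
      ri_prim (hC.comp (Primrec.fst.comp Primrec.unpair) (Primrec.snd.comp Primrec.unpair))
    have h5 := ri_some (f := fun n => C n.unpair.1 n.unpair.2) h4 h3
    simpa using h5
  have h2 := ri_rec (h := fun y i => C i (if B y then 1 else 0)) (encode ([] : List Bool)) h1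
  refine h2.of_eq (fun n => ?_)
  congr 1
  induction n with
  | zero => simp
  | succ n ih =>
    simp only at ih ⊢
    rw [ih, seg_succ]
    simp only [C, encodek, Option.getD_some]
    cases B n <;> simp

theorem recursiveIn_of_primrec {B : ℕ → Bool} {F : ℕ → List Bool → Bool} (hF : Primrec₂ F) :
    RecursiveIn (orc B) (fun n => Part.some (if F n (seg B n) then 1 else 0)) := by
  refine RecursiveIn.iff_nat.mpr ?_
  let D : ℕ → ℕ → ℕ := fun n i => if F n ((decode i : Option (List Bool)).getD []) then 1 else 0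
  have hD : Primrec₂ D := by
    have h1 : Primrec (fun p : ℕ × ℕ => F p.1 ((decode p.2 : Option (List Bool)).getD [])) :=
      hF.comp Primrec.fst (Primrec.option_getD.comp (Primrec.decode.comp Primrec.snd) (Primrec.const []))
    exact (Primrec.dom_bool (fun b : Bool => if b then 1 else 0)).comp h1
  have h3 := ri_pair (ri_prim (O := orc B) Primrec.id) (ri_seg B)
  have h4 : Nat.RecursiveIn (orc B) (fun n => Part.some (D n.unpair.1 n.unpair.2)) :=
      ri_prim (hD.comp (Primrec.fst.comp Primrec.unpair) (Primrec.snd.comp Primrec.unpair))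
  have h5 := ri_some (f := fun n => D n.unpair.1 n.unpair.2) h4 h3
  refine h5.of_eq (fun n => ?_)
  simp [D]

end Pool.Agent.Helper854
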