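import Pool.Agent.Helper854.PartTwoB

set_option autoImplicit false

namespace Pool.Agent.Helper854

theorem prim_forall_lt {α : Type*} [Primcodable α] {R : ℕ → α → Prop} (hR : PrimrecRel R)
    {f : α → ℕ} (hf : Primrec f) : PrimrecPred (fun a => ∀ x < f a, R x a) :=
  ((PrimrecRel.forall_mem_list hR).comp (Primrec.list_range.comp hf) Primrec.id).of_eq
    (fun a => by simp)

theorem prim_exists_lt {α : Type*} [Primcodable α] {R : ℕ → α → Prop} (hR : PrimrecRel R)
    {f : α → ℕ} (hf : Primrec f) : PrimrecPred (fun a => ∃ x < f a, R x a) :=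
  ((PrimrecRel.exists_mem_list hR).comp (Primrec.list_range.comp hf) Primrec.id).of_eq
    (fun a => by simp)

section thms

variable {G : ℕ → List Bool → Bool} {H : ℕ → ℕ → List Bool → Bool} {L : ℕ → List Bool → ℕ}

theorem primrec_ent : Primrec₂ ent := Primrec.list_getD ([] : List Bool)

theorem primrec_unhit (hH : Primrec (fun p : ℕ × ℕ × List Bool => H p.1 p.2.1 p.2.2))
    (hL : Primrec₂ L) : Primrec₂ (unhit H L) := by
  have hR : PrimrecRel (fun (j : ℕ) (y : ℕ × Node) =>
      H y.1 j (y.2.1.take (L j (ent y.2.2 j))) = false) := by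
    have h1 : Primrec (fun q : ℕ × (ℕ × Node) => ent q.2.2.2 q.1) :=
      primrec_ent.comp (Primrec.snd.comp (Primrec.snd.comp Primrec.snd)) Primrec.fst
    have h2 : Primrec (fun q : ℕ × (ℕ × Node) => q.2.2.1.take (L q.1 (ent q.2.2.2 q.1))) :=
      Primrec.list_take.comp (hL.comp Primrec.fst h1)
        (Primrec.fst.comp (Primrec.snd.comp Primrec.snd))
    have h3 : Primrec (fun q : ℕ × (ℕ × Node) =>
        H q.2.1 q.1 (q.2.2.1.take (L q.1 (ent q.2.2.2 q.1)))) :=
      hH.comp (Primrec.pair (Primrec.fst.comp Primrec.snd) (Primrec.pair Primrec.fst h2))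
    exact Primrec.eq.comp h3 (Primrec.const false)
  have h5 : PrimrecPred (fun y : ℕ × Node => ∀ j < y.2.2.length - 1,
      H y.1 j (y.2.1.take (L j (ent y.2.2 j))) = false) :=
    prim_forall_lt hR (Primrec.nat_sub.comp (Primrec.list_length.comp (Primrec.snd.comp Primrec.snd))
      (Primrec.const 1))
  exact h5.decide

theorem primrec_wit (hG : Primrec₂ G)
    (hH : Primrec (fun p : ℕ × ℕ × List Bool => H p.1 p.2.1 p.2.2))
    (hL : Primrec₂ L) :
    Primrec (fun p : (ℕ × List Node) × Chain => wit G H L p.1.1 p.1.2 p.2) := by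
  unfold wit
  have hlen : Primrec (fun p : (ℕ × List Node) × Chain => p.2.length - 1) :=
    Primrec.nat_sub.comp (Primrec.list_length.comp Primrec.snd) (Primrec.const 1)
  have hent : Primrec (fun p : (ℕ × List Node) × Chain => ent p.2 (p.2.length - 1)) :=
    primrec_ent.comp Primrec.snd hlen
  have hout : Primrec (fun p : (ℕ × List Node) × Chain =>
      out (p.2.length - 1) (ent p.2 (p.2.length - 1))) := primrec_out.comp hlen hent
  have hg : Primrec (fun p : (ℕ × List Node) × Chain =>
      G p.1.1 (out (p.2.length - 1) (ent p.2 (p.2.length - 1)))) :=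
    hG.comp (Primrec.fst.comp Primrec.fst) hout
  refine Primrec.ite (Primrec.eq.comp hg (Primrec.const true)) ?_ (Primrec.const none)
  refine Primrec.list_head?.comp ?_
  refine Primrec.listFilterMap (Primrec.snd.comp Primrec.fst) ?_
  have hA1 : PrimrecPred (fun q : ((ℕ × List Node) × Chain) × Node => unhit H L q.1.1.1 q.2 = true) :=
    Primrec.eq.comp ((primrec_unhit hH hL).comp (Primrec.fst.comp (Primrec.fst.comp Primrec.fst))
      Primrec.snd) (Primrec.const true)
  have hA2 : PrimrecPred (fun q : ((ℕ × List Node) × Chain) × Node =>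
      q.2.2.take q.1.2.length = q.1.2) :=
    Primrec.eq.comp (Primrec.list_take.comp (Primrec.list_length.comp (Primrec.snd.comp Primrec.fst))
      (Primrec.snd.comp Primrec.snd)) (Primrec.snd.comp Primrec.fst)
  have hA3 : PrimrecPred (fun q : ((ℕ × List Node) × Chain) × Node =>
      out (q.1.2.length - 1) q.2.1 ≠ out (q.1.2.length - 1) (ent q.1.2 (q.1.2.length - 1))) := by
    refine PrimrecPred.not (Primrec.eq.comp ?_ (hout.comp Primrec.fst))
    exact primrec_out.comp (hlen.comp Primrec.fst) (Primrec.fst.comp Primrec.snd)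
  exact Primrec.ite (hA1.and (hA2.and hA3))
    (Primrec.option_some.comp (Primrec.fst.comp Primrec.snd)) (Primrec.const none)

theorem primrec_act (hG : Primrec₂ G)
    (hH : Primrec (fun p : ℕ × ℕ × List Bool => H p.1 p.2.1 p.2.2))
    (hL : Primrec₂ L) :
    Primrec (fun p : (ℕ × List Node) × Chain => act G H L p.1.1 p.1.2 p.2) := by
  unfold act
  refine Primrec.list_head?.comp ?_
  refine Primrec.listFilterMap (Primrec.list_range.comp (Primrec.list_length.comp Primrec.snd)) ?_
  have h1 : Primrec (fun q : ((ℕ × List Node) × Chain) × ℕ =>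
      wit G H L q.1.1.1 q.1.1.2 (q.1.2.take (q.2+1))) :=
    (primrec_wit hG hH hL).comp (Primrec.pair (Primrec.fst.comp Primrec.fst)
      (Primrec.list_take.comp (Primrec.succ.comp Primrec.snd) (Primrec.snd.comp Primrec.fst)))
  exact Primrec.option_map h1 (Primrec.pair (Primrec.snd.comp Primrec.fst) Primrec.snd).to₂

theorem primrec_newc (hG : Primrec₂ G)
    (hH : Primrec (fun p : ℕ × ℕ × List Bool => H p.1 p.2.1 p.2.2))
    (hL : Primrec₂ L) :
    Primrec (fun p : ((ℕ × List Node) × Node) × Bool => newc G H L p.1.1.1 p.1.1.2 p.1.2 p.2) := by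
  have hact : Primrec (fun p : ((ℕ × List Node) × Node) × Bool =>
      act G H L p.1.1.1 p.1.1.2 p.1.2.2) :=
    (primrec_act hG hH hL).comp (Primrec.pair (Primrec.fst.comp Primrec.fst)
      (Primrec.snd.comp (Primrec.snd.comp Primrec.fst)))
  have hx1 : Primrec (fun p : ((ℕ × List Node) × Node) × Bool => p.1.2.1) :=
    Primrec.fst.comp (Primrec.snd.comp Primrec.fst)
  have hx2 : Primrec (fun p : ((ℕ × List Node) × Node) × Bool => p.1.2.2) :=
    Primrec.snd.comp (Primrec.snd.comp Primrec.fst)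
  have hlen : Primrec (fun p : ((ℕ × List Node) × Node) × Bool => p.1.2.2.length - 1) :=
    Primrec.nat_sub.comp (Primrec.list_length.comp hx2) (Primrec.const 1)
  have hnone : Primrec (fun p : ((ℕ × List Node) × Node) × Bool =>
      (some (if p.1.2.1.length + 1 = L (p.1.2.2.length - 1) (ent p.1.2.2 (p.1.2.2.length - 1))
      then p.1.2.2 ++ [p.1.2.1 ++ [p.2]] else p.1.2.2) : Option Chain)) := by
    refine Primrec.option_some.comp (Primrec.ite ?_ ?_ hx2)
    · exact Primrec.eq.comp (Primrec.succ.comp (Primrec.list_length.comp hx1))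
        (hL.comp hlen (primrec_ent.comp hx2 hlen))
    · exact Primrec.list_concat.comp hx2 (Primrec.list_concat.comp hx1 Primrec.snd)
  have hsome : Primrec₂ (fun (p : ((ℕ × List Node) × Node) × Bool) (w : ℕ × List Bool) =>
      (if p.1.2.1 = w.2 then some (p.1.2.2.take w.1 ++ [p.1.2.1]) else none : Option Chain)) := by
    refine Primrec.ite ?_ ?_ (Primrec.const none)
    · exact Primrec.eq.comp (hx1.comp Primrec.fst) (Primrec.snd.comp Primrec.snd)
    · refine Primrec.option_some.comp (Primrec.list_concat.comp ?_ (hx1.comp Primrec.fst))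
      exact Primrec.list_take.comp (Primrec.fst.comp Primrec.snd) (hx2.comp Primrec.fst)
  refine (Primrec.option_casesOn hact hnone hsome).of_eq (fun p => ?_)
  unfold newc
  cases act G H L p.1.1.1 p.1.1.2 p.1.2.2 with
  | none => rfl
  | some w => rfl

theorem primrec_stA (hG : Primrec₂ G)
    (hH : Primrec (fun p : ℕ × ℕ × List Bool => H p.1 p.2.1 p.2.2))
    (hL : Primrec₂ L) : Primrec (stA G H L) := by
  unfold stA
  refine Primrec.nat_rec₁ _ ?_
  refine Primrec.list_flatMap Primrec.snd ?_
  unfold step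
  refine Primrec.listFilterMap (Primrec.const [false, true]) ?_
  have h1 : Primrec (fun q : ((ℕ × List Node) × Node) × Bool =>
      newc G H L q.1.1.1 q.1.1.2 q.1.2 q.2) := primrec_newc hG hH hL
  refine Primrec.option_map h1 ?_
  refine Primrec.pair ?_ Primrec.snd
  exact Primrec.list_concat.comp (Primrec.fst.comp (Primrec.snd.comp (Primrec.fst.comp Primrec.fst)))
    (Primrec.snd.comp Primrec.fst)

/-- the tree as a Boolean function -/
def TB (G : ℕ → List Bool → Bool) (H : ℕ → ℕ → List Bool → Bool) (L : ℕ → List Bool → ℕ)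
    (ξ : List Bool) : Bool :=
  decide (∃ x ∈ stA G H L ξ.length, x.1 = ξ ∧ unhit H L ξ.length x = true)

theorem primrec_TB (hG : Primrec₂ G)
    (hH : Primrec (fun p : ℕ × ℕ × List Bool => H p.1 p.2.1 p.2.2))
    (hL : Primrec₂ L) : Primrec (TB G H L) := by
  have hR : PrimrecRel (fun (x : Node) (ξ : List Bool) =>
      x.1 = ξ ∧ unhit H L ξ.length x = true) := by
    refine PrimrecPred.and ?_ ?_
    · exact Primrec.eq.comp (Primrec.fst.comp Primrec.fst) Primrec.snd
    · exact Primrec.eq.comp ((primrec_unhit hH hL).comp (Primrec.list_length.comp Primrec.snd)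
        Primrec.fst) (Primrec.const true)
  have h1 := PrimrecRel.exists_mem_list hR
  have h2 : PrimrecPred (fun ξ : List Bool =>
      ∃ x ∈ stA G H L ξ.length, x.1 = ξ ∧ unhit H L ξ.length x = true) :=
    h1.comp ((primrec_stA hG hH hL).comp Primrec.list_length) Primrec.id
  exact h2.decide

theorem partTwo (B : ℕ → Bool) (hB : ¬ Computable B)
    (hG : Primrec₂ G) (hH : Primrec (fun p : ℕ × ℕ × List Bool => H p.1 p.2.1 p.2.2))
    (hL : Primrec₂ L)
    (hL2 : ∀ i p, p.length + 2 ≤ L i p)
    (hG1 : ∀ s u u', u' <+: u → G s u = true → G s u' = true)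
    (hG2 : ∀ n, ∃ s₀, ∀ s ≥ s₀, G s (seg B n) = true)
    (hG3 : ∀ Z : ℕ → Bool, (∀ n s₀, ∃ s ≥ s₀, G s (seg Z n) = true) → Z = B)
    (hHm : ∀ t i q, H t i q = true → H (t+1) i q = true)
    (hH2 : ∀ t i p, ∃ q, p <+: q ∧ q.length = L i p ∧ H t i q = false)
    (hH3 : ∀ (i : ℕ) (Y : ℕ → Bool), Red i B Y → ∀ p, Pre p Y → ∃ t, H t i (seg Y (L i p)) = true) :
    ∃ T : List Bool → Bool, Primrec T ∧ (∃ f : ℕ → Bool, ∀ n, T (seg f n) = true) ∧
      ∀ f : ℕ → Bool, (∀ n, T (seg f n) = true) → ∀ e, ¬ Red e f B ∧ ¬ Red e B f := by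
  refine ⟨TB G H L, primrec_TB hG hH hL, ?_, ?_⟩
  · obtain ⟨f, hf⟩ := exists_path (G := G) hL2 hHm hH2
    refine ⟨f, fun n => ?_⟩
    unfold TB
    rw [decide_eq_true_eq]
    exact hf n
  · intro f hf e
    have hX : ∀ n, TT G H L (seg f n) := by
      intro n
      have := hf n
      unfold TB at this
      rw [decide_eq_true_eq] at this
      exact this
    obtain ⟨ch, P⟩ := exists_pathData hX
    exact ⟨P.not_red_left hB hL2 (primrec_stA hG hH hL) hG1 hG2 hG3 e,
      P.not_red_right hB hL2 (primrec_stA hG hH hL) hG1 hG3 hHm hH3 e⟩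

end thms

end Pool.Agent.Helper854
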