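import Pool.Agent.Helper854.Weights
import Pool.Agent.Helper854.PartTwoC

set_option autoImplicit false

namespace Pool.Agent.Helper854

open Encodable

open scoped BigOperators

/-- `i` has produced at least `2k` output bits on `σ` -/
def prd (i k : ℕ) (σ : List Bool) : Prop := i ≤ σ.length ∧ 2 * k ≤ (out i σ).length

instance (i k : ℕ) (σ : List Bool) : Decidable (prd i k σ) := by unfold prd; infer_instance

/-- `σ` is the first initial segment on which `2k` output bits are produced -/
def dom (i k : ℕ) (σ : List Bool) : Prop := prd i k σ ∧ ¬ prd i k (σ.take (σ.length - 1))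

instance (i k : ℕ) (σ : List Bool) : Decidable (dom i k σ) := by unfold dom; infer_instance

def WN (D : ℕ) (σ : List Bool) : ℕ :=
  ((List.range (σ.length + 1)).map (fun i =>
    ((List.range (σ.length + 1)).map (fun k => if dom i k σ then 2 ^ (D - (i + k + 1)) else 0)).sum)).sum

/-- there is room for `τ` at the target `σ` -/
def room (e D : ℕ) (Q : List Ent) (τ σ : List Bool) : Prop :=
  2 ^ (e + 4) * (massN D Q (fun x => x.2 = σ) + 2 ^ (D - τ.length)) ≤
    2 ^ (D - (σ.length + 1)) + massN D Q (fun x => x.2.length = σ.length) + WN D σ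

instance (e D : ℕ) (Q : List Ent) (τ σ : List Bool) : Decidable (room e D Q τ σ) := by
  unfold room; infer_instance

def pick (e D : ℕ) (Q : List Ent) (τ : List Bool) : Option (List Bool) :=
  if (∃ x ∈ Q, x.1 <+: τ) then none else
    ((List.range ((out e τ).length + 1)).filterMap (fun n =>
      if room e D Q τ ((out e τ).take n) then some ((out e τ).take n) else none)).head?

def nextQ (e t : ℕ) (Q : List Ent) : List Ent :=
  match decode₂ (List Bool) t with
  | none => Q
  | some τ => match pick e (2 * t + 1) Q τ with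
    | none => Q
    | some σ => (τ, σ) :: Q

def QQ (e : ℕ) : ℕ → List Ent := fun n => Nat.rec [] (fun t Q => nextQ e t Q) n

theorem QQ_zero (e : ℕ) : QQ e 0 = [] := rfl
theorem QQ_succ (e t : ℕ) : QQ e (t+1) = nextQ e t (QQ e t) := rfl

/-- case analysis of one stage -/
theorem QQ_succ_cases (e t : ℕ) : QQ e (t+1) = QQ e t ∨
    ∃ τ σ, decode₂ (List Bool) t = some τ ∧ pick e (2 * t + 1) (QQ e t) τ = some σ ∧
      QQ e (t+1) = (τ, σ) :: QQ e t := by
  rw [QQ_succ]
  unfold nextQ
  cases h : decode₂ (List Bool) t with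
  | none => left; rfl
  | some τ =>
    cases h2 : pick e (2 * t + 1) (QQ e t) τ with
    | none => left; simp [h2]
    | some σ => right; exact ⟨τ, σ, rfl, h2, by simp [h2]⟩

theorem pick_spec {e D : ℕ} {Q : List Ent} {τ σ : List Bool} (h : pick e D Q τ = some σ) :
    (∀ x ∈ Q, ¬ x.1 <+: τ) ∧ σ <+: out e τ ∧ room e D Q τ σ := by
  unfold pick at h
  split_ifs at h with h1
  push Not at h1
  refine ⟨h1, ?_⟩
  have := List.mem_of_mem_head? h
  rw [List.mem_filterMap] at this
  obtain ⟨n, _, h2⟩ := this
  split_ifs at h2 with h3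
  cases h2
  exact ⟨List.take_prefix _ _, h3⟩

theorem pick_isSome {e D : ℕ} {Q : List Ent} {τ σ : List Bool}
    (h1 : ∀ x ∈ Q, ¬ x.1 <+: τ) (h2 : σ <+: out e τ) (h3 : room e D Q τ σ) :
    ∃ σ', pick e D Q τ = some σ' := by
  unfold pick
  rw [if_neg (by push Not; exact h1)]
  cases hh : ((List.range ((out e τ).length + 1)).filterMap (fun n =>
      if room e D Q τ ((out e τ).take n) then some ((out e τ).take n) else none)).head? with
  | some σ' => exact ⟨σ', rfl⟩
  | none =>
    exfalso
    rw [List.head?_eq_none_iff, List.filterMap_eq_nil_iff] at hh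
    have := hh σ.length (List.mem_range.mpr (Nat.lt_succ_of_le h2.length_le))
    rw [← List.prefix_iff_eq_take.mp h2, if_pos h3] at this
    cases this

theorem length_le_encode (τ : List Bool) : τ.length ≤ encode τ := by
  induction τ with
  | nil => simp
  | cons a τ ih =>
    rw [List.length_cons, Encodable.encode_list_cons]
    have := Nat.right_le_pair (encode a) (encode τ)
    omega

theorem encode_prefix {τ τ' : List Bool} (h : τ <+: τ') : encode τ ≤ encode τ' := by
  induction τ generalizing τ' with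
  | nil => simp
  | cons a τ ih =>
    cases τ' with
    | nil => simp at h
    | cons a' τ' =>
      rw [List.cons_prefix_cons] at h
      obtain ⟨rfl, h⟩ := h
      rw [Encodable.encode_list_cons, Encodable.encode_list_cons]
      have h1 := ih h
      have h2 : Nat.pair (encode a) (encode τ) ≤ Nat.pair (encode a) (encode τ') := by
        rcases Nat.lt_or_ge (encode τ) (encode τ') with h3 | h3
        · exact (Nat.pair_lt_pair_right _ h3).le
        · rw [le_antisymm h1 h3]
      omega

theorem QQ_mem {e t : ℕ} {x : Ent} (h : x ∈ QQ e t) : encode x.1 < t ∧ x.2 <+: out e x.1 := by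
  induction t with
  | zero => rw [QQ_zero] at h; simp at h
  | succ t ih =>
    rcases QQ_succ_cases e t with h1 | ⟨τ, σ, h1, h2, h3⟩
    · rw [h1] at h
      exact ⟨Nat.lt_succ_of_lt (ih h).1, (ih h).2⟩
    · rw [h3] at h
      rcases List.mem_cons.mp h with h4 | h4
      · subst h4
        have h5 : encode τ = t := Encodable.mem_decode₂.mp h1
        exact ⟨by simp only; omega, (pick_spec h2).2.1⟩
      · exact ⟨Nat.lt_succ_of_lt (ih h4).1, (ih h4).2⟩


theorem QQ_length {e t : ℕ} {x : Ent} (h : x ∈ QQ e t) : x.1.length < t :=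
  lt_of_le_of_lt (length_le_encode _) (QQ_mem h).1

theorem QQ_mono_succ {e t : ℕ} {x : Ent} (h : x ∈ QQ e t) : x ∈ QQ e (t+1) := by
  rcases QQ_succ_cases e t with h1 | ⟨τ, σ, h1, h2, h3⟩
  · rw [h1]; exact h
  · rw [h3]; exact List.mem_cons_of_mem _ h

theorem QQ_mono {e t t' : ℕ} (htt : t ≤ t') {x : Ent} (h : x ∈ QQ e t) : x ∈ QQ e t' := by
  induction t', htt using Nat.le_induction with
  | base => exact h
  | succ n hn ih => exact QQ_mono_succ ih

theorem QQ_pairwise (e t : ℕ) :
    ((QQ e t).map Prod.fst).Pairwise (fun a b => ¬ a <+: b ∧ ¬ b <+: a) := by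
  induction t with
  | zero => rw [QQ_zero]; simp
  | succ t ih =>
    rcases QQ_succ_cases e t with h1 | ⟨τ, σ, h1, h2, h3⟩
    · rw [h1]; exact ih
    · rw [h3, List.map_cons, List.pairwise_cons]
      refine ⟨?_, ih⟩
      intro a ha
      rw [List.mem_map] at ha
      obtain ⟨x, hx, rfl⟩ := ha
      refine ⟨?_, (pick_spec h2).1 x hx⟩
      intro hp
      have h4 := encode_prefix hp
      have h5 : encode τ = t := Encodable.mem_decode₂.mp h1
      have h6 := (QQ_mem hx).1
      simp only at h4 h6
      omega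

theorem mass_true_eq (Q : List Ent) : mass Q (fun _ => True) = tot (Q.map Prod.fst) := by
  induction Q with
  | nil => simp
  | cons x Q ih => rw [mass_cons, List.map_cons, tot_cons, ih]; simp

theorem mass_QQ_le_one (e t : ℕ) (p : Ent → Prop) [DecidablePred p] : mass (QQ e t) p ≤ 1 := by
  calc mass (QQ e t) p ≤ mass (QQ e t) (fun _ => True) := mass_mono (fun _ _ _ => trivial)
    _ = tot ((QQ e t).map Prod.fst) := mass_true_eq _
    _ ≤ 1 := kraft _ (QQ_pairwise e t)

theorem mass_QQ_mono_succ (e t : ℕ) (p : Ent → Prop) [DecidablePred p] :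
    mass (QQ e t) p ≤ mass (QQ e (t+1)) p := by
  rcases QQ_succ_cases e t with h1 | ⟨τ, σ, h1, h2, h3⟩
  · rw [h1]
  · rw [h3, mass_cons]
    split_ifs
    · have := wt_pos τ; simp only; linarith
    · linarith

theorem mass_QQ_mono (e : ℕ) (p : Ent → Prop) [DecidablePred p] :
    Monotone (fun t => mass (QQ e t) p) := monotone_nat_of_le_succ (fun t => mass_QQ_mono_succ e t p)

/-- real valued bonus weight -/
noncomputable def WR (σ : List Bool) : ℝ :=
  ∑ i ∈ Finset.range (σ.length + 1), ∑ k ∈ Finset.range (σ.length + 1),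
    (if dom i k σ then (1/2 : ℝ) ^ (i + k + 1) else 0)

theorem pow_sub_cast {D m : ℕ} (h : m ≤ D) : ((2 ^ (D - m) : ℕ) : ℝ) = 2 ^ D * (1/2 : ℝ) ^ m := by
  push_cast
  rw [pow_sub₀ _ (by norm_num) h, one_div, inv_pow]

theorem WN_cast {D : ℕ} {σ : List Bool} (h : 2 * σ.length + 1 ≤ D) :
    (WN D σ : ℝ) = 2 ^ D * WR σ := by
  unfold WN WR
  rw [Finset.mul_sum]
  have h1 : ∀ (f : ℕ → ℕ) (n : ℕ), ((List.range n).map f).sum = ∑ i ∈ Finset.range n, f i := by
    intro f n
    rw [Finset.sum_range]
    rw [← List.sum_ofFn]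
    congr 1
    apply List.ext_getElem <;> simp
  rw [h1, Nat.cast_sum]
  apply Finset.sum_congr rfl
  intro i hi
  rw [h1, Nat.cast_sum, Finset.mul_sum]
  apply Finset.sum_congr rfl
  intro k hk
  rw [Finset.mem_range] at hi hk
  split_ifs
  · exact pow_sub_cast (by omega)
  · simp

/-- real valued capacity (times `2^(e+4)`) -/
noncomputable def capR (Q : List Ent) (σ : List Bool) : ℝ :=
  (1/2 : ℝ) ^ (σ.length + 1) + mass Q (fun x => x.2.length = σ.length) + WR σ

theorem room_iff {e D : ℕ} {Q : List Ent} {τ σ : List Bool} (hQ : ∀ x ∈ Q, x.1.length ≤ D)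
    (hτ : τ.length ≤ D) (hσ : 2 * σ.length + 1 ≤ D) :
    room e D Q τ σ ↔ 2 ^ (e + 4) * (mass Q (fun x => x.2 = σ) + wt τ) ≤ capR Q σ := by
  unfold room capR
  rw [← Nat.cast_le (α := ℝ)]
  push_cast
  have h1 : ((2 : ℝ) ^ (D - τ.length)) = 2 ^ D * wt τ := by
    have := pow_sub_cast hτ
    push_cast at this
    rw [this]; rfl
  have h2 : ((2 : ℝ) ^ (D - (σ.length + 1))) = 2 ^ D * (1/2 : ℝ) ^ (σ.length + 1) := by
    have := pow_sub_cast (D := D) (m := σ.length + 1) (by omega)
    push_cast at this
    exact this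
  rw [massN_cast hQ, massN_cast hQ, WN_cast hσ, h1, h2]
  have hD : (0 : ℝ) < 2 ^ D := by positivity
  constructor
  · intro h
    have h3 : 2 ^ D * (2 ^ (e + 4) * (mass Q (fun x => x.2 = σ) + wt τ)) ≤
        2 ^ D * ((1/2 : ℝ) ^ (σ.length + 1) + mass Q (fun x => x.2.length = σ.length) + WR σ) := by
      linarith
    exact le_of_mul_le_mul_left h3 hD
  · intro h
    have h3 := mul_le_mul_of_nonneg_left h hD.le
    linarith

theorem WR_nonneg (σ : List Bool) : 0 ≤ WR σ := by
  unfold WR
  apply Finset.sum_nonneg; intro i _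
  apply Finset.sum_nonneg; intro k _
  split_ifs
  · positivity
  · exact le_rfl

theorem capR_mono {e t t' : ℕ} (h : t ≤ t') (σ : List Bool) :
    capR (QQ e t) σ ≤ capR (QQ e t') σ := by
  unfold capR
  have := mass_QQ_mono e (fun x => x.2.length = σ.length) h
  simp only at this
  linarith

theorem cap_bound (e t : ℕ) (σ : List Bool) :
    2 ^ (e + 4) * mass (QQ e t) (fun x => x.2 = σ) ≤ capR (QQ e t) σ := by
  induction t with
  | zero =>
    rw [QQ_zero]
    have h1 := WR_nonneg σ
    unfold capR
    simp only [mass_nil, mul_zero, add_zero]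
    positivity
  | succ t ih =>
    rcases QQ_succ_cases e t with h1 | ⟨τ, σ', h1, h2, h3⟩
    · rw [h1]; exact ih
    · by_cases hσ : σ' = σ
      · subst hσ
        have h4 : encode τ = t := Encodable.mem_decode₂.mp h1
        have h5 := length_le_encode τ
        have h6 := pick_spec h2
        have h7 := h6.2.1.length_le
        have h8 := length_out_le e τ
        have h9 := (room_iff (fun x hx => by have := QQ_length hx; omega) (by omega) (by omega)).mp h6.2.2
        have h10 := capR_mono (e := e) (Nat.le_succ t) σ'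
        rw [h3] at h10 ⊢
        rw [mass_cons, if_pos rfl]
        simp only at h9 h10 ⊢
        linarith
      · have h10 := capR_mono (e := e) (Nat.le_succ t) σ
        rw [h3] at h10 ⊢
        rw [mass_cons, if_neg hσ, zero_add]
        linarith

end Pool.Agent.Helper854
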