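import Pool.Agent.Helper854.PartOne

set_option autoImplicit false

namespace Pool.Agent.Helper854

open Encodable

open scoped BigOperators

theorem prd_mono {i k : ℕ} {σ σ' : List Bool} (h : σ <+: σ') (hp : prd i k σ) : prd i k σ' :=
  ⟨hp.1.trans h.length_le, hp.2.trans (out_mono h).length_le⟩

theorem dom_unique {i k : ℕ} {B : ℕ → Bool} {n n' : ℕ} (h : dom i k (seg B n))
    (h' : dom i k (seg B n')) : n = n' := by
  have key : ∀ n n' : ℕ, n < n' → dom i k (seg B n) → ¬ dom i k (seg B n') := by
    intro n n' hnn h h'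
    apply h'.2
    rw [length_seg, take_seg B n' (n'-1) (by omega)]
    exact prd_mono (seg_prefix_seg B (by omega)) h.1
  rcases Nat.lt_trichotomy n n' with h1 | h1 | h1
  · exact absurd h' (key n n' h1 h)
  · exact h1
  · exact absurd h (key n' n h1 h')

theorem sum_half_le (N : ℕ) : ∑ i ∈ Finset.range N, (1/2 : ℝ) ^ i ≤ 2 := sum_geometric_two_le N

theorem sum_WR_le (B : ℕ → Bool) (N : ℕ) : ∑ n ∈ Finset.range N, WR (seg B n) ≤ 2 := by
  have h1 : ∀ n ∈ Finset.range N, WR (seg B n) ≤ ∑ i ∈ Finset.range N, ∑ k ∈ Finset.range N,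
      (if dom i k (seg B n) then (1/2 : ℝ) ^ (i + k + 1) else 0) := by
    intro n hn
    rw [Finset.mem_range] at hn
    unfold WR
    rw [length_seg]
    have hnn : ∀ i k : ℕ, 0 ≤ (if dom i k (seg B n) then (1/2 : ℝ) ^ (i + k + 1) else 0) := by
      intro i k
      split_ifs
      · positivity
      · exact le_rfl
    calc _ ≤ ∑ i ∈ Finset.range (n+1), ∑ k ∈ Finset.range N,
          (if dom i k (seg B n) then (1/2 : ℝ) ^ (i + k + 1) else 0) := by
            apply Finset.sum_le_sum
            intro i _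
            apply Finset.sum_le_sum_of_subset_of_nonneg
            · intro k hk; rw [Finset.mem_range] at hk ⊢; omega
            · intro k _ _; exact hnn i k
      _ ≤ _ := by
            apply Finset.sum_le_sum_of_subset_of_nonneg
            · intro k hk; rw [Finset.mem_range] at hk ⊢; omega
            · intro i _ _; exact Finset.sum_nonneg (fun k _ => hnn i k)
  calc ∑ n ∈ Finset.range N, WR (seg B n)
      ≤ ∑ n ∈ Finset.range N, ∑ i ∈ Finset.range N, ∑ k ∈ Finset.range N,
      (if dom i k (seg B n) then (1/2 : ℝ) ^ (i + k + 1) else 0) := Finset.sum_le_sum h1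
    _ = ∑ i ∈ Finset.range N, ∑ k ∈ Finset.range N, ∑ n ∈ Finset.range N,
      (if dom i k (seg B n) then (1/2 : ℝ) ^ (i + k + 1) else 0) := by
        rw [Finset.sum_comm]
        apply Finset.sum_congr rfl
        intro i _
        rw [Finset.sum_comm]
    _ ≤ ∑ i ∈ Finset.range N, ∑ k ∈ Finset.range N, (1/2 : ℝ) ^ (i + k + 1) := by
        apply Finset.sum_le_sum; intro i _
        apply Finset.sum_le_sum; intro k _
        by_cases hex : ∃ n ∈ Finset.range N, dom i k (seg B n)
        · obtain ⟨n, hn, hd⟩ := hex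
          rw [Finset.sum_eq_single_of_mem n hn, if_pos hd]
          intro m _ hmn
          rw [if_neg]
          intro hd'
          exact hmn (dom_unique hd' hd)
        · push Not at hex
          rw [Finset.sum_eq_zero]
          · positivity
          · intro n hn; rw [if_neg (hex n hn)]
    _ = (1/2) * ((∑ i ∈ Finset.range N, (1/2 : ℝ) ^ i) * (∑ k ∈ Finset.range N, (1/2 : ℝ) ^ k)) := by
        rw [Finset.sum_mul_sum, Finset.mul_sum]
        apply Finset.sum_congr rfl; intro i _
        rw [Finset.mul_sum]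
        apply Finset.sum_congr rfl; intro k _
        rw [pow_succ, pow_add]; ring
    _ ≤ (1/2) * (2 * 2) := by
        have h2 := sum_half_le N
        have h3 : 0 ≤ ∑ i ∈ Finset.range N, (1/2 : ℝ) ^ i := Finset.sum_nonneg (fun i _ => by positivity)
        have h4 := mul_le_mul h2 h2 h3 (by norm_num)
        linarith
    _ = 2 := by norm_num

/-- total mass of the entries relevant for `B` -/
theorem relevant_le (e t : ℕ) (B : ℕ → Bool) :
    mass (QQ e t) (fun x => x.2 = seg B x.2.length) ≤ (1/2 : ℝ) ^ (e + 2) := by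
  have h1 : mass (QQ e t) (fun x => x.2 = seg B x.2.length) ≤
      ∑ n ∈ Finset.range t, mass (QQ e t) (fun x => x.2 = seg B n) := by
    apply mass_le_sum
    intro x hx hq
    refine ⟨x.2.length, ?_, hq⟩
    rw [Finset.mem_range]
    have h2 := (QQ_mem hx).2.length_le
    have h3 := length_out_le e x.1
    have h4 := QQ_length hx
    omega
  have h2 : ∀ n ∈ Finset.range t, 2 ^ (e + 4) * mass (QQ e t) (fun x => x.2 = seg B n) ≤
      (1/2 : ℝ) ^ (n + 1) + mass (QQ e t) (fun x => x.2.length = n) + WR (seg B n) := by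
    intro n _
    have := cap_bound e t (seg B n)
    unfold capR at this
    rwa [length_seg] at this
  have h3 := Finset.sum_le_sum h2
  rw [← Finset.mul_sum, Finset.sum_add_distrib, Finset.sum_add_distrib] at h3
  have h4 := sum_WR_le B t
  have h5 : ∑ n ∈ Finset.range t, mass (QQ e t) (fun x => x.2.length = n) ≤ 1 := by
    calc _ ≤ mass (QQ e t) (fun _ => True) :=
          sum_mass_le _ _ _ (fun _ _ _ _ _ => trivial)
            (fun x _ i _ j _ hi hj => hi.symm.trans hj)
      _ ≤ 1 := mass_QQ_le_one e t _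
  have h6 : ∑ n ∈ Finset.range t, (1/2 : ℝ) ^ (n + 1) ≤ 1 := by
    have : ∑ n ∈ Finset.range t, (1/2 : ℝ) ^ (n + 1) = (1/2) * ∑ n ∈ Finset.range t, (1/2 : ℝ) ^ n := by
      rw [Finset.mul_sum]
      apply Finset.sum_congr rfl; intro n _
      rw [pow_succ]; ring
    rw [this]
    have := sum_half_le t
    linarith
  have h7 : 2 ^ (e + 4) * mass (QQ e t) (fun x => x.2 = seg B x.2.length) ≤ 4 := by
    have h8 : (0:ℝ) ≤ 2 ^ (e + 4) := by positivity
    have := mul_le_mul_of_nonneg_left h1 h8
    linarith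
  have h9 : (2 : ℝ) ^ (e + 4) * (1/2 : ℝ) ^ (e + 2) = 4 := by
    have : (2 : ℝ) ^ (e + 4) = 2 ^ (e+2) * 4 := by rw [pow_add, pow_add]; ring
    rw [this]
    have h10 : (2 : ℝ) ^ (e+2) * (1/2) ^ (e+2) = 1 := by rw [← mul_pow]; norm_num
    nlinarith
  have h11 : (0 : ℝ) < 2 ^ (e + 4) := by positivity
  rw [← h9] at h7
  exact le_of_mul_le_mul_left h7 h11

/-- the tree used in the first case -/
def FF (ξ β : List Bool) : Bool :=
  decide ((∀ e < ξ.length, ∀ x ∈ QQ e ξ.length, ¬ (x.1 <+: ξ ∧ x.2 <+: β)) ∧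
    (∀ i < ξ.length, ¬ (i + 3 ≤ (out i β).length ∧ (out i β).take (i+3) <+: ξ)))

theorem FF_iff {ξ β : List Bool} : FF ξ β = true ↔
    (∀ e < ξ.length, ∀ x ∈ QQ e ξ.length, ¬ (x.1 <+: ξ ∧ x.2 <+: β)) ∧
    (∀ i < ξ.length, ¬ (i + 3 ≤ (out i β).length ∧ (out i β).take (i+3) <+: ξ)) := by
  unfold FF; rw [decide_eq_true_eq]

theorem FF_closed (B : ℕ → Bool) (ξ : List Bool) (b : Bool)
    (h : FF (ξ ++ [b]) (seg B (ξ ++ [b]).length) = true) : FF ξ (seg B ξ.length) = true := by
  rw [FF_iff] at h ⊢
  have hl : (ξ ++ [b]).length = ξ.length + 1 := by simp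
  rw [hl] at h
  obtain ⟨h1, h2⟩ := h
  have hp : ξ <+: ξ ++ [b] := List.prefix_append _ _
  have hs : seg B ξ.length <+: seg B (ξ.length + 1) := seg_prefix_seg B (Nat.le_succ _)
  refine ⟨?_, ?_⟩
  · intro e he x hx hc
    exact h1 e (by omega) x (QQ_mono_succ hx) ⟨hc.1.trans hp, hc.2.trans hs⟩
  · intro i hi hc
    apply h2 i (by omega)
    have h3 := out_mono (e := i) hs
    refine ⟨hc.1.trans h3.length_le, ?_⟩
    have h4 : (out i (seg B (ξ.length + 1))).take (i+3) = (out i (seg B ξ.length)).take (i+3) := by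
      obtain ⟨t, ht⟩ := h3
      rw [← ht, List.take_append_of_le_length hc.1]
    rw [h4]
    exact hc.2.trans hp

theorem tot_flatMap_range (f : ℕ → List (List Bool)) (N : ℕ) :
    tot ((List.range N).flatMap f) = ∑ i ∈ Finset.range N, tot (f i) := by
  induction N with
  | zero => simp
  | succ N ih =>
    rw [List.range_succ, List.flatMap_append, tot_append, ih, Finset.sum_range_succ]
    simp

theorem FF_exists (B : ℕ → Bool) (N : ℕ) : ∃ ξ : List Bool, ξ.length = N ∧
    FF ξ (seg B ξ.length) = true := by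
  let l1 : List (List Bool) := (List.range N).flatMap (fun e =>
    ((QQ e N).filter (fun x => decide (x.2 = seg B x.2.length))).map Prod.fst)
  let l2 : List (List Bool) := (List.range N).flatMap (fun i =>
    if i + 3 ≤ (out i (seg B N)).length then [(out i (seg B N)).take (i+3)] else [])
  have h1 : tot l1 ≤ 1/2 := by
    rw [tot_flatMap_range]
    calc _ ≤ ∑ e ∈ Finset.range N, (1/2 : ℝ) ^ (e + 2) := by
            apply Finset.sum_le_sum
            intro e _
            rw [tot_map_filter]
            exact relevant_le e N B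
      _ = (1/4) * ∑ e ∈ Finset.range N, (1/2 : ℝ) ^ e := by
            rw [Finset.mul_sum]
            apply Finset.sum_congr rfl; intro n _
            rw [pow_add]; ring
      _ ≤ 1/2 := by have := sum_half_le N; linarith
  have h2 : tot l2 ≤ 1/4 := by
    rw [tot_flatMap_range]
    calc _ ≤ ∑ e ∈ Finset.range N, (1/2 : ℝ) ^ (e + 3) := by
            apply Finset.sum_le_sum
            intro i _
            split_ifs with hi
            · rw [tot_cons, tot_nil, add_zero]
              unfold wt
              rw [List.length_take, min_eq_left hi]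
            · rw [tot_nil]; positivity
      _ = (1/8) * ∑ e ∈ Finset.range N, (1/2 : ℝ) ^ e := by
            rw [Finset.mul_sum]
            apply Finset.sum_congr rfl; intro n _
            rw [pow_add]; ring
      _ ≤ 1/4 := by have := sum_half_le N; linarith
  obtain ⟨ξ, hξ, hav⟩ := avoid N (l1 ++ l2) (by rw [tot_append]; linarith)
  refine ⟨ξ, hξ, ?_⟩
  rw [FF_iff, hξ]
  refine ⟨?_, ?_⟩
  · intro e he x hx hc
    refine hav x.1 (List.mem_append_left _ ?_) hc.1
    rw [List.mem_flatMap]
    refine ⟨e, List.mem_range.mpr he, ?_⟩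
    rw [List.mem_map]
    refine ⟨x, ?_, rfl⟩
    rw [List.mem_filter]
    refine ⟨hx, ?_⟩
    rw [decide_eq_true_eq]
    exact (prefix_seg_iff.mp hc.2).2.symm
  · intro i hi hc
    refine hav _ (List.mem_append_right _ ?_) hc.2
    rw [List.mem_flatMap]
    refine ⟨i, List.mem_range.mpr hi, ?_⟩
    rw [if_pos hc.1]; exact List.mem_singleton.mpr rfl

theorem FF_path (B : ℕ → Bool) : ∃ f : ℕ → Bool, ∀ n, FF (seg f n) (seg B n) = true := by
  obtain ⟨f, hf⟩ := konig (fun ξ => FF ξ (seg B ξ.length) = true) (FF_closed B) (FF_exists B)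
  refine ⟨f, fun n => ?_⟩
  have := hf n
  simpa using this

theorem FF_avoid {B X : ℕ → Bool} (hX : ∀ n, FF (seg X n) (seg B n) = true) {e t : ℕ} {x : Ent}
    (hx : x ∈ QQ e t) (h1 : Pre x.1 X) (h2 : Pre x.2 B) : False := by
  let N := max (max (e+1) t) (max x.1.length x.2.length)
  have hN := (FF_iff.mp (hX N)).1
  rw [length_seg] at hN
  have a1 : e + 1 ≤ N := le_trans (le_max_left _ _) (le_max_left _ _)
  have a2 : t ≤ N := le_trans (le_max_right _ _) (le_max_left _ _)
  have a3 : x.1.length ≤ N := le_trans (le_max_left _ _) (le_max_right _ _)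
  have a4 : x.2.length ≤ N := le_trans (le_max_right _ _) (le_max_right _ _)
  exact hN e (by omega) x (QQ_mono a2 hx) ⟨h1.prefix_of_le a3, h2.prefix_of_le a4⟩

theorem FF_not_red {B X : ℕ → Bool} (hX : ∀ n, FF (seg X n) (seg B n) = true) (i : ℕ) :
    ¬ Red i B X := by
  intro hred
  obtain ⟨k₀, hk⟩ := hred.exists_length (i+3)
  let N := max k₀ (i+3)
  have hN := (FF_iff.mp (hX N)).2
  rw [length_seg] at hN
  have a1 : k₀ ≤ N := le_max_left _ _
  have a2 : i + 3 ≤ N := le_max_right _ _
  apply hN i (by omega)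
  refine ⟨hk N a1, ?_⟩
  have h1 : Pre ((out i (seg B N)).take (i+3)) X :=
    (hred.pre_out (pre_seg B N)).of_prefix (List.take_prefix _ _)
  exact h1.prefix_of_le (by rw [List.length_take]; omega)

end Pool.Agent.Helper854
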