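import Pool.Agent.Helper854.PartOneB

set_option autoImplicit false

namespace Pool.Agent.Helper854

open Encodable

open scoped BigOperators

/-- if `e` computes `B` from a path `X` of the first tree, there is eventually no room left -/
theorem no_room {B X : ℕ → Bool} {e : ℕ} (hX : ∀ n, FF (seg X n) (seg B n) = true)
    (hR : Red e X B) (n : ℕ) :
    ∃ l₀, ∀ l ≥ l₀, capR (QQ e (encode (seg X l))) (seg B n) <
      2 ^ (e + 4) * (mass (QQ e (encode (seg X l))) (fun x => x.2 = seg B n) + (1/2 : ℝ) ^ l) := by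
  obtain ⟨k₀, hk⟩ := hR.exists_length n
  refine ⟨k₀, fun l hl => ?_⟩
  have h1 := hk l hl
  have h2 : Pre (out e (seg X l)) B := hR.pre_out (pre_seg X l)
  have h3 : seg B n <+: out e (seg X l) := by
    have h2' : seg B (out e (seg X l)).length = out e (seg X l) := h2
    rw [← h2']
    exact seg_prefix_seg B h1
  have hun : ∀ x ∈ QQ e (encode (seg X l)), ¬ x.1 <+: seg X l := by
    intro x hx hp
    have h4 : Pre x.1 X := (pre_seg X l).of_prefix hp
    have h5 : Pre (out e x.1) B := hR.pre_out h4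
    exact FF_avoid hX hx h4 (h5.of_prefix (QQ_mem hx).2)
  have hlen := length_le_encode (seg X l)
  have hlo := length_out_le e (seg X l)
  rw [length_seg] at hlen
  rw [length_seg] at hlo
  have hnr : ¬ room e (2 * encode (seg X l) + 1) (QQ e (encode (seg X l))) (seg X l) (seg B n) := by
    intro hroom
    obtain ⟨σ', hσ'⟩ := pick_isSome hun h3 hroom
    have h6 : QQ e (encode (seg X l) + 1) = (seg X l, σ') :: QQ e (encode (seg X l)) := by
      rw [QQ_succ]
      unfold nextQ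
      have hd : decode₂ (List Bool) (encode (seg X l)) = some (seg X l) :=
        Encodable.mem_decode₂.mpr rfl
      rw [hd]
      simp only [hσ']
    have h7 : (seg X l, σ') ∈ QQ e (encode (seg X l) + 1) := by rw [h6]; exact List.mem_cons_self
    exact FF_avoid hX h7 (pre_seg X l) (h2.of_prefix (pick_spec hσ').2.1)
  rw [room_iff (fun x hx => by have := QQ_length hx; omega) (by rw [length_seg]; omega)
    (by rw [length_seg]; omega), not_le] at hnr
  have hw : wt (seg X l) = (1/2 : ℝ) ^ l := by unfold wt; rw [length_seg]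
  rwa [hw] at hnr

noncomputable def cinf (e : ℕ) (σ : List Bool) : ℝ := ⨆ t, mass (QQ e t) (fun x => x.2 = σ)

theorem bdd_mass (e : ℕ) (σ : List Bool) :
    BddAbove (Set.range (fun t => mass (QQ e t) (fun x => x.2 = σ))) :=
  ⟨1, by rintro _ ⟨t, rfl⟩; exact mass_QQ_le_one e t _⟩

theorem mass_le_cinf (e t : ℕ) (σ : List Bool) :
    mass (QQ e t) (fun x => x.2 = σ) ≤ cinf e σ := le_ciSup (bdd_mass e σ) t

theorem cap_le_cinf {B X : ℕ → Bool} {e : ℕ} (hX : ∀ n, FF (seg X n) (seg B n) = true)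
    (hR : Red e X B) (n t : ℕ) : capR (QQ e t) (seg B n) ≤ 2 ^ (e + 4) * cinf e (seg B n) := by
  obtain ⟨l₀, hl⟩ := no_room hX hR n
  have hev : ∀ l ≥ max l₀ t,
      capR (QQ e t) (seg B n) ≤ 2 ^ (e + 4) * (cinf e (seg B n) + (1/2 : ℝ) ^ l) := by
    intro l h
    have h1 := hl l (le_trans (le_max_left _ _) h)
    have h2 : t ≤ encode (seg X l) := by
      have h6 := length_le_encode (seg X l)
      rw [length_seg] at h6
      exact (le_trans (le_max_right _ _) h).trans h6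
    have h3 := capR_mono (e := e) h2 (seg B n)
    have h4 := mass_le_cinf e (encode (seg X l)) (seg B n)
    have h5 : (0 : ℝ) < 2 ^ (e + 4) := by positivity
    have h6 := mul_le_mul_of_nonneg_left (add_le_add_left h4 ((1/2 : ℝ) ^ l)) h5.le
    linarith
  have hlim : Filter.Tendsto (fun l : ℕ => 2 ^ (e + 4) * (cinf e (seg B n) + (1/2 : ℝ) ^ l))
      Filter.atTop (nhds (2 ^ (e + 4) * (cinf e (seg B n) + 0))) :=
    (tendsto_const_nhds.add
      (tendsto_pow_atTop_nhds_zero_of_lt_one (by norm_num) (by norm_num))).const_mul _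
  rw [add_zero] at hlim
  exact ge_of_tendsto hlim (Filter.eventually_atTop.mpr ⟨_, hev⟩)

theorem half_le {e : ℕ} {σ : List Bool} (h : 0 < cinf e σ) :
    ∃ t₀, ∀ t ≥ t₀, cinf e σ / 2 ≤ mass (QQ e t) (fun x => x.2 = σ) := by
  have h1 : cinf e σ / 2 < cinf e σ := by linarith
  obtain ⟨t₀, ht⟩ := exists_lt_of_lt_ciSup h1
  refine ⟨t₀, fun t htt => ?_⟩
  have h2 := mass_QQ_mono e (fun x => x.2 = σ) htt
  simp only at h2 ht
  linarith

theorem separate (S : Finset (ℕ → Bool)) :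
    ∃ N, ∀ Z ∈ S, ∀ Z' ∈ S, seg Z N = seg Z' N → Z = Z' := by
  classical
  have h1 : ∀ Z Z' : ℕ → Bool, ∃ m, seg Z m = seg Z' m → Z = Z' := by
    intro Z Z'
    by_cases h : Z = Z'
    · exact ⟨0, fun _ => h⟩
    · obtain ⟨m, hm⟩ := Function.ne_iff.mp h
      refine ⟨m+1, fun heq => absurd ?_ hm⟩
      rw [seg_succ, seg_succ] at heq
      have h2 := List.append_inj' heq rfl
      simpa using h2.2
  choose m hm using h1
  refine ⟨(S ×ˢ S).sup (fun p => m p.1 p.2), fun Z hZ Z' hZ' heq => hm Z Z' ?_⟩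
  have hle : m Z Z' ≤ (S ×ˢ S).sup (fun p => m p.1 p.2) :=
    Finset.le_sup (f := fun p : (ℕ → Bool) × (ℕ → Bool) => m p.1 p.2)
      (Finset.mk_mem_product hZ hZ')
  rw [← take_seg Z _ _ hle, heq, take_seg Z' _ _ hle]

def ZZ (e : ℕ) : Set (ℕ → Bool) :=
  {Z | ∀ n t, (1/2 : ℝ) ^ (n + 1) + mass (QQ e t) (fun x => x.2.length = n) ≤
    2 ^ (e + 5) * cinf e (seg Z n)}

theorem ZZ_finite (e : ℕ) : (ZZ e).Finite := by
  by_contra hinf
  obtain ⟨S, hS, hcard⟩ := Set.Infinite.exists_subset_card_eq hinf (2 ^ (e + 6))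
  obtain ⟨n, hn⟩ := separate S
  have hpos : ∀ Z ∈ S, 0 < cinf e (seg Z n) := by
    intro Z hZ
    have h1 := hS hZ n 0
    rw [QQ_zero, mass_nil, add_zero] at h1
    have h2 : (0 : ℝ) < (1/2) ^ (n + 1) := by positivity
    have h3 : (0 : ℝ) < 2 ^ (e + 5) * cinf e (seg Z n) := lt_of_lt_of_le h2 h1
    exact (mul_pos_iff_of_pos_left (by positivity)).mp h3
  have hth : ∀ Z : ℕ → Bool, ∃ t₀, Z ∈ S → ∀ t ≥ t₀,
      cinf e (seg Z n) / 2 ≤ mass (QQ e t) (fun x => x.2 = seg Z n) := by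
    intro Z
    by_cases hZ : Z ∈ S
    · obtain ⟨t₀, ht⟩ := half_le (hpos Z hZ)
      exact ⟨t₀, fun _ => ht⟩
    · exact ⟨0, fun h => absurd h hZ⟩
  choose t₀ ht₀ using hth
  obtain ⟨t, ht⟩ : ∃ t, t = S.sup t₀ := ⟨_, rfl⟩
  have h1 : ∀ Z ∈ S, (1/2 : ℝ) ^ (n + 1) + mass (QQ e t) (fun x => x.2.length = n) ≤
      2 ^ (e + 6) * mass (QQ e t) (fun x => x.2 = seg Z n) := by
    intro Z hZ
    have h2 := hS hZ n t
    have h3 := ht₀ Z hZ t (by rw [ht]; exact Finset.le_sup hZ)
    have h4 : (2 : ℝ) ^ (e + 6) = 2 ^ (e + 5) * 2 := by rw [← pow_succ]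
    have h5 : (0 : ℝ) < 2 ^ (e + 5) := by positivity
    have h6 := mul_le_mul_of_nonneg_left h3 h5.le
    rw [h4]
    linarith
  have h2 := Finset.sum_le_sum h1
  rw [Finset.sum_const, hcard, ← Finset.mul_sum, nsmul_eq_mul] at h2
  have h3 : ∑ Z ∈ S, mass (QQ e t) (fun x => x.2 = seg Z n) ≤
      mass (QQ e t) (fun x => x.2.length = n) := by
    apply sum_mass_le
    · intro x _ Z _ h
      rw [h, length_seg]
    · intro x _ Z hZ Z' hZ' h h'
      exact hn Z hZ Z' hZ' (h.symm.trans h')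
  push_cast at h2
  have h4 : (0 : ℝ) < 2 ^ (e + 6) := by positivity
  have h5 : (0 : ℝ) < (1/2) ^ (n + 1) := by positivity
  have h6 := le_of_mul_le_mul_left h2 h4
  linarith

theorem ZZ_isolated {e : ℕ} {B : ℕ → Bool} (hB : B ∈ ZZ e) :
    ∃ n₀, ∀ Z ∈ ZZ e, seg Z n₀ = seg B n₀ → Z = B := by
  obtain ⟨n, hn⟩ := separate (ZZ_finite e).toFinset
  refine ⟨n, fun Z hZ h => hn Z ?_ B ?_ h⟩
  · simpa using hZ
  · simpa using hB

theorem scale_iff {D m c : ℕ} {Q : List Ent} (hQ : ∀ x ∈ Q, x.1.length ≤ D) (hm : m ≤ D)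
    (p q : Ent → Prop) [DecidablePred p] [DecidablePred q] :
    2 ^ (D - m) + massN D Q p ≤ c * massN D Q q ↔
      (1/2 : ℝ) ^ m + mass Q p ≤ c * mass Q q := by
  rw [← Nat.cast_le (α := ℝ)]
  push_cast
  have h2 : ((2 : ℝ) ^ (D - m)) = 2 ^ D * (1/2 : ℝ) ^ m := by
    have := pow_sub_cast (D := D) (m := m) hm
    push_cast at this
    exact this
  rw [massN_cast hQ, massN_cast hQ, h2]
  have hD : (0 : ℝ) < 2 ^ D := by positivity
  constructor
  · intro h
    have h3 : 2 ^ D * ((1/2 : ℝ) ^ m + mass Q p) ≤ 2 ^ D * (c * mass Q q) := by linarith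
    exact le_of_mul_le_mul_left h3 hD
  · intro h
    have h3 := mul_le_mul_of_nonneg_left h hD.le
    linarith

theorem scale_iff' {D m c : ℕ} {Q : List Ent} (hQ : ∀ x ∈ Q, x.1.length ≤ D) (hm : m ≤ D)
    (q : Ent → Prop) [DecidablePred q] :
    2 ^ (D - m) ≤ c * massN D Q q ↔ (1/2 : ℝ) ^ m ≤ c * mass Q q := by
  rw [← Nat.cast_le (α := ℝ)]
  push_cast
  have h2 : ((2 : ℝ) ^ (D - m)) = 2 ^ D * (1/2 : ℝ) ^ m := by
    have := pow_sub_cast (D := D) (m := m) hm
    push_cast at this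
    exact this
  rw [massN_cast hQ, h2]
  have hD : (0 : ℝ) < 2 ^ D := by positivity
  constructor
  · intro h
    have h3 : 2 ^ D * ((1/2 : ℝ) ^ m) ≤ 2 ^ D * (c * mass Q q) := by linarith
    exact le_of_mul_le_mul_left h3 hD
  · intro h
    have h3 := mul_le_mul_of_nonneg_left h hD.le
    linarith

/-- the approximation to `B` -/
def GG (e : ℕ) (β : List Bool) (t : ℕ) (u : List Bool) : Bool :=
  decide ((u <+: β ∨ β <+: u) ∧ ∀ n < u.length + 1,
    2 ^ ((t + u.length + 1) - (n + 1)) +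
      massN (t + u.length + 1) (QQ e t) (fun x => x.2.length = n) ≤
      2 ^ (e + 5) * massN (t + u.length + 1) (QQ e t) (fun x => x.2 = u.take n))

theorem GG_iff {e : ℕ} {β : List Bool} {t : ℕ} {u : List Bool} : GG e β t u = true ↔
    (u <+: β ∨ β <+: u) ∧ ∀ n < u.length + 1,
      (1/2 : ℝ) ^ (n + 1) + mass (QQ e t) (fun x => x.2.length = n) ≤
        2 ^ (e + 5) * mass (QQ e t) (fun x => x.2 = u.take n) := by
  unfold GG
  rw [decide_eq_true_eq]
  apply and_congr_right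
  intro _
  apply forall_congr'; intro n
  apply forall_congr'; intro hn
  rw [scale_iff (fun x hx => by have := QQ_length hx; omega) (by omega)]
  push_cast
  rfl

def HH (e t i : ℕ) (q : List Bool) : Bool :=
  decide (∃ x ∈ QQ e t, dom i (q.length / 2) x.2 ∧ (out i x.2).take (2 * (q.length / 2)) = q ∧
    2 ^ ((t + i + q.length + 1) - (i + q.length / 2 + 1)) ≤
      2 ^ (e + 5) * massN (t + i + q.length + 1) (QQ e t) (fun y => y.2 = x.2))

theorem HH_iff {e t i : ℕ} {q : List Bool} : HH e t i q = true ↔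
    ∃ x ∈ QQ e t, dom i (q.length / 2) x.2 ∧ (out i x.2).take (2 * (q.length / 2)) = q ∧
      (1/2 : ℝ) ^ (i + q.length / 2 + 1) ≤ 2 ^ (e + 5) * mass (QQ e t) (fun y => y.2 = x.2) := by
  unfold HH
  rw [decide_eq_true_eq]
  apply exists_congr; intro x
  apply and_congr_right; intro _
  apply and_congr_right; intro _
  apply and_congr_right; intro _
  rw [scale_iff' (fun x hx => by have := QQ_length hx; omega) (by omega)]
  push_cast
  rfl

def LL (e i : ℕ) (p : List Bool) : ℕ := 2 * (p.length + i + e + 7)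

theorem GG_one {e : ℕ} {β : List Bool} (s : ℕ) (u u' : List Bool) (hu : u' <+: u)
    (h : GG e β s u = true) : GG e β s u' = true := by
  rw [GG_iff] at h ⊢
  obtain ⟨h1, h2⟩ := h
  refine ⟨?_, ?_⟩
  · rcases h1 with h1 | h1
    · exact Or.inl (hu.trans h1)
    · exact List.prefix_or_prefix_of_prefix hu h1
  · intro n hn
    have h3 := h2 n (by have := hu.length_le; omega)
    have h4 : u.take n = u'.take n := by
      obtain ⟨w, hw⟩ := hu
      rw [← hw, List.take_append_of_le_length (by omega)]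
    rwa [h4] at h3

theorem mem_ZZ {B X : ℕ → Bool} {e : ℕ} (hX : ∀ n, FF (seg X n) (seg B n) = true)
    (hR : Red e X B) : B ∈ ZZ e := by
  intro n t
  have h1 := cap_le_cinf hX hR n t
  unfold capR at h1
  rw [length_seg] at h1
  have h2 := WR_nonneg (seg B n)
  have h3 : 0 ≤ cinf e (seg B n) := (mass_nonneg _ _).trans (mass_le_cinf e 0 _)
  have h4 : (2 : ℝ) ^ (e + 5) = 2 ^ (e + 4) * 2 := by rw [← pow_succ]
  have h5 : 0 ≤ 2 ^ (e + 4) * cinf e (seg B n) := by positivity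
  rw [h4]
  linarith

theorem GG_two {B X : ℕ → Bool} {e : ℕ} (hX : ∀ n, FF (seg X n) (seg B n) = true)
    (hR : Red e X B) (n₀ n : ℕ) : ∃ s₀, ∀ s ≥ s₀, GG e (seg B n₀) s (seg B n) = true := by
  have h1 : ∀ m : ℕ, ∃ s₀, ∀ s ≥ s₀,
      (1/2 : ℝ) ^ (m + 1) + mass (QQ e s) (fun x => x.2.length = m) ≤
        2 ^ (e + 5) * mass (QQ e s) (fun x => x.2 = seg B m) := by
    intro m
    have hpos : 0 < cinf e (seg B m) := by
      have h2 := mem_ZZ hX hR m 0
      rw [QQ_zero, mass_nil, add_zero] at h2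
      have h3 : (0 : ℝ) < (1/2) ^ (m + 1) := by positivity
      exact (mul_pos_iff_of_pos_left (by positivity)).mp (lt_of_lt_of_le h3 h2)
    obtain ⟨s₀, hs⟩ := half_le hpos
    refine ⟨s₀, fun s hss => ?_⟩
    have h2 := hs s hss
    have h3 := cap_le_cinf hX hR m s
    unfold capR at h3
    rw [length_seg] at h3
    have h4 := WR_nonneg (seg B m)
    have h5 : (2 : ℝ) ^ (e + 5) = 2 ^ (e + 4) * 2 := by rw [← pow_succ]
    have h6 : (0 : ℝ) < 2 ^ (e + 4) := by positivity
    have h7 := mul_le_mul_of_nonneg_left h2 h6.le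
    rw [h5]
    linarith
  choose s₀ hs₀ using h1
  refine ⟨(Finset.range (n + 1)).sup s₀, fun s hs => ?_⟩
  rw [GG_iff]
  refine ⟨?_, ?_⟩
  · rcases le_total n n₀ with h | h
    · exact Or.inl (seg_prefix_seg B h)
    · exact Or.inr (seg_prefix_seg B h)
  · intro m hm
    rw [length_seg] at hm
    rw [take_seg B n m (by omega)]
    apply hs₀
    exact le_trans (Finset.le_sup (Finset.mem_range.mpr hm)) hs

theorem GG_three {B : ℕ → Bool} {e n₀ : ℕ} (hiso : ∀ Z ∈ ZZ e, seg Z n₀ = seg B n₀ → Z = B)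
    (Z : ℕ → Bool) (hZ : ∀ n s₀, ∃ s ≥ s₀, GG e (seg B n₀) s (seg Z n) = true) : Z = B := by
  apply hiso
  · intro n t
    obtain ⟨s, hs, h1⟩ := hZ n t
    have h2 := (GG_iff.mp h1).2 n (by rw [length_seg]; omega)
    rw [take_seg Z n n le_rfl] at h2
    have h3 := mass_QQ_mono e (fun x => x.2.length = n) hs
    simp only at h3
    have h4 := mass_le_cinf e s (seg Z n)
    have h5 : (0 : ℝ) < 2 ^ (e + 5) := by positivity
    have h6 := mul_le_mul_of_nonneg_left h4 h5.le
    linarith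
  · obtain ⟨s, _, h1⟩ := hZ n₀ 0
    rcases (GG_iff.mp h1).1 with h2 | h2
    · exact h2.eq_of_length (by rw [length_seg, length_seg])
    · exact (h2.eq_of_length (by rw [length_seg, length_seg])).symm

theorem HH_mono {e : ℕ} (t i : ℕ) (q : List Bool) (h : HH e t i q = true) :
    HH e (t + 1) i q = true := by
  rw [HH_iff] at h ⊢
  obtain ⟨x, h1, h2, h3, h4⟩ := h
  refine ⟨x, QQ_mono_succ h1, h2, h3, ?_⟩
  have h5 := mass_QQ_mono_succ e t (fun y => y.2 = x.2)
  have h6 : (0 : ℝ) < 2 ^ (e + 5) := by positivity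
  have h7 := mul_le_mul_of_nonneg_left h5 h6.le
  linarith

theorem HH_two {e : ℕ} (t i : ℕ) (p : List Bool) :
    ∃ q, p <+: q ∧ q.length = LL e i p ∧ HH e t i q = false := by
  by_contra hcon
  push Not at hcon
  obtain ⟨k, hk⟩ : ∃ k, k = p.length + i + e + 7 := ⟨_, rfl⟩
  obtain ⟨m, hm⟩ : ∃ m, m = 2 * k - p.length := ⟨_, rfl⟩
  have hq : ∀ r : Fin m → Bool, ∃ x ∈ QQ e t,
      (out i x.2).take (2 * k) = p ++ List.ofFn r ∧
      (1/2 : ℝ) ^ (i + k + 1) ≤ 2 ^ (e + 5) * mass (QQ e t) (fun y => y.2 = x.2) := by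
    intro r
    have hlen : (p ++ List.ofFn r).length = 2 * k := by
      rw [List.length_append, List.length_ofFn]; omega
    have h1 := hcon (p ++ List.ofFn r) (List.prefix_append _ _) (by rw [hlen]; unfold LL; omega)
    have h2 : HH e t i (p ++ List.ofFn r) = true := by simpa using h1
    rw [HH_iff, hlen] at h2
    obtain ⟨x, h3, h4, h5, h6⟩ := h2
    have h7 : 2 * k / 2 = k := by omega
    rw [h7] at h5 h6
    exact ⟨x, h3, h5, h6⟩
  choose x hx1 hx2 hx3 using hq
  have h1 : ∑ r : Fin m → Bool, mass (QQ e t) (fun y => y.2 = (x r).2) ≤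
      mass (QQ e t) (fun _ => True) := by
    apply sum_mass_le
    · intro _ _ _ _ _; trivial
    · intro y _ r _ r' _ h h'
      have h2 : (x r).2 = (x r').2 := h.symm.trans h'
      have h3 : p ++ List.ofFn r = p ++ List.ofFn r' := by rw [← hx2, ← hx2, h2]
      exact List.ofFn_injective (List.append_cancel_left h3)
  have h2 := mass_QQ_le_one e t (fun _ => True)
  have h3 : ∑ _r : Fin m → Bool, (1/2 : ℝ) ^ (i + k + 1) ≤
      ∑ r : Fin m → Bool, 2 ^ (e + 5) * mass (QQ e t) (fun y => y.2 = (x r).2) :=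
    Finset.sum_le_sum (fun r _ => hx3 r)
  rw [← Finset.mul_sum, Finset.sum_const, nsmul_eq_mul, Finset.card_univ, Fintype.card_fun,
    Fintype.card_bool, Fintype.card_fin] at h3
  push_cast at h3
  have h5 : (0 : ℝ) < 2 ^ (e + 5) := by positivity
  have h6 : (2 : ℝ) ^ m * (1/2 : ℝ) ^ (i + k + 1) ≤ 2 ^ (e + 5) := by
    have h7 := mul_le_mul_of_nonneg_left (h1.trans h2) h5.le
    linarith
  have h8 : m = (i + k + 1) + (e + 6 + (m - (i + k + 1 + e + 6))) := by omega
  have h9 : (2 : ℝ) ^ m * (1/2 : ℝ) ^ (i + k + 1) = 2 ^ (e + 6 + (m - (i + k + 1 + e + 6))) := by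
    conv_lhs => rw [h8]
    rw [pow_add, mul_comm ((2 : ℝ) ^ (i + k + 1)) _, mul_assoc, ← mul_pow]
    norm_num
  rw [h9] at h6
  have h10 : (2 : ℝ) ^ (e + 5) < 2 ^ (e + 6 + (m - (i + k + 1 + e + 6))) :=
    pow_lt_pow_right₀ (by norm_num) (by omega)
  linarith

theorem WR_ge {i k : ℕ} {σ : List Bool} (h : dom i k σ) : (1/2 : ℝ) ^ (i + k + 1) ≤ WR σ := by
  have h1 := h.1.1
  have h2 := h.1.2
  have h3 := length_out_le i σ
  unfold WR
  have hnn : ∀ i k : ℕ, 0 ≤ (if dom i k σ then (1/2 : ℝ) ^ (i + k + 1) else 0) := by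
    intro i k
    split_ifs
    · positivity
    · exact le_rfl
  have h4 : (∑ k ∈ Finset.range (σ.length + 1),
      (if dom i k σ then (1/2 : ℝ) ^ (i + k + 1) else 0)) ≤
      ∑ i ∈ Finset.range (σ.length + 1), ∑ k ∈ Finset.range (σ.length + 1),
        (if dom i k σ then (1/2 : ℝ) ^ (i + k + 1) else 0) :=
    Finset.single_le_sum (f := fun i => ∑ k ∈ Finset.range (σ.length + 1),
        (if dom i k σ then (1/2 : ℝ) ^ (i + k + 1) else 0))
      (fun i _ => Finset.sum_nonneg (fun k _ => hnn i k)) (Finset.mem_range.mpr (by omega))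
  have h5 : (if dom i k σ then (1/2 : ℝ) ^ (i + k + 1) else 0) ≤
      ∑ k ∈ Finset.range (σ.length + 1), (if dom i k σ then (1/2 : ℝ) ^ (i + k + 1) else 0) :=
    Finset.single_le_sum (f := fun k => (if dom i k σ then (1/2 : ℝ) ^ (i + k + 1) else 0))
      (fun k _ => hnn i k) (Finset.mem_range.mpr (by omega))
  rw [if_pos h] at h5
  exact h5.trans h4

theorem HH_three {B X : ℕ → Bool} {e : ℕ} (hX : ∀ n, FF (seg X n) (seg B n) = true)
    (hR : Red e X B) (i : ℕ) (Y : ℕ → Bool) (hY : Red i B Y) (p : List Bool) (_hp : Pre p Y) :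
    ∃ t, HH e t i (seg Y (LL e i p)) = true := by
  obtain ⟨k, hk⟩ : ∃ k, k = p.length + i + e + 7 := ⟨_, rfl⟩
  have hL : LL e i p = 2 * k := by unfold LL; rw [hk]
  rw [hL]
  obtain ⟨k₀, hk₀⟩ := hY.exists_length (2 * k)
  have hex : ∃ n, prd i k (seg B n) := by
    refine ⟨max k₀ i, ?_, ?_⟩
    · rw [length_seg]; exact le_max_right _ _
    · exact hk₀ _ (le_max_left _ _)
  classical
  obtain ⟨n, hn⟩ : ∃ n, n = Nat.find hex := ⟨_, rfl⟩
  have hprd : prd i k (seg B n) := by rw [hn]; exact Nat.find_spec hex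
  have hlo := length_out_le i (seg B n)
  rw [length_seg] at hlo
  have hn1 : 1 ≤ n := by have := hprd.2; omega
  have hdom : dom i k (seg B n) := by
    refine ⟨hprd, ?_⟩
    rw [length_seg, take_seg B n (n-1) (by omega)]
    apply Nat.find_min hex
    omega
  have hbig : (1/2 : ℝ) ^ (i + k + 1) ≤ 2 ^ (e + 4) * cinf e (seg B n) := by
    have h1 := cap_le_cinf hX hR n 0
    unfold capR at h1
    have h2 := WR_ge hdom
    have h3 := mass_nonneg (QQ e 0) (fun x => x.2.length = (seg B n).length)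
    have h4 : (0 : ℝ) ≤ (1/2) ^ ((seg B n).length + 1) := by positivity
    linarith
  have hpos : 0 < cinf e (seg B n) := by
    have h3 : (0 : ℝ) < (1/2) ^ (i + k + 1) := by positivity
    exact (mul_pos_iff_of_pos_left (by positivity)).mp (lt_of_lt_of_le h3 hbig)
  obtain ⟨t, ht⟩ := half_le hpos
  have h1 := ht t le_rfl
  refine ⟨t, ?_⟩
  rw [HH_iff, length_seg]
  have h2 : 2 * k / 2 = k := by omega
  rw [h2]
  have hmem : ∃ x ∈ QQ e t, x.2 = seg B n := by
    by_contra hcon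
    push Not at hcon
    have h3 : mass (QQ e t) (fun x => x.2 = seg B n) ≤ 0 := by
      calc _ ≤ mass (QQ e t) (fun _ => False) := mass_mono (fun x hx h => hcon x hx h)
        _ ≤ 0 := by
          apply le_of_eq
          unfold mass
          simp
    linarith
  obtain ⟨x, hx, hx2⟩ := hmem
  refine ⟨x, hx, ?_, ?_, ?_⟩
  · rw [hx2]; exact hdom
  · rw [hx2]
    have h3 : Pre ((out i (seg B n)).take (2 * k)) Y :=
      (hY.pre_out (pre_seg B n)).of_prefix (List.take_prefix _ _)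
    have h4 : ((out i (seg B n)).take (2 * k)).length = 2 * k := by
      rw [List.length_take]; have := hprd.2; omega
    have h5 : seg Y ((out i (seg B n)).take (2 * k)).length = (out i (seg B n)).take (2 * k) := h3
    rw [h4] at h5
    exact h5.symm
  · rw [hx2]
    have h5 : (2 : ℝ) ^ (e + 5) = 2 ^ (e + 4) * 2 := by rw [← pow_succ]
    have h6 : (0 : ℝ) < 2 ^ (e + 4) := by positivity
    have h7 := mul_le_mul_of_nonneg_left h1 h6.le
    rw [h5]
    linarith

end Pool.Agent.Helper854
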