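import Pool.Agent.Helper854.PartOneC

set_option autoImplicit false

namespace Pool.Agent.Helper854

open Encodable

theorem primrec_two_pow : Primrec (fun n : ℕ => 2 ^ n) := by
  have h : Primrec₂ (fun a b : ℕ => a ^ b) := Primrec₂.unpaired'.mp Nat.Primrec.pow
  exact h.comp (Primrec.const 2) Primrec.id

theorem primrec_sum : Primrec (fun l : List ℕ => l.sum) := by
  have h := Primrec.list_foldr (α := List ℕ) (f := id) (g := fun _ => 0)
    (h := fun _ (p : ℕ × ℕ) => p.1 + p.2) Primrec.id (Primrec.const 0)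
    (Primrec.nat_add.comp (Primrec.fst.comp Primrec.snd) (Primrec.snd.comp Primrec.snd)).to₂
  exact h.of_eq (fun l => by
    show l.foldr (fun b s => b + s) 0 = l.sum
    induction l with
    | nil => rfl
    | cons a l ih => rw [List.foldr_cons, ih, List.sum_cons])

theorem primrec_prefix : PrimrecRel (fun u v : List Bool => u <+: v) := by
  have h : PrimrecPred (fun p : List Bool × List Bool => p.1 = p.2.take p.1.length) :=
    Primrec.eq.comp Primrec.fst (Primrec.list_take.comp (Primrec.list_length.comp Primrec.fst)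
      Primrec.snd)
  exact h.of_eq (fun p => List.prefix_iff_eq_take.symm)

theorem primrec_prd : PrimrecPred (fun p : ℕ × ℕ × List Bool => prd p.1 p.2.1 p.2.2) := by
  unfold prd
  apply PrimrecPred.and
  · exact Primrec.nat_le.comp Primrec.fst (Primrec.list_length.comp (Primrec.snd.comp Primrec.snd))
  · exact Primrec.nat_le.comp (Primrec.nat_mul.comp (Primrec.const 2)
      (Primrec.fst.comp Primrec.snd))
      (Primrec.list_length.comp (primrec_out.comp Primrec.fst (Primrec.snd.comp Primrec.snd)))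

theorem primrec_dom : PrimrecPred (fun p : ℕ × ℕ × List Bool => dom p.1 p.2.1 p.2.2) := by
  unfold dom
  apply PrimrecPred.and primrec_prd
  apply PrimrecPred.not
  have h : Primrec (fun p : ℕ × ℕ × List Bool =>
      (p.1, p.2.1, p.2.2.take (p.2.2.length - 1))) :=
    Primrec.pair Primrec.fst (Primrec.pair (Primrec.fst.comp Primrec.snd)
      (Primrec.list_take.comp (Primrec.nat_sub.comp (Primrec.list_length.comp
        (Primrec.snd.comp Primrec.snd)) (Primrec.const 1)) (Primrec.snd.comp Primrec.snd)))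
  exact primrec_prd.comp h

theorem primrec_WN : Primrec₂ WN := by
  unfold WN
  have hr : Primrec (fun p : ℕ × List Bool => List.range (p.2.length + 1)) :=
    Primrec.list_range.comp (Primrec.succ.comp (Primrec.list_length.comp Primrec.snd))
  have h1 : Primrec₂ (fun (p : (ℕ × List Bool) × ℕ) (k : ℕ) =>
      if dom p.2 k p.1.2 then 2 ^ (p.1.1 - (p.2 + k + 1)) else 0) := by
    have hd : PrimrecPred (fun q : ((ℕ × List Bool) × ℕ) × ℕ => dom q.1.2 q.2 q.1.1.2) :=
      primrec_dom.comp (Primrec.pair (Primrec.snd.comp Primrec.fst)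
        (Primrec.pair Primrec.snd (Primrec.snd.comp (Primrec.fst.comp Primrec.fst))))
    have hp : Primrec (fun q : ((ℕ × List Bool) × ℕ) × ℕ => 2 ^ (q.1.1.1 - (q.1.2 + q.2 + 1))) :=
      primrec_two_pow.comp (Primrec.nat_sub.comp (Primrec.fst.comp (Primrec.fst.comp Primrec.fst))
        (Primrec.succ.comp (Primrec.nat_add.comp (Primrec.snd.comp Primrec.fst) Primrec.snd)))
    exact Primrec.ite hd hp (Primrec.const 0)
  have h2 : Primrec₂ (fun (p : ℕ × List Bool) (i : ℕ) =>
      ((List.range (p.2.length + 1)).map (fun k =>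
        if dom i k p.2 then 2 ^ (p.1 - (i + k + 1)) else 0)).sum) :=
    primrec_sum.comp (Primrec.list_map (hr.comp Primrec.fst) h1)
  exact primrec_sum.comp (Primrec.list_map hr h2)

theorem primrec_massN {α : Type*} [Primcodable α] {fD : α → ℕ} {fQ : α → List Ent}
    {R : α → Ent → Prop} [∀ a, DecidablePred (R a)]
    (hD : Primrec fD) (hQ : Primrec fQ) (hR : PrimrecPred (fun p : α × Ent => R p.1 p.2)) :
    Primrec (fun a => massN (fD a) (fQ a) (R a)) := by
  unfold massN
  apply primrec_sum.comp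
  apply Primrec.list_map hQ
  have h1 : Primrec (fun p : α × Ent => if R p.1 p.2 then 2 ^ (fD p.1 - p.2.1.length) else 0) :=
    Primrec.ite hR (primrec_two_pow.comp (Primrec.nat_sub.comp (hD.comp Primrec.fst)
      (Primrec.list_length.comp (Primrec.fst.comp Primrec.snd)))) (Primrec.const 0)
  exact h1

/-- data `((e, D, Q, τ), σ)` -/
abbrev RD := (ℕ × ℕ × List Ent × List Bool) × List Bool

theorem primrec_room : PrimrecPred (fun p : RD =>
    room p.1.1 p.1.2.1 p.1.2.2.1 p.1.2.2.2 p.2) := by
  unfold room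
  have he : Primrec (fun p : RD => p.1.1) := Primrec.fst.comp Primrec.fst
  have hD : Primrec (fun p : RD => p.1.2.1) := Primrec.fst.comp (Primrec.snd.comp Primrec.fst)
  have hQ : Primrec (fun p : RD => p.1.2.2.1) :=
    Primrec.fst.comp (Primrec.snd.comp (Primrec.snd.comp Primrec.fst))
  have hτ : Primrec (fun p : RD => p.1.2.2.2) :=
    Primrec.snd.comp (Primrec.snd.comp (Primrec.snd.comp Primrec.fst))
  have hσ : Primrec (fun p : RD => p.2) := Primrec.snd
  have h1 : Primrec (fun p : RD => massN p.1.2.1 p.1.2.2.1 (fun x => x.2 = p.2)) :=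
    primrec_massN hD hQ (Primrec.eq.comp (Primrec.snd.comp Primrec.snd) (hσ.comp Primrec.fst))
  have h2 : Primrec (fun p : RD => massN p.1.2.1 p.1.2.2.1 (fun x => x.2.length = p.2.length)) :=
    primrec_massN hD hQ (Primrec.eq.comp (Primrec.list_length.comp (Primrec.snd.comp Primrec.snd))
      (Primrec.list_length.comp (hσ.comp Primrec.fst)))
  apply Primrec.nat_le.comp
  · apply Primrec.nat_mul.comp
    · exact primrec_two_pow.comp (Primrec.nat_add.comp he (Primrec.const 4))
    · exact Primrec.nat_add.comp h1 (primrec_two_pow.comp (Primrec.nat_sub.comp hD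
        (Primrec.list_length.comp hτ)))
  · apply Primrec.nat_add.comp
    · apply Primrec.nat_add.comp
      · exact primrec_two_pow.comp (Primrec.nat_sub.comp hD
          (Primrec.succ.comp (Primrec.list_length.comp hσ)))
      · exact h2
    · exact primrec_WN.comp hD hσ

/-- data `(e, D, Q, τ)` -/
abbrev PD := ℕ × ℕ × List Ent × List Bool

theorem primrec_pick : Primrec (fun p : PD => pick p.1 p.2.1 p.2.2.1 p.2.2.2) := by
  unfold pick
  have he : Primrec (fun p : PD => p.1) := Primrec.fst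
  have hQ : Primrec (fun p : PD => p.2.2.1) :=
    Primrec.fst.comp (Primrec.snd.comp Primrec.snd)
  have hτ : Primrec (fun p : PD => p.2.2.2) :=
    Primrec.snd.comp (Primrec.snd.comp Primrec.snd)
  have ho : Primrec (fun p : PD => out p.1 p.2.2.2) := primrec_out.comp he hτ
  have h1 : PrimrecPred (fun p : PD => ∃ x ∈ p.2.2.1, x.1 <+: p.2.2.2) := by
    have hR : PrimrecRel (fun (x : Ent) (τ : List Bool) => x.1 <+: τ) :=
      primrec_prefix.comp (Primrec.fst.comp Primrec.fst) Primrec.snd
    exact (PrimrecRel.exists_mem_list hR).comp hQ hτ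
  apply Primrec.ite h1 (Primrec.const none)
  apply Primrec.list_head?.comp
  apply Primrec.listFilterMap
  · exact Primrec.list_range.comp (Primrec.succ.comp (Primrec.list_length.comp ho))
  · have ht : Primrec (fun q : PD × ℕ => (out q.1.1 q.1.2.2.2).take q.2) :=
      Primrec.list_take.comp Primrec.snd (ho.comp Primrec.fst)
    have hpr : Primrec (fun q : PD × ℕ => ((q.1, (out q.1.1 q.1.2.2.2).take q.2) : RD)) :=
      Primrec.pair Primrec.fst ht
    have hr : PrimrecPred (fun q : PD × ℕ =>
        room q.1.1 q.1.2.1 q.1.2.2.1 q.1.2.2.2 ((out q.1.1 q.1.2.2.2).take q.2)) :=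
      (primrec_room.comp hpr).of_eq (fun q => Iff.rfl)
    have h2 : Primrec (fun q : PD × ℕ =>
        if room q.1.1 q.1.2.1 q.1.2.2.1 q.1.2.2.2 ((out q.1.1 q.1.2.2.2).take q.2) then
          some ((out q.1.1 q.1.2.2.2).take q.2) else none) :=
      Primrec.ite hr (Primrec.option_some.comp ht) (Primrec.const none)
    exact h2

theorem primrec_nextQ : Primrec (fun p : ℕ × ℕ × List Ent => nextQ p.1 p.2.1 p.2.2) := by
  have hd : Primrec (fun p : ℕ × ℕ × List Ent => decode₂ (List Bool) p.2.1) :=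
    Primrec.decode₂.comp (Primrec.fst.comp Primrec.snd)
  have hQ : Primrec (fun p : ℕ × ℕ × List Ent => p.2.2) := Primrec.snd.comp Primrec.snd
  have hp : Primrec (fun q : (ℕ × ℕ × List Ent) × List Bool =>
      pick q.1.1 (2 * q.1.2.1 + 1) q.1.2.2 q.2) := by
    have h : Primrec (fun q : (ℕ × ℕ × List Ent) × List Bool =>
        (q.1.1, 2 * q.1.2.1 + 1, q.1.2.2, q.2)) :=
      Primrec.pair (Primrec.fst.comp Primrec.fst)
        (Primrec.pair (Primrec.succ.comp (Primrec.nat_mul.comp (Primrec.const 2)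
          (Primrec.fst.comp (Primrec.snd.comp Primrec.fst))))
          (Primrec.pair (hQ.comp Primrec.fst) Primrec.snd))
    exact primrec_pick.comp h
  have h1 : Primrec₂ (fun (p : ℕ × ℕ × List Ent) (τ : List Bool) =>
      (Option.casesOn (pick p.1 (2 * p.2.1 + 1) p.2.2 τ) p.2.2
        (fun σ => (τ, σ) :: p.2.2) : List Ent)) := by
    have hg : Primrec₂ (fun (q : (ℕ × ℕ × List Ent) × List Bool) (σ : List Bool) =>
        ((q.2, σ) :: q.1.2.2 : List Ent)) :=
      Primrec.list_cons.comp (Primrec.pair (Primrec.snd.comp Primrec.fst) Primrec.snd)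
        (hQ.comp (Primrec.fst.comp Primrec.fst))
    exact Primrec.option_casesOn hp (hQ.comp Primrec.fst) hg
  have h2 := Primrec.option_casesOn hd hQ h1
  refine h2.of_eq (fun p => ?_)
  unfold nextQ
  cases h3 : decode₂ (List Bool) p.2.1 with
  | none => simp
  | some τ =>
    cases h4 : pick p.1 (2 * p.2.1 + 1) p.2.2 τ with
    | none => simp [h4]
    | some σ => simp [h4]

theorem primrec_QQ : Primrec₂ QQ := by
  have h : Primrec₂ (fun (e : ℕ) (p : ℕ × List Ent) => nextQ e p.1 p.2) :=
    primrec_nextQ.comp (Primrec.pair Primrec.fst Primrec.snd)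
  exact Primrec.nat_rec (Primrec.const []) h

theorem primrec_FF : Primrec₂ FF := by
  have hlen : Primrec (fun p : List Bool × List Bool => p.1.length) :=
    Primrec.list_length.comp Primrec.fst
  have h1 : PrimrecPred (fun p : List Bool × List Bool => ∀ e < p.1.length,
      ∀ x ∈ QQ e p.1.length, ¬ (x.1 <+: p.1 ∧ x.2 <+: p.2)) := by
    have hR : PrimrecRel (fun (x : Ent) (p : List Bool × List Bool) =>
        ¬ (x.1 <+: p.1 ∧ x.2 <+: p.2)) := by
      have ha : PrimrecPred (fun q : Ent × (List Bool × List Bool) => q.1.1 <+: q.2.1) :=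
        primrec_prefix.comp (Primrec.fst.comp Primrec.fst) (Primrec.fst.comp Primrec.snd)
      have hb : PrimrecPred (fun q : Ent × (List Bool × List Bool) => q.1.2 <+: q.2.2) :=
        primrec_prefix.comp (Primrec.snd.comp Primrec.fst) (Primrec.snd.comp Primrec.snd)
      exact (ha.and hb).not
    have hR2 : PrimrecRel (fun (e : ℕ) (p : List Bool × List Bool) =>
        ∀ x ∈ QQ e p.1.length, ¬ (x.1 <+: p.1 ∧ x.2 <+: p.2)) :=
      (PrimrecRel.forall_mem_list hR).comp
        (primrec_QQ.comp Primrec.fst (hlen.comp Primrec.snd)) Primrec.snd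
    exact prim_forall_lt hR2 hlen
  have h2 : PrimrecPred (fun p : List Bool × List Bool => ∀ i < p.1.length,
      ¬ (i + 3 ≤ (out i p.2).length ∧ (out i p.2).take (i+3) <+: p.1)) := by
    have ho : Primrec (fun q : ℕ × (List Bool × List Bool) => out q.1 q.2.2) :=
      primrec_out.comp Primrec.fst (Primrec.snd.comp Primrec.snd)
    have h3 : Primrec (fun q : ℕ × (List Bool × List Bool) => q.1 + 3) :=
      Primrec.nat_add.comp Primrec.fst (Primrec.const 3)
    have hR : PrimrecRel (fun (i : ℕ) (p : List Bool × List Bool) =>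
        ¬ (i + 3 ≤ (out i p.2).length ∧ (out i p.2).take (i+3) <+: p.1)) := by
      have ha : PrimrecPred (fun q : ℕ × (List Bool × List Bool) =>
          q.1 + 3 ≤ (out q.1 q.2.2).length) :=
        Primrec.nat_le.comp h3 (Primrec.list_length.comp ho)
      have hb : PrimrecPred (fun q : ℕ × (List Bool × List Bool) =>
          (out q.1 q.2.2).take (q.1+3) <+: q.2.1) :=
        primrec_prefix.comp (Primrec.list_take.comp h3 ho) (Primrec.fst.comp Primrec.snd)
      exact (ha.and hb).not
    exact prim_forall_lt hR hlen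
  have h3 : PrimrecPred (fun p : List Bool × List Bool =>
      (∀ e < p.1.length, ∀ x ∈ QQ e p.1.length, ¬ (x.1 <+: p.1 ∧ x.2 <+: p.2)) ∧
      (∀ i < p.1.length, ¬ (i + 3 ≤ (out i p.2).length ∧ (out i p.2).take (i+3) <+: p.1))) :=
    h1.and h2
  exact h3.decide

theorem primrec_GG (e : ℕ) (β : List Bool) : Primrec₂ (GG e β) := by
  have hD : Primrec (fun q : ℕ × (ℕ × List Bool) => q.2.1 + q.2.2.length + 1) :=
    Primrec.succ.comp (Primrec.nat_add.comp (Primrec.fst.comp Primrec.snd)
      (Primrec.list_length.comp (Primrec.snd.comp Primrec.snd)))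
  have hQ : Primrec (fun q : ℕ × (ℕ × List Bool) => QQ e q.2.1) :=
    primrec_QQ.comp (Primrec.const e) (Primrec.fst.comp Primrec.snd)
  have hR : PrimrecRel (fun (n : ℕ) (p : ℕ × List Bool) =>
      2 ^ ((p.1 + p.2.length + 1) - (n + 1)) +
      massN (p.1 + p.2.length + 1) (QQ e p.1) (fun x => x.2.length = n) ≤
      2 ^ (e + 5) * massN (p.1 + p.2.length + 1) (QQ e p.1) (fun x => x.2 = p.2.take n)) := by
    have h1 : Primrec (fun q : ℕ × (ℕ × List Bool) =>
        massN (q.2.1 + q.2.2.length + 1) (QQ e q.2.1) (fun x => x.2.length = q.1)) :=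
      primrec_massN hD hQ (Primrec.eq.comp (Primrec.list_length.comp
        (Primrec.snd.comp Primrec.snd)) (Primrec.fst.comp Primrec.fst))
    have h2 : Primrec (fun q : ℕ × (ℕ × List Bool) =>
        massN (q.2.1 + q.2.2.length + 1) (QQ e q.2.1) (fun x => x.2 = q.2.2.take q.1)) :=
      primrec_massN hD hQ (Primrec.eq.comp (Primrec.snd.comp Primrec.snd)
        (Primrec.list_take.comp (Primrec.fst.comp Primrec.fst)
          (Primrec.snd.comp (Primrec.snd.comp Primrec.fst))))
    exact Primrec.nat_le.comp (Primrec.nat_add.comp (primrec_two_pow.comp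
      (Primrec.nat_sub.comp hD (Primrec.succ.comp Primrec.fst))) h1)
      (Primrec.nat_mul.comp (Primrec.const _) h2)
  have h3 : PrimrecPred (fun p : ℕ × List Bool => ∀ n < p.2.length + 1,
      2 ^ ((p.1 + p.2.length + 1) - (n + 1)) +
      massN (p.1 + p.2.length + 1) (QQ e p.1) (fun x => x.2.length = n) ≤
      2 ^ (e + 5) * massN (p.1 + p.2.length + 1) (QQ e p.1) (fun x => x.2 = p.2.take n)) :=
    prim_forall_lt hR (Primrec.succ.comp (Primrec.list_length.comp Primrec.snd))
  have h4 : PrimrecPred (fun p : ℕ × List Bool => p.2 <+: β ∨ β <+: p.2) :=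
    PrimrecPred.or (primrec_prefix.comp Primrec.snd (Primrec.const β))
      (primrec_prefix.comp (Primrec.const β) Primrec.snd)
  exact (h4.and h3).decide

theorem primrec_HH (e : ℕ) : Primrec (fun p : ℕ × ℕ × List Bool => HH e p.1 p.2.1 p.2.2) := by
  have ht : Primrec (fun q : Ent × (ℕ × ℕ × List Bool) => q.2.1) := Primrec.fst.comp Primrec.snd
  have hi : Primrec (fun q : Ent × (ℕ × ℕ × List Bool) => q.2.2.1) :=
    Primrec.fst.comp (Primrec.snd.comp Primrec.snd)
  have hq : Primrec (fun q : Ent × (ℕ × ℕ × List Bool) => q.2.2.2) :=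
    Primrec.snd.comp (Primrec.snd.comp Primrec.snd)
  have hk : Primrec (fun q : Ent × (ℕ × ℕ × List Bool) => q.2.2.2.length / 2) :=
    Primrec.nat_div.comp (Primrec.list_length.comp hq) (Primrec.const 2)
  have hD : Primrec (fun q : Ent × (ℕ × ℕ × List Bool) => q.2.1 + q.2.2.1 + q.2.2.2.length + 1) :=
    Primrec.succ.comp (Primrec.nat_add.comp (Primrec.nat_add.comp ht hi)
      (Primrec.list_length.comp hq))
  have hQ : Primrec (fun q : Ent × (ℕ × ℕ × List Bool) => QQ e q.2.1) :=
    primrec_QQ.comp (Primrec.const e) ht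
  have h1 : PrimrecPred (fun q : Ent × (ℕ × ℕ × List Bool) =>
      dom q.2.2.1 (q.2.2.2.length / 2) q.1.2) :=
    primrec_dom.comp (Primrec.pair hi (Primrec.pair hk (Primrec.snd.comp Primrec.fst)))
  have h2 : PrimrecPred (fun q : Ent × (ℕ × ℕ × List Bool) =>
      (out q.2.2.1 q.1.2).take (2 * (q.2.2.2.length / 2)) = q.2.2.2) :=
    Primrec.eq.comp (Primrec.list_take.comp (Primrec.nat_mul.comp (Primrec.const 2) hk)
      (primrec_out.comp hi (Primrec.snd.comp Primrec.fst))) hq
  have h3 : PrimrecPred (fun q : Ent × (ℕ × ℕ × List Bool) =>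
      2 ^ ((q.2.1 + q.2.2.1 + q.2.2.2.length + 1) - (q.2.2.1 + q.2.2.2.length / 2 + 1)) ≤
      2 ^ (e + 5) * massN (q.2.1 + q.2.2.1 + q.2.2.2.length + 1) (QQ e q.2.1)
        (fun y => y.2 = q.1.2)) := by
    have h4 : Primrec (fun q : Ent × (ℕ × ℕ × List Bool) =>
        massN (q.2.1 + q.2.2.1 + q.2.2.2.length + 1) (QQ e q.2.1) (fun y => y.2 = q.1.2)) :=
      primrec_massN hD hQ (Primrec.eq.comp (Primrec.snd.comp Primrec.snd)
        (Primrec.snd.comp (Primrec.fst.comp Primrec.fst)))
    exact Primrec.nat_le.comp (primrec_two_pow.comp (Primrec.nat_sub.comp hD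
      (Primrec.succ.comp (Primrec.nat_add.comp hi hk))))
      (Primrec.nat_mul.comp (Primrec.const _) h4)
  have hR : PrimrecRel (fun (x : Ent) (p : ℕ × ℕ × List Bool) =>
      dom p.2.1 (p.2.2.length / 2) x.2 ∧
      (out p.2.1 x.2).take (2 * (p.2.2.length / 2)) = p.2.2 ∧
      2 ^ ((p.1 + p.2.1 + p.2.2.length + 1) - (p.2.1 + p.2.2.length / 2 + 1)) ≤
      2 ^ (e + 5) * massN (p.1 + p.2.1 + p.2.2.length + 1) (QQ e p.1) (fun y => y.2 = x.2)) :=
    h1.and (h2.and h3)
  have h5 : PrimrecPred (fun p : ℕ × ℕ × List Bool => ∃ x ∈ QQ e p.1,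
      dom p.2.1 (p.2.2.length / 2) x.2 ∧
      (out p.2.1 x.2).take (2 * (p.2.2.length / 2)) = p.2.2 ∧
      2 ^ ((p.1 + p.2.1 + p.2.2.length + 1) - (p.2.1 + p.2.2.length / 2 + 1)) ≤
      2 ^ (e + 5) * massN (p.1 + p.2.1 + p.2.2.length + 1) (QQ e p.1) (fun y => y.2 = x.2)) :=
    (PrimrecRel.exists_mem_list hR).comp (primrec_QQ.comp (Primrec.const e) Primrec.fst) Primrec.id
  exact h5.decide

theorem primrec_LL (e : ℕ) : Primrec₂ (LL e) := by
  unfold LL
  have h : Primrec (fun p : ℕ × List Bool => 2 * (p.2.length + p.1 + e + 7)) :=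
    Primrec.nat_mul.comp (Primrec.const 2) (Primrec.nat_add.comp (Primrec.nat_add.comp
      (Primrec.nat_add.comp (Primrec.list_length.comp Primrec.snd) Primrec.fst)
      (Primrec.const e)) (Primrec.const 7))
  exact h

/-- the second case of the dichotomy -/
theorem case_two {B X : ℕ → Bool} (hB : ¬ Computable B) {e : ℕ}
    (hX : ∀ n, FF (seg X n) (seg B n) = true) (hR : Red e X B) :
    ∃ T : List Bool → Bool, Primrec T ∧ (∃ f, ∀ n, T (seg f n) = true) ∧
      ∀ f, (∀ n, T (seg f n) = true) → ∀ e, ¬ Red e f B ∧ ¬ Red e B f := by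
  obtain ⟨n₀, hn₀⟩ := ZZ_isolated (mem_ZZ hX hR)
  exact partTwo B hB (primrec_GG e (seg B n₀)) (primrec_HH e) (primrec_LL e)
    (fun i p => by unfold LL; omega) (fun s u u' hu h => GG_one s u u' hu h)
    (fun n => GG_two hX hR n₀ n) (fun Z hZ => GG_three hn₀ Z hZ)
    (fun t i q h => HH_mono t i q h) (fun t i p => HH_two t i p)
    (fun i Y hY p hp => HH_three hX hR i Y hY p hp)

end Pool.Agent.Helper854
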