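import Pool.Agent.Helper854.Konig

set_option autoImplicit false

namespace Pool.Agent.Helper854

abbrev Chain := List (List Bool)
abbrev Node := List Bool × List (List Bool)

section defs

variable (G : ℕ → List Bool → Bool) (H : ℕ → ℕ → List Bool → Bool) (L : ℕ → List Bool → ℕ)

/-- entry `j` of a chain -/
def ent (c : Chain) (j : ℕ) : List Bool := c.getD j []

def unhit (s : ℕ) (x : Node) : Bool :=
  decide (∀ j < x.2.length - 1, H s j (x.1.take (L j (ent x.2 j))) = false)

def wit (s : ℕ) (A : List Node) (a : Chain) : Option (List Bool) :=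
  if G s (out (a.length - 1) (ent a (a.length - 1))) = true then
    (A.filterMap (fun y => if unhit H L s y = true ∧ y.2.take a.length = a ∧
      out (a.length - 1) y.1 ≠ out (a.length - 1) (ent a (a.length - 1)) then some y.1 else none)).head?
  else none

def act (s : ℕ) (A : List Node) (c : Chain) : Option (ℕ × List Bool) :=
  ((List.range c.length).filterMap (fun j => (wit G H L s A (c.take (j+1))).map (fun η => (j, η)))).head?

def newc (s : ℕ) (A : List Node) (x : Node) (b : Bool) : Option Chain :=
  match act G H L s A x.2 with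
  | some (j, η) => if x.1 = η then some (x.2.take j ++ [x.1]) else none
  | none => some (if x.1.length + 1 = L (x.2.length - 1) (ent x.2 (x.2.length - 1))
      then x.2 ++ [x.1 ++ [b]] else x.2)

def step (s : ℕ) (A : List Node) (x : Node) : List Node :=
  [false, true].filterMap (fun b => (newc G H L s A x b).map (fun c => (x.1 ++ [b], c)))

def stA : ℕ → List Node :=
  fun n => Nat.rec [([], [[]])] (fun s A => A.flatMap (step G H L s A)) n

theorem stA_zero : stA G H L 0 = [([], [[]])] := rfl
theorem stA_succ (s : ℕ) : stA G H L (s+1) = (stA G H L s).flatMap (step G H L s (stA G H L s)) := rfl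

theorem mem_stA_succ {s : ℕ} {z : Node} : z ∈ stA G H L (s+1) ↔
    ∃ x ∈ stA G H L s, ∃ b, z.1 = x.1 ++ [b] ∧ newc G H L s (stA G H L s) x b = some z.2 := by
  rw [stA_succ, List.mem_flatMap]
  constructor
  · rintro ⟨x, hx, hz⟩
    refine ⟨x, hx, ?_⟩
    unfold step at hz
    rw [List.mem_filterMap] at hz
    obtain ⟨b, _, hb⟩ := hz
    rw [Option.map_eq_some_iff] at hb
    obtain ⟨c, hc, rfl⟩ := hb
    exact ⟨b, rfl, hc⟩
  · rintro ⟨x, hx, b, h1, h2⟩
    refine ⟨x, hx, ?_⟩
    unfold step
    rw [List.mem_filterMap]
    refine ⟨b, by cases b <;> simp, ?_⟩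
    rw [Option.map_eq_some_iff]
    exact ⟨z.2, h2, by rw [← h1]⟩

theorem act_some {s : ℕ} {A : List Node} {c : Chain} {j : ℕ} {η : List Bool} :
    act G H L s A c = some (j, η) ↔ j < c.length ∧ wit G H L s A (c.take (j+1)) = some η ∧
      ∀ i < j, wit G H L s A (c.take (i+1)) = none := by
  unfold act
  rw [head?_filterMap_range]
  constructor
  · rintro ⟨j', hj', h1, h2⟩
    rw [Option.map_eq_some_iff] at h1
    obtain ⟨η', h1, h3⟩ := h1
    cases h3
    refine ⟨hj', h1, fun i hi => ?_⟩
    have := h2 i hi
    rwa [Option.map_eq_none_iff] at this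
  · rintro ⟨hj, h1, h2⟩
    refine ⟨j, hj, by rw [h1]; rfl, fun i hi => ?_⟩
    rw [h2 i hi]; rfl

theorem act_none {s : ℕ} {A : List Node} {c : Chain} :
    act G H L s A c = none ↔ ∀ j < c.length, wit G H L s A (c.take (j+1)) = none := by
  unfold act
  rw [head?_filterMap_range_none]
  simp

theorem wit_spec {s : ℕ} {A : List Node} {a : Chain} {η : List Bool}
    (h : wit G H L s A a = some η) :
    G s (out (a.length - 1) (ent a (a.length - 1))) = true ∧
    ∃ y ∈ A, y.1 = η ∧ unhit H L s y = true ∧ y.2.take a.length = a ∧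
      out (a.length - 1) y.1 ≠ out (a.length - 1) (ent a (a.length - 1)) := by
  unfold wit at h
  split_ifs at h with h1
  refine ⟨h1, ?_⟩
  have := List.mem_of_mem_head? h
  rw [List.mem_filterMap] at this
  obtain ⟨y, hy, h2⟩ := this
  split_ifs at h2 with h3
  cases h2
  exact ⟨y, hy, rfl, h3⟩

theorem wit_isSome {s : ℕ} {A : List Node} {a : Chain} {y : Node} (hy : y ∈ A)
    (h1 : G s (out (a.length - 1) (ent a (a.length - 1))) = true)
    (h2 : unhit H L s y = true) (h3 : y.2.take a.length = a)
    (h4 : out (a.length - 1) y.1 ≠ out (a.length - 1) (ent a (a.length - 1))) :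
    wit G H L s A a ≠ none := by
  unfold wit
  rw [if_pos h1]
  intro h
  rw [List.head?_eq_none_iff, List.filterMap_eq_nil_iff] at h
  have := h y hy
  rw [if_pos ⟨h2, h3, h4⟩] at this
  cases this

theorem newc_cases {s : ℕ} {A : List Node} {x : Node} {b : Bool} {c : Chain}
    (h : newc G H L s A x b = some c) :
    (∃ j, act G H L s A x.2 = some (j, x.1) ∧ c = x.2.take j ++ [x.1]) ∨
    (act G H L s A x.2 = none ∧ x.1.length + 1 = L (x.2.length - 1) (ent x.2 (x.2.length - 1)) ∧
      c = x.2 ++ [x.1 ++ [b]]) ∨
    (act G H L s A x.2 = none ∧ x.1.length + 1 ≠ L (x.2.length - 1) (ent x.2 (x.2.length - 1)) ∧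
      c = x.2) := by
  unfold newc at h
  cases hact : act G H L s A x.2 with
  | none =>
    rw [hact] at h
    simp only at h
    right
    split_ifs at h with h1
    · left; exact ⟨rfl, h1, (Option.some.inj h).symm⟩
    · right; exact ⟨rfl, h1, (Option.some.inj h).symm⟩
  | some p =>
    obtain ⟨j, η⟩ := p
    rw [hact] at h
    simp only at h
    left
    split_ifs at h with h1
    subst h1
    exact ⟨j, rfl, (Option.some.inj h).symm⟩

theorem newc_of_act {s : ℕ} {A : List Node} {x : Node} {j : ℕ} (b : Bool)
    (h : act G H L s A x.2 = some (j, x.1)) :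
    newc G H L s A x b = some (x.2.take j ++ [x.1]) := by
  unfold newc
  rw [h]; simp

theorem newc_of_none {s : ℕ} {A : List Node} {x : Node} (b : Bool)
    (h : act G H L s A x.2 = none) :
    newc G H L s A x b = some (if x.1.length + 1 = L (x.2.length - 1) (ent x.2 (x.2.length - 1))
      then x.2 ++ [x.1 ++ [b]] else x.2) := by
  unfold newc
  rw [h]

end defs

theorem ent_take {c : Chain} {i j : ℕ} (h : i < j) : ent (c.take j) i = ent c i := by
  unfold ent
  rw [List.getD_eq_getElem?_getD, List.getD_eq_getElem?_getD, List.getElem?_take_of_lt h]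

theorem ent_append_left {c d : Chain} {i : ℕ} (h : i < c.length) : ent (c ++ d) i = ent c i := by
  unfold ent
  rw [List.getD_eq_getElem?_getD, List.getD_eq_getElem?_getD, List.getElem?_append_left h]

theorem ent_append_self {c : Chain} {p : List Bool} {i : ℕ} (h : c.length = i) :
    ent (c ++ [p]) i = p := by
  subst h
  unfold ent
  simp

/-- invariant of a node at stage `s` -/
structure Inv (L : ℕ → List Bool → ℕ) (s : ℕ) (x : Node) : Prop where
  len : x.1.length = s
  pos : 0 < x.2.length
  pre : ∀ j < x.2.length, ent x.2 j <+: x.1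
  grow : ∀ j, j + 1 < x.2.length → L j (ent x.2 j) ≤ (ent x.2 (j+1)).length
  small : s < L (x.2.length - 1) (ent x.2 (x.2.length - 1))

section thms

variable {G : ℕ → List Bool → Bool} {H : ℕ → ℕ → List Bool → Bool} {L : ℕ → List Bool → ℕ}

theorem inv_stA (hL : ∀ i p, p.length + 2 ≤ L i p) (s : ℕ) :
    ∀ x ∈ stA G H L s, Inv L s x := by
  induction s with
  | zero =>
    intro x hx
    rw [stA_zero, List.mem_singleton] at hx
    subst hx
    refine ⟨rfl, by simp, ?_, ?_, ?_⟩
    · intro j hj
      have : j = 0 := by simpa using hj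
      subst this
      simp [ent]
    · intro j hj; simp at hj
    · have := hL 0 []
      simp only [List.length_nil] at this
      simp [ent]; omega
  | succ s ih =>
    intro z hz
    rw [mem_stA_succ] at hz
    obtain ⟨x, hx, b, hz1, hz2⟩ := hz
    have hI := ih x hx
    have hxz : x.1 <+: z.1 := by rw [hz1]; exact List.prefix_append _ _
    have hlen : z.1.length = s + 1 := by rw [hz1]; simp [hI.len]
    rcases newc_cases G H L hz2 with ⟨j, hact, hc⟩ | ⟨_, hcr, hc⟩ | ⟨_, hcr, hc⟩
    · obtain ⟨hj, _, _⟩ := (act_some G H L).mp hact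
      have hlt : (x.2.take j).length = j := by rw [List.length_take]; omega
      have hcl : z.2.length = j + 1 := by rw [hc]; simp; omega
      have hlast : ent z.2 j = x.1 := by rw [hc]; exact ent_append_self hlt
      have hlow : ∀ i < j, ent z.2 i = ent x.2 i := by
        intro i hi
        rw [hc, ent_append_left (by rw [hlt]; exact hi), ent_take hi]
      refine ⟨hlen, by omega, ?_, ?_, ?_⟩
      · intro i hi
        rcases Nat.lt_succ_iff_lt_or_eq.mp (hcl ▸ hi) with h | h
        · rw [hlow i h]; exact (hI.pre i (by omega)).trans hxz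
        · rw [h, hlast]; exact hxz
      · intro i hi
        rw [hcl] at hi
        rcases Nat.lt_succ_iff_lt_or_eq.mp hi with h | h
        · rw [hlow i (by omega), hlow (i+1) h]
          exact hI.grow i (by omega)
        · rw [hlow i (by omega), h, hlast]
          have h1 := hI.grow i (by omega)
          have h2 := (hI.pre (i+1) (by omega)).length_le
          omega
      · rw [hcl, Nat.add_sub_cancel, hlast]
        have := hL j x.1
        have := hI.len
        omega
    · have hcl : z.2.length = x.2.length + 1 := by rw [hc]; simp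
      have hlast : ent z.2 x.2.length = z.1 := by rw [hc, hz1]; exact ent_append_self rfl
      have hlow : ∀ i < x.2.length, ent z.2 i = ent x.2 i := by
        intro i hi
        rw [hc, ent_append_left hi]
      refine ⟨hlen, by omega, ?_, ?_, ?_⟩
      · intro i hi
        rcases Nat.lt_succ_iff_lt_or_eq.mp (hcl ▸ hi) with h | h
        · rw [hlow i h]; exact (hI.pre i h).trans hxz
        · rw [h, hlast]
      · intro i hi
        rw [hcl] at hi
        rcases Nat.lt_succ_iff_lt_or_eq.mp hi with h | h
        · rw [hlow i (by omega), hlow (i+1) h]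
          exact hI.grow i (by omega)
        · rw [hlow i (by omega), h, hlast, hlen, ← hI.len, hcr]
          have : i = x.2.length - 1 := by omega
          rw [this]
      · rw [hcl, Nat.add_sub_cancel, hlast]
        have := hL x.2.length z.1
        omega
    · refine ⟨hlen, by rw [hc]; exact hI.pos, ?_, by rw [hc]; exact hI.grow, ?_⟩
      · intro i hi; rw [hc] at hi ⊢; exact (hI.pre i hi).trans hxz
      · rw [hc]
        have h1 := hI.small
        have h2 := hI.len
        omega

theorem stA_unique (s : ℕ) : ∀ x ∈ stA G H L s, ∀ y ∈ stA G H L s, x.1 = y.1 → x = y := by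
  induction s with
  | zero =>
    intro x hx y hy _
    rw [stA_zero, List.mem_singleton] at hx hy
    rw [hx, hy]
  | succ s ih =>
    intro x hx y hy hxy
    rw [mem_stA_succ] at hx hy
    obtain ⟨x', hx', b, h1, h2⟩ := hx
    obtain ⟨y', hy', b', h3, h4⟩ := hy
    rw [h1, h3] at hxy
    obtain ⟨h5, h6⟩ := List.append_inj' hxy rfl
    have h7 : x' = y' := ih x' hx' y' hy' h5
    have h8 : b = b' := by simpa using h6
    subst h7; subst h8
    have h9 : x.2 = y.2 := by rw [h2] at h4; exact Option.some.inj h4
    exact Prod.ext (by rw [h1, h3]) h9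


theorem act_congr {s : ℕ} {A : List Node} {c d : Chain} {j : ℕ} {η : List Bool}
    (h : c.take (j+1) = d.take (j+1)) (hd : j < d.length)
    (hc : act G H L s A c = some (j, η)) : act G H L s A d = some (j, η) := by
  rw [act_some] at hc ⊢
  obtain ⟨h1, h2, h3⟩ := hc
  refine ⟨hd, by rw [← h]; exact h2, fun i hi => ?_⟩
  have : d.take (i+1) = c.take (i+1) := by
    have h4 := congrArg (List.take (i+1)) h
    rw [List.take_take, List.take_take, min_eq_left (by omega)] at h4
    exact h4.symm
  rw [this]
  exact h3 i hi

theorem take_eq_of_take_eq {c d : Chain} {i j : ℕ} (h : c.take j = d.take j) (hij : i ≤ j) :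
    c.take i = d.take i := by
  have h4 := congrArg (List.take i) h
  rwa [List.take_take, List.take_take, min_eq_left hij] at h4

theorem ent_eq_of_take_eq {c d : Chain} {i j : ℕ} (h : c.take j = d.take j) (hij : i < j) :
    ent c i = ent d i := by
  rw [← ent_take hij, h, ent_take hij]

theorem take_succ_eq {c d : Chain} {i : ℕ} (h : c.take i = d.take i) (hc : i < c.length)
    (hd : i < d.length) (he : ent c i = ent d i) : c.take (i+1) = d.take (i+1) := by
  rw [List.take_succ_eq_append_getElem hc, List.take_succ_eq_append_getElem hd, h]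
  unfold ent at he
  rw [List.getD_eq_getElem _ _ hc, List.getD_eq_getElem _ _ hd] at he
  rw [he]

theorem Inv.ent_prefix {s : ℕ} {x : Node} (hI : Inv L s x) (hL : ∀ i p, p.length + 2 ≤ L i p)
    {j : ℕ} (hj : j + 1 < x.2.length) : ent x.2 j <+: ent x.2 (j+1) := by
  apply List.prefix_of_prefix_length_le (hI.pre j (by omega)) (hI.pre (j+1) hj)
  have := hI.grow j hj
  have := hL j (ent x.2 j)
  omega

theorem Inv.ent_prefix_le {s : ℕ} {x : Node} (hI : Inv L s x) (hL : ∀ i p, p.length + 2 ≤ L i p)
    {i j : ℕ} (hij : i ≤ j) (hj : j < x.2.length) : ent x.2 i <+: ent x.2 j := by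
  induction j with
  | zero => have : i = 0 := by omega
            subst this; exact List.prefix_rfl
  | succ j ih =>
    rcases Nat.lt_or_ge i (j+1) with h | h
    · exact (ih (by omega) (by omega)).trans (hI.ent_prefix hL hj)
    · have : i = j + 1 := by omega
      subst this; exact List.prefix_rfl

/-- the type of the transition at level `i` -/
theorem level_cases {s : ℕ} {z x : Node} {b : Bool} (_hI : Inv L s x)
    (hz1 : z.1 = x.1 ++ [b]) (hz2 : newc G H L s (stA G H L s) x b = some z.2)
    {i : ℕ} (hi : i < z.2.length) :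
    (i < x.2.length ∧ z.2.take (i+1) = x.2.take (i+1) ∧ ent z.2 i = ent x.2 i ∧
      ∀ j ≤ i, ∀ η, act G H L s (stA G H L s) x.2 ≠ some (j, η)) ∨
    (i < x.2.length ∧ act G H L s (stA G H L s) x.2 = some (i, x.1) ∧ z.2 = x.2.take i ++ [x.1] ∧
      ent z.2 i = x.1) ∨
    (i = x.2.length ∧ x.1.length + 1 = L (i - 1) (ent x.2 (i - 1)) ∧ z.2 = x.2 ++ [z.1] ∧
      ent z.2 i = z.1 ∧ act G H L s (stA G H L s) x.2 = none) := by
  rcases newc_cases G H L hz2 with ⟨j, hact, hc⟩ | ⟨hact, hcr, hc⟩ | ⟨hact, hcr, hc⟩
  · obtain ⟨hj, _, _⟩ := (act_some G H L).mp hact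
    have hlt : (x.2.take j).length = j := by rw [List.length_take]; omega
    have hcl : z.2.length = j + 1 := by rw [hc]; simp; omega
    rcases Nat.lt_or_ge i j with h | h
    · left
      refine ⟨by omega, ?_, ?_, ?_⟩
      · rw [hc, List.take_append_of_le_length (by omega), List.take_take, min_eq_left (by omega)]
      · rw [hc, ent_append_left (by omega), ent_take h]
      · intro j' hj' η hcon
        rw [hact] at hcon
        have := (Prod.ext_iff.mp (Option.some.inj hcon)).1
        simp only at this
        omega
    · right; left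
      have : i = j := by omega
      subst this
      exact ⟨hj, hact, hc, by rw [hc]; exact ent_append_self hlt⟩
  · rcases Nat.lt_or_ge i x.2.length with h | h
    · left
      refine ⟨h, ?_, ?_, ?_⟩
      · rw [hc, List.take_append_of_le_length (by omega)]
      · rw [hc, ent_append_left h]
      · intro j' hj' η hcon
        rw [hact] at hcon; cases hcon
    · right; right
      have hcl : z.2.length = x.2.length + 1 := by rw [hc]; simp
      have : i = x.2.length := by omega
      subst this
      rw [← hz1] at hc
      exact ⟨rfl, hcr, hc, by rw [hc]; exact ent_append_self rfl, hact⟩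
  · left
    rw [hc] at hi ⊢
    refine ⟨hi, rfl, rfl, ?_⟩
    intro j' hj' η hcon
    rw [hact] at hcon; cases hcon

/-- uniqueness of the module position -/
theorem mod_unique (hL : ∀ i p, p.length + 2 ≤ L i p) (s : ℕ) :
    ∀ x ∈ stA G H L s, ∀ y ∈ stA G H L s, ∀ i, i < x.2.length → i < y.2.length →
      x.2.take i = y.2.take i →
      (∀ j, j + 1 = i → (ent x.2 i).take (L j (ent x.2 j)) = (ent y.2 i).take (L j (ent y.2 j))) →
      ent x.2 i = ent y.2 i := by
  induction s with
  | zero =>
    intro x hx y hy i _ _ _ _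
    rw [stA_zero, List.mem_singleton] at hx hy
    rw [hx, hy]
  | succ s ih =>
    intro z hz w hw i hiz hiw htake hstart
    have hIz := inv_stA hL (s+1) z hz
    have hIw := inv_stA hL (s+1) w hw
    rw [mem_stA_succ] at hz hw
    obtain ⟨x, hx, b, hz1, hz2⟩ := hz
    obtain ⟨y, hy, b', hw1, hw2⟩ := hw
    have hIx := inv_stA hL s x hx
    have hIy := inv_stA hL s y hy
    -- symmetric treatment
    have key : ∀ (z x w y : Node) (b b' : Bool), x ∈ stA G H L s → y ∈ stA G H L s →
        Inv L s x → Inv L s y → Inv L (s+1) z → Inv L (s+1) w →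
        z.1 = x.1 ++ [b] → newc G H L s (stA G H L s) x b = some z.2 →
        w.1 = y.1 ++ [b'] → newc G H L s (stA G H L s) y b' = some w.2 →
        i < z.2.length → i < w.2.length → z.2.take i = w.2.take i →
        (∀ j, j + 1 = i → (ent z.2 i).take (L j (ent z.2 j)) = (ent w.2 i).take (L j (ent w.2 j))) →
        i < x.2.length → i < y.2.length ∧ x.2.take i = y.2.take i ∧ ent x.2 i = ent y.2 i := by
      intro z x w y b b' hx hy hIx hIy hIz hIw hz1 hz2 hw1 hw2 hiz hiw htake hstart hix
      -- the entry of x at i is a prefix of the entry of z at i and contains the start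
      have hxz : x.2.take i = z.2.take i := by
        rcases level_cases hIx hz1 hz2 hiz with ⟨h1, h2, _, _⟩ | ⟨h1, _, h2, _⟩ | ⟨h1, _, _, _, _⟩
        · exact (take_eq_of_take_eq h2 (by omega)).symm
        · rw [h2, List.take_append_of_le_length (by rw [List.length_take]; omega),
            List.take_take, min_self]
        · omega
      have hxs : ∀ j, j + 1 = i → (ent z.2 i).take (L j (ent z.2 j)) =
          (ent x.2 i).take (L j (ent x.2 j)) := by
        intro j hj
        have e1 : ent z.2 j = ent x.2 j := (ent_eq_of_take_eq hxz (by omega)).symm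
        rcases level_cases hIx hz1 hz2 hiz with ⟨_, _, h2, _⟩ | ⟨_, _, _, h2⟩ | ⟨h1, _, _, _, _⟩
        · rw [h2, e1]
        · rw [h2, e1]
          have h3 := hIx.pre i hix
          have h4 := hIx.grow j (by omega)
          rw [hj] at h4
          obtain ⟨t, ht⟩ := h3
          rw [← ht, List.take_append_of_le_length h4]
        · omega
      have hiy : i < y.2.length := by
        by_contra hcon
        rcases level_cases hIy hw1 hw2 hiw with ⟨h1, _, _, _⟩ | ⟨h1, _, _, _⟩ | ⟨h1, h2, h3, h4, _⟩
        · omega
        · omega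
        · have hi0 : 0 < i := by rw [h1]; exact hIy.pos
          obtain ⟨j, rfl⟩ : ∃ j, i = j + 1 := ⟨i - 1, by omega⟩
          have e0 : ent w.2 j = ent y.2 j := by
            rw [h3, ent_append_left (by omega)]
          have e2 : ent z.2 j = ent w.2 j := ent_eq_of_take_eq htake (by omega)
          have e3 : ent x.2 j = ent z.2 j := ent_eq_of_take_eq hxz (by omega)
          have h5 := hIx.grow j hix
          have h6 := (hIx.pre (j+1) hix).length_le
          rw [hIx.len] at h6
          rw [e3, e2, e0] at h5
          simp only [Nat.add_sub_cancel] at h2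
          rw [hIy.len] at h2
          omega
      have hyw : y.2.take i = w.2.take i := by
        rcases level_cases hIy hw1 hw2 hiw with ⟨h1, h2, _, _⟩ | ⟨h1, _, h2, _⟩ | ⟨h1, _, _, _, _⟩
        · exact (take_eq_of_take_eq h2 (by omega)).symm
        · rw [h2, List.take_append_of_le_length (by rw [List.length_take]; omega),
            List.take_take, min_self]
        · omega
      have hys : ∀ j, j + 1 = i → (ent w.2 i).take (L j (ent w.2 j)) =
          (ent y.2 i).take (L j (ent y.2 j)) := by
        intro j hj
        have e1 : ent w.2 j = ent y.2 j := (ent_eq_of_take_eq hyw (by omega)).symm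
        rcases level_cases hIy hw1 hw2 hiw with ⟨_, _, h2, _⟩ | ⟨_, _, _, h2⟩ | ⟨h1, _, _, _, _⟩
        · rw [h2, e1]
        · rw [h2, e1]
          have h3 := hIy.pre i hiy
          have h4 := hIy.grow j (by omega)
          rw [hj] at h4
          obtain ⟨t, ht⟩ := h3
          rw [← ht, List.take_append_of_le_length h4]
        · omega
      have hxy : x.2.take i = y.2.take i := by rw [hxz, hyw, htake]
      refine ⟨hiy, hxy, ih x hx y hy i hix hiy hxy ?_⟩
      intro j hj
      rw [← hxs j hj, ← hys j hj, hstart j hj]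
    by_cases hix : i < x.2.length
    · obtain ⟨hiy, hxy, hexy⟩ := key z x w y b b' hx hy hIx hIy hIz hIw hz1 hz2 hw1 hw2 hiz hiw
        htake hstart hix
      have hsucc : x.2.take (i+1) = y.2.take (i+1) := take_succ_eq hxy hix hiy hexy
      rcases level_cases hIx hz1 hz2 hiz with ⟨_, _, h2, h2'⟩ | ⟨_, h2', _, h2⟩ | ⟨h1, _, _, _, _⟩
      · rcases level_cases hIy hw1 hw2 hiw with ⟨_, _, h3, h3'⟩ | ⟨_, h3', _, h3⟩ | ⟨h1, _, _, _, _⟩
        · rw [h2, h3, hexy]
        · exact absurd (act_congr hsucc.symm hix h3') (h2' i le_rfl _)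
        · omega
      · rcases level_cases hIy hw1 hw2 hiw with ⟨_, _, h3, h3'⟩ | ⟨_, h3', _, h3⟩ | ⟨h1, _, _, _, _⟩
        · exact absurd (act_congr hsucc hiy h2') (h3' i le_rfl _)
        · have h4 := act_congr hsucc hiy h2'
          rw [h3'] at h4
          have h5 := (Prod.ext_iff.mp (Option.some.inj h4)).2
          simp only at h5
          rw [h2, h3, h5]
        · omega
      · omega
    · by_cases hiy : i < y.2.length
      · exfalso
        obtain ⟨h, _⟩ := key w y z x b' b hy hx hIy hIx hIw hIz hw1 hw2 hz1 hz2 hiw hiz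
          htake.symm (fun j hj => (hstart j hj).symm) hiy
        exact hix h
      · -- both new
        rcases level_cases hIx hz1 hz2 hiz with ⟨h1, _, _, _⟩ | ⟨h1, _, _, _⟩ | ⟨h1, h2, h3, h4, _⟩
        · omega
        · omega
        rcases level_cases hIy hw1 hw2 hiw with ⟨h1', _, _, _⟩ | ⟨h1', _, _, _⟩ | ⟨h1', h2', h3', h4', _⟩
        · omega
        · omega
        have hi0 : 0 < i := by rw [h1]; exact hIx.pos
        obtain ⟨j, rfl⟩ : ∃ j, i = j + 1 := ⟨i - 1, by omega⟩
        simp only [Nat.add_sub_cancel] at h2 h2'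
        have e1 : ent z.2 j = ent x.2 j := by rw [h3, ent_append_left (by omega)]
        have e2 : ent w.2 j = ent y.2 j := by rw [h3', ent_append_left (by omega)]
        have h5 := hstart j rfl
        rw [h4, h4', e1, e2, ← h2, ← h2', hIx.len, hIy.len] at h5
        rw [h4, h4']
        rw [List.take_of_length_le (by rw [hIz.len]), List.take_of_length_le (by rw [hIw.len])] at h5
        exact h5


theorem progress (hL : ∀ i p, p.length + 2 ≤ L i p) {s : ℕ} {y : Node}
    (hy : y ∈ stA G H L s) {i : ℕ} (hi : i < y.2.length)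
    (hna : ∀ j ≤ i, wit G H L s (stA G H L s) (y.2.take (j+1)) = none)
    {q : List Bool} (hq1 : q.take s <+: y.1) (hq2 : q.length ≤ s + 1)
    (hq3 : q.length ≤ L i (ent y.2 i)) :
    ∃ z ∈ stA G H L (s+1), z.2.take (i+1) = y.2.take (i+1) ∧ q <+: z.1 := by
  have hI := inv_stA hL s y hy
  cases hact : act G H L s (stA G H L s) y.2 with
  | none =>
    -- choose the right child
    have hqb : ∃ b, q <+: y.1 ++ [b] := by
      rcases Nat.lt_or_ge s q.length with h | h
      · have hql : q.length = s + 1 := by omega
        refine ⟨q[s]'h, ?_⟩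
        have h1 : q.take s = y.1 := by
          apply hq1.eq_of_length
          rw [List.length_take, hI.len]; omega
        have h2 : q = q.take s ++ [q[s]] := by
          rw [← List.take_succ_eq_append_getElem h, List.take_of_length_le (by omega)]
        rw [h1] at h2
        exact ⟨[], by rw [List.append_nil]; exact h2⟩
      · rw [List.take_of_length_le h] at hq1
        exact ⟨false, hq1.trans (List.prefix_append _ _)⟩
    obtain ⟨b, hqb⟩ := hqb
    refine ⟨(y.1 ++ [b], if y.1.length + 1 = L (y.2.length - 1) (ent y.2 (y.2.length - 1))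
      then y.2 ++ [y.1 ++ [b]] else y.2), ?_, ?_, hqb⟩
    · rw [mem_stA_succ]
      exact ⟨y, hy, b, rfl, newc_of_none G H L b hact⟩
    · simp only
      split_ifs
      · rw [List.take_append_of_le_length (by omega)]
      · rfl
  | some p =>
    obtain ⟨j, η⟩ := p
    obtain ⟨hj, hw, hlt⟩ := (act_some G H L).mp hact
    have hij : i < j := by
      by_contra hcon
      rw [hna j (by omega)] at hw
      cases hw
    obtain ⟨_, w, hwA, hw1, hw2, hw3, hw4⟩ := wit_spec G H L hw
    have hlen : (y.2.take (j+1)).length = j + 1 := by rw [List.length_take]; omega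
    rw [hlen] at hw3
    have hwl : j < w.2.length := by
      have := congrArg List.length hw3
      rw [hlen, List.length_take] at this
      omega
    have hIw := inv_stA hL s w hwA
    have hactw : act G H L s (stA G H L s) w.2 = some (j, w.1) := by
      rw [hw1]
      exact act_congr hw3.symm hwl hact
    refine ⟨(w.1 ++ [false], w.2.take j ++ [w.1]), ?_, ?_, ?_⟩
    · rw [mem_stA_succ]
      exact ⟨w, hwA, false, rfl, newc_of_act G H L false hactw⟩
    · simp only
      rw [List.take_append_of_le_length (by rw [List.length_take]; omega), List.take_take,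
        min_eq_left (by omega)]
      exact take_eq_of_take_eq hw3 (by omega)
    · simp only
      have h1 := hI.grow i (by omega)
      have h2 := (hI.pre (i+1) (by omega)).length_le
      rw [hI.len] at h2
      rw [List.take_of_length_le (by omega)] at hq1
      have h3 : q <+: ent y.2 (i+1) :=
        List.prefix_of_prefix_length_le hq1 (hI.pre (i+1) (by omega)) (by omega)
      have h4 : ent w.2 (i+1) = ent y.2 (i+1) := ent_eq_of_take_eq hw3 (by omega)
      rw [← h4] at h3
      exact (h3.trans (hIw.pre (i+1) (by omega))).trans (List.prefix_append _ _)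

theorem no_wit_of_take_eq {s : ℕ} {c d : Chain} {i : ℕ} (h : d.take (i+1) = c.take (i+1))
    (hna : ∀ j ≤ i, wit G H L s (stA G H L s) (c.take (j+1)) = none) :
    ∀ j ≤ i, wit G H L s (stA G H L s) (d.take (j+1)) = none := by
  intro j hj
  rw [take_eq_of_take_eq h (by omega)]
  exact hna j hj

theorem cover (hL : ∀ i p, p.length + 2 ≤ L i p) (s : ℕ) :
    ∀ x ∈ stA G H L s, ∀ i < x.2.length, ∀ q, ent x.2 i <+: q → q.length ≤ s →
      q.length ≤ L i (ent x.2 i) → ∃ y ∈ stA G H L s, y.2.take (i+1) = x.2.take (i+1) ∧ q <+: y.1 := by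
  induction s with
  | zero =>
    intro x hx i hi q hq1 hq2 hq3
    refine ⟨x, hx, rfl, ?_⟩
    have : q = [] := by simpa using hq2
    rw [this]; exact List.nil_prefix
  | succ s ih =>
    intro z hz i hiz q hq1 hq2 hq3
    have hIz := inv_stA hL (s+1) z hz
    have hz' := hz
    rw [mem_stA_succ] at hz
    obtain ⟨x, hx, b, hz1, hz2⟩ := hz
    have hI := inv_stA hL s x hx
    rcases level_cases hI hz1 hz2 hiz with ⟨h1, h2, h3, h4⟩ | ⟨h1, h2, h3, h4⟩ | ⟨h1, h2, h3, h4, h5⟩
    · -- retained
      rw [h3] at hq1 hq3
      have hqs : ent x.2 i <+: q.take s := by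
        apply List.prefix_of_prefix_length_le hq1 (List.take_prefix _ _)
        have h5 := (hI.pre i h1).length_le
        have h6 := hq1.length_le
        rw [hI.len] at h5
        rw [List.length_take]
        omega
      obtain ⟨y, hy, hy1, hy2⟩ := ih x hx i h1 (q.take s) hqs (by rw [List.length_take]; omega)
        (by rw [List.length_take]; omega)
      have hyl : i < y.2.length := by
        have := congrArg List.length hy1
        rw [List.length_take, List.length_take] at this
        omega
      have hna : ∀ j ≤ i, wit G H L s (stA G H L s) (x.2.take (j+1)) = none := by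
        intro j hj
        by_contra hcon
        -- take the least such
        have hex : ∃ j, j ≤ i ∧ wit G H L s (stA G H L s) (x.2.take (j+1)) ≠ none := ⟨j, hj, hcon⟩
        classical
        obtain ⟨hj0, hj1⟩ := Nat.find_spec hex
        obtain ⟨η, hη⟩ := Option.ne_none_iff_exists'.mp hj1
        refine h4 (Nat.find hex) hj0 η ((act_some G H L).mpr ⟨by omega, hη, ?_⟩)
        intro k hk
        by_contra hk2
        exact Nat.find_min hex hk ⟨by omega, hk2⟩
      have hey : ent y.2 i = ent x.2 i := ent_eq_of_take_eq hy1 (by omega)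
      obtain ⟨w, hw, hw1, hw2⟩ := progress hL hy hyl (no_wit_of_take_eq hy1 hna) hy2 hq2
        (by rw [hey]; exact hq3)
      exact ⟨w, hw, by rw [hw1, hy1, h2], hw2⟩
    · -- acted at i
      rw [h4] at hq1
      have hlt : (x.2.take i).length = i := by rw [List.length_take]; omega
      rcases Nat.lt_or_ge s q.length with h | h
      · have hql : q.length = s + 1 := by omega
        have h5 : x.1 = q.take s := by
          have := List.prefix_iff_eq_take.mp hq1
          rwa [hI.len] at this
        refine ⟨(x.1 ++ [q[s]'h], x.2.take i ++ [x.1]), ?_, by rw [h3], ?_⟩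
        · rw [mem_stA_succ]
          exact ⟨x, hx, q[s]'h, rfl, newc_of_act G H L _ h2⟩
        · simp only
          rw [h5, ← List.take_succ_eq_append_getElem h, List.take_of_length_le (by omega)]
      · refine ⟨z, hz', rfl, ?_⟩
        have h5 : x.1 = q := by
          apply hq1.eq_of_length
          have := hq1.length_le
          rw [hI.len] at this ⊢
          omega
        rw [← h5, hz1]; exact List.prefix_append _ _
    · -- created
      refine ⟨z, hz', rfl, ?_⟩
      rw [h4] at hq1
      have : z.1 = q := by
        apply hq1.eq_of_length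
        have := hq1.length_le
        rw [hIz.len] at this ⊢
        omega
      rw [this]

theorem unhit_iff {s : ℕ} {x : Node} : unhit H L s x = true ↔
    ∀ j, j + 1 < x.2.length → H s j (x.1.take (L j (ent x.2 j))) = false := by
  unfold unhit
  rw [decide_eq_true_eq]
  constructor
  · intro h j hj; exact h j (by omega)
  · intro h j hj; exact h j (by omega)

theorem exists_unhit (hL : ∀ i p, p.length + 2 ≤ L i p)
    (hH : ∀ t i p, ∃ q, p <+: q ∧ q.length = L i p ∧ H t i q = false) (s : ℕ) :
    ∃ x ∈ stA G H L s, unhit H L s x = true := by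
  have hne : ∃ x, x ∈ stA G H L s := by
    induction s with
    | zero => exact ⟨_, by rw [stA_zero]; exact List.mem_singleton.mpr rfl⟩
    | succ s ih =>
      obtain ⟨x, hx⟩ := ih
      have hI := inv_stA hL s x hx
      cases hact : act G H L s (stA G H L s) x.2 with
      | none =>
        exact ⟨(x.1 ++ [false], _), (mem_stA_succ G H L).mpr ⟨x, hx, false, rfl, newc_of_none G H L false hact⟩⟩
      | some p =>
        obtain ⟨j, η⟩ := p
        obtain ⟨hj, hw, hlt⟩ := (act_some G H L).mp hact
        obtain ⟨_, w, hwA, hw1, hw2, hw3, hw4⟩ := wit_spec G H L hw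
        have hlen : (x.2.take (j+1)).length = j + 1 := by rw [List.length_take]; omega
        rw [hlen] at hw3
        have hwl : j < w.2.length := by
          have := congrArg List.length hw3
          rw [hlen, List.length_take] at this
          omega
        have hactw : act G H L s (stA G H L s) w.2 = some (j, w.1) := by
          rw [hw1]
          exact act_congr hw3.symm hwl hact
        exact ⟨(w.1 ++ [false], w.2.take j ++ [w.1]),
          (mem_stA_succ G H L).mpr ⟨w, hwA, false, rfl, newc_of_act G H L false hactw⟩⟩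
  have claim : ∀ n, ∃ x ∈ stA G H L s, ∀ j < n, j + 1 < x.2.length →
      H s j (x.1.take (L j (ent x.2 j))) = false := by
    intro n
    induction n with
    | zero =>
      obtain ⟨x, hx⟩ := hne
      exact ⟨x, hx, fun j hj => absurd hj (Nat.not_lt_zero _)⟩
    | succ n ih =>
      obtain ⟨x, hx, hxn⟩ := ih
      have hI := inv_stA hL s x hx
      by_cases hn : n + 1 < x.2.length
      · obtain ⟨q, hq1, hq2, hq3⟩ := hH s n (ent x.2 n)
        have h1 := hI.grow n hn
        have h2 := (hI.pre (n+1) hn).length_le
        rw [hI.len] at h2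
        obtain ⟨y, hy, hy1, hy2⟩ := cover hL s x hx n (by omega) q hq1 (by omega) (by omega)
        have hIy := inv_stA hL s y hy
        refine ⟨y, hy, fun j hj hjy => ?_⟩
        have hej : ent y.2 j = ent x.2 j := ent_eq_of_take_eq hy1 (by omega)
        rcases Nat.lt_succ_iff_lt_or_eq.mp hj with h | h
        · have hej1 : ent y.2 (j+1) = ent x.2 (j+1) := ent_eq_of_take_eq hy1 (by omega)
          have h3 := hxn j h (by omega)
          have h4 := hI.grow j (by omega)
          have h5 := hI.pre (j+1) (by omega)
          have h6 := hIy.pre (j+1) hjy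
          rw [hej1] at h6
          have h7 : y.1.take (L j (ent x.2 j)) = x.1.take (L j (ent x.2 j)) := by
            obtain ⟨t1, ht1⟩ := h5
            obtain ⟨t2, ht2⟩ := h6
            rw [← ht1, ← ht2, List.take_append_of_le_length h4, List.take_append_of_le_length h4]
          rw [hej, h7]; exact h3
        · subst h
          rw [hej, ← hq2]
          rw [← List.prefix_iff_eq_take.mp hy2]
          exact hq3
      · refine ⟨x, hx, fun j hj hjx => ?_⟩
        exact hxn j (by omega) hjx
  obtain ⟨N, hN⟩ := exists_bound (stA G H L s) (fun x => x.2.length)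
  obtain ⟨x, hx, hxn⟩ := claim N
  refine ⟨x, hx, unhit_iff.mpr (fun j hj => hxn j ?_ hj)⟩
  have := hN x hx
  omega

/-- the final tree, as a predicate -/
def TT (G : ℕ → List Bool → Bool) (H : ℕ → ℕ → List Bool → Bool) (L : ℕ → List Bool → ℕ)
    (ξ : List Bool) : Prop := ∃ x ∈ stA G H L ξ.length, x.1 = ξ ∧ unhit H L ξ.length x = true

theorem TT_closed (hL : ∀ i p, p.length + 2 ≤ L i p)
    (hHm : ∀ t i q, H t i q = true → H (t+1) i q = true) (ξ : List Bool) (b : Bool)
    (h : TT G H L (ξ ++ [b])) : TT G H L ξ := by
  obtain ⟨z, hz, hz1, hz2⟩ := h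
  have hlen : (ξ ++ [b]).length = ξ.length + 1 := by simp
  rw [hlen] at hz hz2
  have hz0 := hz
  rw [mem_stA_succ] at hz
  obtain ⟨x, hx, b', h1, h2⟩ := hz
  have hI := inv_stA hL _ x hx
  rw [hz1] at h1
  obtain ⟨h3, h4⟩ := List.append_inj' h1 rfl
  subst h3
  refine ⟨x, hx, rfl, ?_⟩
  rcases newc_cases G H L h2 with ⟨j, hact, hc⟩ | ⟨_, _, hc⟩ | ⟨_, _, hc⟩
  · obtain ⟨hj, hw, _⟩ := (act_some G H L).mp hact
    obtain ⟨_, w, hwA, hw1, hw2, _, _⟩ := wit_spec G H L hw
    have hwx := stA_unique _ w hwA x hx hw1
    subst hwx; exact hw2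
  · rw [unhit_iff] at hz2 ⊢
    intro j hj
    have h5 := hz2 j (by rw [hc]; simp; omega)
    rw [hc, ent_append_left (by omega), hz1] at h5
    have h6 := hI.grow j hj
    have h7 := (hI.pre (j+1) hj).length_le
    rw [List.take_append_of_le_length (by omega)] at h5
    by_contra hcon
    have := hHm _ _ _ (by simpa using hcon)
    rw [h5] at this
    cases this
  · rw [unhit_iff] at hz2 ⊢
    intro j hj
    have h5 := hz2 j (by rw [hc]; exact hj)
    rw [hc, hz1] at h5
    have h6 := hI.grow j hj
    have h7 := (hI.pre (j+1) hj).length_le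
    rw [List.take_append_of_le_length (by omega)] at h5
    by_contra hcon
    have := hHm _ _ _ (by simpa using hcon)
    rw [h5] at this
    cases this

theorem exists_path (hL : ∀ i p, p.length + 2 ≤ L i p)
    (hHm : ∀ t i q, H t i q = true → H (t+1) i q = true)
    (hH : ∀ t i p, ∃ q, p <+: q ∧ q.length = L i p ∧ H t i q = false) :
    ∃ f : ℕ → Bool, ∀ n, TT G H L (seg f n) := by
  apply konig _ (TT_closed hL hHm)
  intro n
  obtain ⟨x, hx, hx1⟩ := exists_unhit (G := G) hL hH n
  have hI := inv_stA hL n x hx
  refine ⟨x.1, hI.len, x, ?_, rfl, ?_⟩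
  · rw [hI.len]; exact hx
  · rw [hI.len]; exact hx1

end thms

end Pool.Agent.Helper854
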