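import Pool.Agent.Helper854.PartTwo

set_option autoImplicit false

namespace Pool.Agent.Helper854

section thms

variable {G : ℕ → List Bool → Bool} {H : ℕ → ℕ → List Bool → Bool} {L : ℕ → List Bool → ℕ}

/-- the data of the chains along a path -/
structure PathData (G : ℕ → List Bool → Bool) (H : ℕ → ℕ → List Bool → Bool)
    (L : ℕ → List Bool → ℕ) (X : ℕ → Bool) (ch : ℕ → Chain) : Prop where
  mem : ∀ n, (seg X n, ch n) ∈ stA G H L n
  unh : ∀ n, unhit H L n (seg X n, ch n) = true
  nxt : ∀ n, newc G H L n (stA G H L n) (seg X n, ch n) (X n) = some (ch (n+1))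

theorem exists_pathData {X : ℕ → Bool} (hX : ∀ n, TT G H L (seg X n)) :
    ∃ ch, PathData G H L X ch := by
  have h : ∀ n, ∃ c : Chain, (seg X n, c) ∈ stA G H L n ∧ unhit H L n (seg X n, c) = true := by
    intro n
    obtain ⟨x, hx, hx1, hx2⟩ := hX n
    rw [length_seg] at hx hx2
    refine ⟨x.2, ?_, ?_⟩
    · rw [← hx1]; exact hx
    · rw [← hx1]; exact hx2
  choose ch h1 h2 using h
  refine ⟨ch, h1, h2, fun n => ?_⟩
  have h3 := h1 (n+1)
  rw [mem_stA_succ] at h3
  obtain ⟨x, hx, b, h4, h5⟩ := h3
  simp only at h4 h5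
  rw [seg_succ] at h4
  obtain ⟨h6, h7⟩ := List.append_inj' h4 rfl
  have h8 : (seg X n, ch n) = x := stA_unique n _ (h1 n) x hx h6
  have h9 : X n = b := by simpa using h7
  rw [h8, h9]; exact h5

variable {X : ℕ → Bool} {ch : ℕ → Chain}

theorem PathData.inv (P : PathData G H L X ch) (hL : ∀ i p, p.length + 2 ≤ L i p) (n : ℕ) :
    Inv L n (seg X n, ch n) := inv_stA hL n _ (P.mem n)

theorem PathData.level (P : PathData G H L X ch) (hL : ∀ i p, p.length + 2 ≤ L i p) (n i : ℕ)
    (hi : i < (ch (n+1)).length) :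
    (i < (ch n).length ∧ (ch (n+1)).take (i+1) = (ch n).take (i+1) ∧ ent (ch (n+1)) i = ent (ch n) i ∧
      ∀ j ≤ i, ∀ η, act G H L n (stA G H L n) (ch n) ≠ some (j, η)) ∨
    (i < (ch n).length ∧ act G H L n (stA G H L n) (ch n) = some (i, seg X n) ∧
      ch (n+1) = (ch n).take i ++ [seg X n] ∧ ent (ch (n+1)) i = seg X n) ∨
    (i = (ch n).length ∧ n + 1 = L (i - 1) (ent (ch n) (i - 1)) ∧
      ch (n+1) = (ch n) ++ [seg X (n+1)] ∧
      ent (ch (n+1)) i = seg X (n+1) ∧ act G H L n (stA G H L n) (ch n) = none) := by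
  have h := level_cases (G := G) (H := H) (z := (seg X (n+1), ch (n+1))) (P.inv hL n)
    (seg_succ X n) (P.nxt n) hi
  simpa using h

theorem PathData.act_ne (P : PathData G H L X ch) {n j : ℕ} {η : List Bool}
    (h : act G H L n (stA G H L n) (ch n) = some (j, η)) :
    j < (ch n).length ∧ η = seg X n ∧ ch (n+1) = (ch n).take j ++ [seg X n] ∧
    G n (out j (ent (ch n) j)) = true ∧ out j (seg X n) ≠ out j (ent (ch n) j) := by
  have h1 := P.nxt n
  unfold newc at h1
  rw [h] at h1
  simp only at h1
  split_ifs at h1 with h2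
  obtain ⟨hj, hw, _⟩ := (act_some G H L).mp h
  obtain ⟨hg, w, hwA, hw1, hw2, hw3, hw4⟩ := wit_spec G H L hw
  have hlen : ((ch n).take (j+1)).length = j + 1 := by rw [List.length_take]; omega
  rw [hlen] at hg hw4
  simp only [Nat.add_sub_cancel] at hg hw4
  rw [ent_take (Nat.lt_succ_self j)] at hg hw4
  rw [hw1, ← h2] at hw4
  exact ⟨hj, h2.symm, (Option.some.inj h1).symm, hg, hw4⟩

/-- no action below a stable level -/
theorem PathData.no_act_below (P : PathData G H L X ch) {i n₀ : ℕ}
    (hst : ∀ n ≥ n₀, i ≤ (ch n).length ∧ (ch n).take i = (ch n₀).take i) {n : ℕ} (hn : n₀ ≤ n)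
    {j : ℕ} (hj : j < i) (η : List Bool) : act G H L n (stA G H L n) (ch n) ≠ some (j, η) := by
  intro h
  obtain ⟨h1, h2, h3, h4, h5⟩ := P.act_ne h
  have h6 : (ch (n+1)).take i = (ch n).take i := by
    rw [(hst (n+1) (by omega)).2, (hst n hn).2]
  have h7 : ent (ch (n+1)) j = ent (ch n) j := ent_eq_of_take_eq h6 hj
  have h8 : ent (ch (n+1)) j = seg X n := by
    rw [h3]; exact ent_append_self (by rw [List.length_take]; omega)
  rw [← h7, h8] at h5
  exact h5 rfl

/-- eventually the chain is longer than a stable level -/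
theorem PathData.exists_longer (P : PathData G H L X ch) (hL : ∀ i p, p.length + 2 ≤ L i p)
    {i n₀ : ℕ} (hst : ∀ n ≥ n₀, i ≤ (ch n).length ∧ (ch n).take i = (ch n₀).take i) :
    ∃ n₁ ≥ n₀, ∀ n ≥ n₁, i < (ch n).length := by
  have h1 : ∃ n₁ ≥ n₀, i < (ch n₁).length := by
    by_contra hcon
    push Not at hcon
    have hlen : ∀ n ≥ n₀, (ch n).length = i := fun n hn => le_antisymm (hcon n hn) (hst n hn).1
    have hch : ∀ n ≥ n₀, ch n = ch n₀ := by
      intro n hn
      have h2 := (hst n hn).2
      rw [List.take_of_length_le (hlen n hn).le, List.take_of_length_le (hlen n₀ le_rfl).le] at h2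
      exact h2
    have h3 := (P.inv hL (max n₀ (L ((ch n₀).length - 1) (ent (ch n₀) ((ch n₀).length - 1))))).small
    simp only at h3
    rw [hch _ (le_max_left _ _)] at h3
    exact absurd h3 (not_lt.mpr (le_max_right _ _))
  obtain ⟨n₁, hn₁, h2⟩ := h1
  refine ⟨n₁, hn₁, ?_⟩
  intro n hn
  induction n, hn using Nat.le_induction with
  | base => exact h2
  | succ n hn ih =>
    rcases newc_cases G H L (P.nxt n) with ⟨j, hact, hc⟩ | ⟨_, _, hc⟩ | ⟨_, _, hc⟩
    · have hji : i ≤ j := by
        by_contra hcon
        exact P.no_act_below hst (by omega) (by omega) _ hact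
      simp only at hc
      obtain ⟨hj, _⟩ := (act_some G H L).mp hact
      simp only at hj
      rw [hc]
      simp only [List.length_append, List.length_take, List.length_singleton]
      omega
    · simp only at hc
      rw [hc]; simp; omega
    · simp only at hc
      rw [hc]; exact ih

/-- the next level stabilises -/
theorem PathData.stab_succ (P : PathData G H L X ch) {B : ℕ → Bool} (hB : ¬ Computable B)
    (hL : ∀ i p, p.length + 2 ≤ L i p)
    (hA : Primrec (stA G H L))
    (hG1 : ∀ s u u', u' <+: u → G s u = true → G s u' = true)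
    (hG3 : ∀ Z : ℕ → Bool, (∀ n s₀, ∃ s ≥ s₀, G s (seg Z n) = true) → Z = B)
    {i n₀ : ℕ} (hst : ∀ n ≥ n₀, i ≤ (ch n).length ∧ (ch n).take i = (ch n₀).take i) :
    ∃ n₁, ∀ n ≥ n₁, i + 1 ≤ (ch n).length ∧ (ch n).take (i+1) = (ch n₁).take (i+1) := by
  obtain ⟨n₁, hn₁, hlong⟩ := P.exists_longer hL hst
  by_cases hfin : ∃ N ≥ n₁, ∀ n ≥ N, ∀ η, act G H L n (stA G H L n) (ch n) ≠ some (i, η)
  · obtain ⟨N, hN, hfin⟩ := hfin
    refine ⟨N, fun n hn => ⟨hlong n (by omega), ?_⟩⟩
    induction n, hn using Nat.le_induction with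
    | base => rfl
    | succ n hn ih =>
      rcases P.level hL n i (hlong (n+1) (by omega)) with ⟨_, h2, _, _⟩ | ⟨_, h2, _, _⟩ | ⟨h2, _, _, _, _⟩
      · rw [h2, ih]
      · exact absurd h2 (hfin n hn _)
      · have := hlong n (by omega)
        omega
  · exfalso
    apply hB
    push Not at hfin
    -- positions
    let π : ℕ → List Bool := fun n => ent (ch n) i
    have hπX : ∀ n ≥ n₁, π n <+: seg X n := fun n hn => (P.inv hL n).pre i (hlong n hn)
    have hπ1 : ∀ n ≥ n₁, π n <+: π (n+1) := by
      intro n hn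
      rcases P.level hL n i (hlong (n+1) (by omega)) with ⟨_, _, h2, _⟩ | ⟨_, _, _, h2⟩ | ⟨h2, _, _, _, _⟩
      · show ent (ch n) i <+: ent (ch (n+1)) i
        rw [h2]
      · show ent (ch n) i <+: ent (ch (n+1)) i
        rw [h2]; exact hπX n hn
      · have := hlong n (by omega)
        omega
    have hπ2 : ∀ m n, n₁ ≤ m → m ≤ n → π m <+: π n := by
      intro m n hm hmn
      induction n, hmn using Nat.le_induction with
      | base => exact List.prefix_rfl
      | succ n hmn ih => exact ih.trans (hπ1 n (by omega))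
    have ho : ∀ m n, n₁ ≤ m → m ≤ n → out i (π m) <+: out i (π n) :=
      fun m n hm hmn => out_mono (hπ2 m n hm hmn)
    have hactlen : ∀ n ≥ n₁, (∃ η, act G H L n (stA G H L n) (ch n) = some (i, η)) →
        (out i (π n)).length < (out i (π (n+1))).length ∧ G n (out i (π n)) = true := by
      rintro n hn ⟨η, hη⟩
      obtain ⟨h1, h2, h3, h4, h5⟩ := P.act_ne hη
      have h6 : π (n+1) = seg X n := by
        show ent (ch (n+1)) i = _
        rw [h3]; exact ent_append_self (by rw [List.length_take]; omega)
      refine ⟨?_, h4⟩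
      have h7 := ho n (n+1) hn (by omega)
      rw [h6] at h7 ⊢
      rcases Nat.lt_or_ge (out i (π n)).length (out i (seg X n)).length with h8 | h8
      · exact h8
      · exact absurd (h7.eq_of_length (le_antisymm h7.length_le h8)).symm h5
    have hunb : ∀ m, ∃ n ≥ n₁, m ≤ (out i (π n)).length := by
      intro m
      induction m with
      | zero => exact ⟨n₁, le_rfl, Nat.zero_le _⟩
      | succ m ih =>
        obtain ⟨n, hn, hm⟩ := ih
        obtain ⟨n', hn', hη⟩ := hfin n hn
        obtain ⟨h1, _⟩ := hactlen n' (by omega) hη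
        have h2 := (ho n n' hn hn').length_le
        exact ⟨n'+1, by omega, by omega⟩
    have hZ : ∃ Z : ℕ → Bool, ∀ n ≥ n₁, Pre (out i (π n)) Z := by
      choose nn h1 h2 using hunb
      refine ⟨fun m => (out i (π (nn (m+1)))).getD m false, fun n hn => ?_⟩
      apply pre_of_getElem
      intro k hk
      have hk2 : k < (out i (π (nn (k+1)))).length := h2 (k+1)
      rw [List.getD_eq_getElem _ _ hk2]
      rcases Nat.le_total n (nn (k+1)) with h | h
      · exact (ho _ _ hn h).getElem hk
      · exact ((ho _ _ (h1 (k+1)) h).getElem hk2).symm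
    obtain ⟨Z, hZ⟩ := hZ
    have hZB : Z = B := by
      apply hG3
      intro m s₀
      obtain ⟨n, hn, hm⟩ := hunb m
      obtain ⟨n', hn', hη⟩ := hfin (max n s₀) (le_trans hn (le_max_left _ _))
      have h1 : n ≤ n' := le_trans (le_max_left _ _) hn'
      have h2 : s₀ ≤ n' := le_trans (le_max_right _ _) hn'
      obtain ⟨_, h3⟩ := hactlen n' (by omega) hη
      refine ⟨n', h2, hG1 _ _ _ ?_ h3⟩
      have h4 := hZ n' (by omega)
      have h5 := (ho n n' hn h1).length_le
      rw [← h4]
      exact seg_prefix_seg Z (by omega)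
    subst hZB
    -- the start of the module
    let a : Chain := (ch n₀).take i
    let r : ℕ := match i with | 0 => 0 | j+1 => L j (ent a j)
    have hrle : ∀ n ≥ n₁, r ≤ (π n).length := by
      intro n hn
      cases i with
      | zero => exact Nat.zero_le _
      | succ j =>
        have h1 := (P.inv hL n).grow j (hlong n hn)
        have h2 : ent a j = ent (ch n) j := by
          show ent ((ch n₀).take (j+1)) j = _
          rw [← (hst n (by omega)).2, ent_take (Nat.lt_succ_self j)]
        show L j (ent a j) ≤ _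
        rw [h2]; exact h1
    have hstart : ∀ n ≥ n₁, (π n).take r = seg X r := by
      intro n hn
      have h1 := hπX n hn
      have h2 := hrle n hn
      have h3 := h1.length_le
      rw [length_seg] at h3
      have h4 : (seg X n).take r = (π n).take r := by
        obtain ⟨t, ht⟩ := h1
        rw [← ht, List.take_append_of_le_length h2]
      rw [← h4, take_seg X n r (by omega)]
    -- the search
    let D : ℕ → ℕ → Option Bool := fun m n =>
      if n₁ ≤ n then
        ((stA G H L n).filterMap (fun x => if (x.2.take i = a ∧ i < x.2.length ∧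
          (ent x.2 i).take r = seg X r) then (out i (ent x.2 i))[m]? else none)).head?
      else none
    have hval : ∀ m n b, D m n = some b → b = Z m := by
      intro m n b hb
      simp only [D] at hb
      split_ifs at hb with hn
      have := List.mem_of_mem_head? hb
      rw [List.mem_filterMap] at this
      obtain ⟨x, hx, h1⟩ := this
      split_ifs at h1 with h2
      obtain ⟨h3, h4, h5⟩ := h2
      have h6 : ent x.2 i = π n := by
        refine mod_unique hL n x hx _ (P.mem n) i h4 (hlong n hn) ?_ ?_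
        · rw [h3]; exact ((hst n (by omega)).2).symm
        · intro j hj
          subst hj
          have e1 : ent x.2 j = ent a j := by
            rw [← h3, ent_take (Nat.lt_succ_self j)]
          have e2 : ent (ch n) j = ent a j := by
            show _ = ent ((ch n₀).take (j+1)) j
            rw [← (hst n (by omega)).2, ent_take (Nat.lt_succ_self j)]
          simp only
          rw [e1, e2]
          have e3 := hstart n hn
          exact h5.trans e3.symm
      rw [h6] at h1
      obtain ⟨hlt, h7⟩ := List.getElem?_eq_some_iff.mp h1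
      rw [← h7]
      exact (hZ n hn).getElem m hlt
    have hex : ∀ m, ∃ n, (D m n).isSome = true := by
      intro m
      obtain ⟨n, hn, hm⟩ := hunb (m+1)
      refine ⟨n, ?_⟩
      simp only [D]
      rw [if_pos hn]
      cases hh : ((stA G H L n).filterMap (fun x => if (x.2.take i = a ∧ i < x.2.length ∧
          (ent x.2 i).take r = seg X r) then (out i (ent x.2 i))[m]? else none)).head? with
      | some b => rfl
      | none =>
        exfalso
        rw [List.head?_eq_none_iff, List.filterMap_eq_nil_iff] at hh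
        have h1 := hh _ (P.mem n)
        simp only at h1
        rw [if_pos ⟨(hst n (by omega)).2, hlong n hn, hstart n hn⟩] at h1
        rw [List.getElem?_eq_none_iff] at h1
        have : (out i (π n)).length = (out i (ent (ch n) i)).length := rfl
        omega
    have hD : Computable₂ D := by
      have hPr : Primrec₂ D := by
        have hent : Primrec (fun q : (ℕ × ℕ) × Node => ent q.2.2 i) :=
          (Primrec.list_getD ([] : List Bool)).comp (Primrec.snd.comp Primrec.snd) (Primrec.const i)
        have hc1 : PrimrecPred (fun q : (ℕ × ℕ) × Node => q.2.2.take i = a) :=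
          Primrec.eq.comp (Primrec.list_take.comp (Primrec.const i) (Primrec.snd.comp Primrec.snd))
            (Primrec.const a)
        have hc2 : PrimrecPred (fun q : (ℕ × ℕ) × Node => i < q.2.2.length) :=
          Primrec.nat_lt.comp (Primrec.const i) (Primrec.list_length.comp (Primrec.snd.comp Primrec.snd))
        have hc3 : PrimrecPred (fun q : (ℕ × ℕ) × Node => (ent q.2.2 i).take r = seg X r) :=
          Primrec.eq.comp (Primrec.list_take.comp (Primrec.const r) hent) (Primrec.const _)
        have hbody : Primrec (fun q : (ℕ × ℕ) × Node => if (q.2.2.take i = a ∧ i < q.2.2.length ∧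
          (ent q.2.2 i).take r = seg X r) then (out i (ent q.2.2 i))[q.1.1]? else none) := by
          refine Primrec.ite (hc1.and (hc2.and hc3)) ?_ (Primrec.const none)
          exact Primrec.list_getElem?.comp (primrec_out.comp (Primrec.const i) hent)
            (Primrec.fst.comp Primrec.fst)
        have hfm : Primrec (fun p : ℕ × ℕ => (stA G H L p.2).filterMap (fun x =>
          if (x.2.take i = a ∧ i < x.2.length ∧
          (ent x.2 i).take r = seg X r) then (out i (ent x.2 i))[p.1]? else none)) :=
          Primrec.listFilterMap (hA.comp Primrec.snd) hbody.to₂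
        refine Primrec.ite (Primrec.nat_le.comp (Primrec.const n₁) Primrec.snd)
          (Primrec.list_head?.comp hfm) (Primrec.const none)
      exact hPr.to_comp
    exact computable_of_search Z D hD hex hval

theorem PathData.stab (P : PathData G H L X ch) {B : ℕ → Bool} (hB : ¬ Computable B)
    (hL : ∀ i p, p.length + 2 ≤ L i p)
    (hA : Primrec (stA G H L))
    (hG1 : ∀ s u u', u' <+: u → G s u = true → G s u' = true)
    (hG3 : ∀ Z : ℕ → Bool, (∀ n s₀, ∃ s ≥ s₀, G s (seg Z n) = true) → Z = B) (i : ℕ) :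
    ∃ n₀, ∀ n ≥ n₀, i ≤ (ch n).length ∧ (ch n).take i = (ch n₀).take i := by
  induction i with
  | zero => exact ⟨0, fun n _ => ⟨Nat.zero_le _, by simp⟩⟩
  | succ i ih =>
    obtain ⟨n₀, hst⟩ := ih
    exact P.stab_succ hB hL hA hG1 hG3 hst

theorem PathData.not_red_left (P : PathData G H L X ch) {B : ℕ → Bool} (hB : ¬ Computable B)
    (hL : ∀ i p, p.length + 2 ≤ L i p)
    (hA : Primrec (stA G H L))
    (hG1 : ∀ s u u', u' <+: u → G s u = true → G s u' = true)
    (hG2 : ∀ n, ∃ s₀, ∀ s ≥ s₀, G s (seg B n) = true)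
    (hG3 : ∀ Z : ℕ → Bool, (∀ n s₀, ∃ s ≥ s₀, G s (seg Z n) = true) → Z = B) (e : ℕ) :
    ¬ Red e X B := by
  intro hred
  obtain ⟨n₀, hst⟩ := P.stab hB hL hA hG1 hG3 (e+1)
  have hpe : ∀ n ≥ n₀, ent (ch n) e = ent (ch n₀) e := fun n hn =>
    ent_eq_of_take_eq (hst n hn).2 (Nat.lt_succ_self e)
  have hpX : Pre (ent (ch n₀) e) X :=
    (pre_seg X n₀).of_prefix ((P.inv hL n₀).pre e (hst n₀ le_rfl).1)
  have hpB : Pre (out e (ent (ch n₀) e)) B := hred.pre_out hpX
  obtain ⟨s₁, hs₁⟩ := hG2 (out e (ent (ch n₀) e)).length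
  rw [hpB] at hs₁
  obtain ⟨k₀, hk₀⟩ := hred.exists_length ((out e (ent (ch n₀) e)).length + 1)
  let n := max n₀ (max s₁ k₀)
  have hn0 : n₀ ≤ n := le_max_left _ _
  have hn1 : s₁ ≤ n := le_trans (le_max_left _ _) (le_max_right _ _)
  have hn2 : k₀ ≤ n := le_trans (le_max_right _ _) (le_max_right _ _)
  have hlen : ((ch n).take (e+1)).length = e + 1 := by
    rw [List.length_take]
    have := (hst n hn0).1
    omega
  have hw : wit G H L n (stA G H L n) ((ch n).take (e+1)) ≠ none := by
    apply wit_isSome G H L (P.mem n)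
    · rw [hlen]
      simp only [Nat.add_sub_cancel]
      rw [ent_take (Nat.lt_succ_self e), hpe n hn0]
      exact hs₁ n hn1
    · exact P.unh n
    · simp only
      rw [hlen]
    · rw [hlen]
      simp only [Nat.add_sub_cancel]
      rw [ent_take (Nat.lt_succ_self e), hpe n hn0]
      intro hcon
      have := hk₀ n hn2
      rw [hcon] at this
      omega
  cases hact : act G H L n (stA G H L n) (ch n) with
  | none =>
    rw [act_none] at hact
    exact hw (hact e (hst n hn0).1)
  | some p =>
    obtain ⟨j, η⟩ := p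
    have hj : ¬ j < e + 1 := fun hj => P.no_act_below hst hn0 hj _ hact
    obtain ⟨_, _, h3⟩ := (act_some G H L).mp hact
    exact hw (h3 e (by omega))

theorem PathData.not_red_right (P : PathData G H L X ch) {B : ℕ → Bool} (hB : ¬ Computable B)
    (hL : ∀ i p, p.length + 2 ≤ L i p)
    (hA : Primrec (stA G H L))
    (hG1 : ∀ s u u', u' <+: u → G s u = true → G s u' = true)
    (hG3 : ∀ Z : ℕ → Bool, (∀ n s₀, ∃ s ≥ s₀, G s (seg Z n) = true) → Z = B)
    (hHm : ∀ t i q, H t i q = true → H (t+1) i q = true)
    (hH3 : ∀ (i : ℕ) (Y : ℕ → Bool), Red i B Y → ∀ p, Pre p Y → ∃ t, H t i (seg Y (L i p)) = true)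
    (e : ℕ) : ¬ Red e B X := by
  intro hred
  obtain ⟨n₀, hst⟩ := P.stab hB hL hA hG1 hG3 (e+2)
  have hpX : Pre (ent (ch n₀) e) X :=
    (pre_seg X n₀).of_prefix ((P.inv hL n₀).pre e (by have := (hst n₀ le_rfl).1; simp only; omega))
  obtain ⟨t, ht⟩ := hH3 e X hred _ hpX
  have hmono : ∀ t' ≥ t, H t' e (seg X (L e (ent (ch n₀) e))) = true := by
    intro t' ht'
    induction t', ht' using Nat.le_induction with
    | base => exact ht
    | succ n hn ih => exact hHm _ _ _ ih
  let n := max n₀ t
  have hn0 : n₀ ≤ n := le_max_left _ _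
  have hl : e + 1 < (ch n).length := (hst n hn0).1
  have h1 := (unhit_iff.mp (P.unh n)) e hl
  simp only at h1
  have hpe : ent (ch n) e = ent (ch n₀) e := ent_eq_of_take_eq (hst n hn0).2 (by omega)
  have h2 := (P.inv hL n).grow e hl
  have h3 := ((P.inv hL n).pre (e+1) hl).length_le
  simp only at h2 h3
  rw [length_seg] at h3
  rw [take_seg X n _ (by omega), hpe, hmono n (le_max_right _ _)] at h1
  cases h1

end thms

end Pool.Agent.Helper854
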