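import Pool.Agent.Helper854.Konig

set_option autoImplicit false

namespace Pool.Agent.Helper854

open scoped BigOperators

noncomputable def wt (τ : List Bool) : ℝ := (1/2 : ℝ) ^ τ.length

theorem wt_pos (τ : List Bool) : 0 < wt τ := by unfold wt; positivity

theorem wt_cons (b : Bool) (τ : List Bool) : wt (b :: τ) = wt τ / 2 := by
  unfold wt; rw [List.length_cons, pow_succ]; ring

noncomputable def tot (l : List (List Bool)) : ℝ := (l.map wt).sum

@[simp] theorem tot_nil : tot [] = 0 := by simp [tot]
@[simp] theorem tot_cons (τ : List Bool) (l : List (List Bool)) : tot (τ :: l) = wt τ + tot l := by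
  simp [tot]
theorem tot_append (l l' : List (List Bool)) : tot (l ++ l') = tot l + tot l' := by
  simp [tot]

theorem tot_nonneg (l : List (List Bool)) : 0 ≤ tot l := by
  induction l with
  | nil => simp
  | cons τ l ih => rw [tot_cons]; have := wt_pos τ; linarith

theorem wt_le_tot {l : List (List Bool)} {τ : List Bool} (h : τ ∈ l) : wt τ ≤ tot l := by
  induction l with
  | nil => simp at h
  | cons a l ih =>
    rw [tot_cons]
    rcases List.mem_cons.mp h with h | h
    · subst h; have := tot_nonneg l; linarith
    · have := ih h; have := wt_pos a; linarith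

def tlb (b : Bool) (τ : List Bool) : Option (List Bool) :=
  match τ with
  | [] => none
  | a :: τ' => if a = b then some τ' else none

theorem tlb_eq_some {b : Bool} {τ τ' : List Bool} : tlb b τ = some τ' ↔ τ = b :: τ' := by
  cases τ with
  | nil => simp [tlb]
  | cons a τ =>
    simp only [tlb]
    constructor
    · intro h
      split_ifs at h with h1
      cases h; rw [h1]
    · intro h
      cases h; simp

theorem mem_tl {b : Bool} {l : List (List Bool)} {τ' : List Bool} :
    τ' ∈ l.filterMap (tlb b) ↔ b :: τ' ∈ l := by
  rw [List.mem_filterMap]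
  constructor
  · rintro ⟨τ, h1, h2⟩
    rw [tlb_eq_some] at h2
    rw [← h2]; exact h1
  · intro h; exact ⟨_, h, tlb_eq_some.mpr rfl⟩

theorem tot_split {l : List (List Bool)} (h : [] ∉ l) :
    tot l = (tot (l.filterMap (tlb false)) + tot (l.filterMap (tlb true))) / 2 := by
  induction l with
  | nil => simp
  | cons τ l ih =>
    have h1 : [] ∉ l := fun hh => h (List.mem_cons_of_mem _ hh)
    cases τ with
    | nil => exact absurd List.mem_cons_self h
    | cons a τ =>
      rw [tot_cons, ih h1]
      cases a with
      | false =>
        have e1 : (List.filterMap (tlb false) ((false :: τ) :: l)) = τ :: l.filterMap (tlb false) := by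
          rw [List.filterMap_cons]; simp [tlb]
        have e2 : (List.filterMap (tlb true) ((false :: τ) :: l)) = l.filterMap (tlb true) := by
          rw [List.filterMap_cons]; simp [tlb]
        rw [e1, e2, tot_cons, wt_cons]; ring
      | true =>
        have e1 : (List.filterMap (tlb false) ((true :: τ) :: l)) = l.filterMap (tlb false) := by
          rw [List.filterMap_cons]; simp [tlb]
        have e2 : (List.filterMap (tlb true) ((true :: τ) :: l)) = τ :: l.filterMap (tlb true) := by
          rw [List.filterMap_cons]; simp [tlb]
        rw [e1, e2, tot_cons, wt_cons]; ring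

theorem avoid (N : ℕ) : ∀ l : List (List Bool), tot l < 1 →
    ∃ ξ : List Bool, ξ.length = N ∧ ∀ τ ∈ l, ¬ τ <+: ξ := by
  induction N with
  | zero =>
    intro l hl
    refine ⟨[], rfl, fun τ hτ hp => ?_⟩
    have : τ = [] := by simpa using hp
    subst this
    have := wt_le_tot hτ
    simp [wt] at this
    linarith
  | succ N ih =>
    intro l hl
    have hnil : [] ∉ l := by
      intro h
      have := wt_le_tot h
      simp [wt] at this
      linarith
    have h1 := tot_split hnil
    have h2 : ∃ b, tot (l.filterMap (tlb b)) < 1 := by
      by_contra hcon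
      push Not at hcon
      have := hcon false
      have := hcon true
      linarith
    obtain ⟨b, hb⟩ := h2
    obtain ⟨ξ, h3, h4⟩ := ih _ hb
    refine ⟨b :: ξ, by simp [h3], fun τ hτ hp => ?_⟩
    cases τ with
    | nil => exact hnil hτ
    | cons a τ =>
      rw [List.cons_prefix_cons] at hp
      obtain ⟨h5, h6⟩ := hp
      subst h5
      exact h4 τ (mem_tl.mpr hτ) h6

theorem kraft_aux (N : ℕ) : ∀ l : List (List Bool), (∀ τ ∈ l, τ.length ≤ N) →
    l.Pairwise (fun a b => ¬ a <+: b ∧ ¬ b <+: a) → tot l ≤ 1 := by
  have hnil : ∀ l : List (List Bool), [] ∈ l →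
      l.Pairwise (fun a b => ¬ a <+: b ∧ ¬ b <+: a) → tot l ≤ 1 := by
    intro l h1 h2
    cases l with
    | nil => simp at h1
    | cons a l =>
      rw [List.pairwise_cons] at h2
      obtain ⟨h3, h4⟩ := h2
      rcases List.mem_cons.mp h1 with h | h
      · subst h
        cases l with
        | nil => simp [wt]
        | cons b l => exact absurd List.nil_prefix (h3 b List.mem_cons_self).1
      · exact absurd List.nil_prefix (h3 [] h).2
  induction N with
  | zero =>
    intro l h1 h2
    cases l with
    | nil => simp
    | cons a l =>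
      apply hnil _ _ h2
      have := h1 a List.mem_cons_self
      have : a = [] := by simpa using this
      subst this; exact List.mem_cons_self
  | succ N ih =>
    intro l h1 h2
    by_cases h : [] ∈ l
    · exact hnil l h h2
    · rw [tot_split h]
      have h3 : ∀ b, tot (l.filterMap (tlb b)) ≤ 1 := by
        intro b
        apply ih
        · intro τ hτ
          have := h1 _ (mem_tl.mp hτ)
          simpa using this
        · rw [List.pairwise_filterMap]
          refine h2.imp ?_
          intro a c hac a' ha' c' hc'
          have ha2 := tlb_eq_some.mp ha'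
          have hc2 := tlb_eq_some.mp hc'
          rw [ha2, hc2, List.cons_prefix_cons, List.cons_prefix_cons] at hac
          simpa using hac
      have := h3 false
      have := h3 true
      linarith

theorem kraft (l : List (List Bool)) (h : l.Pairwise (fun a b => ¬ a <+: b ∧ ¬ b <+: a)) :
    tot l ≤ 1 := by
  obtain ⟨N, hN⟩ := exists_bound l (fun τ => τ.length)
  exact kraft_aux N l hN h

abbrev Ent := List Bool × List Bool

noncomputable def mass (Q : List Ent) (p : Ent → Prop) [DecidablePred p] : ℝ :=
  (Q.map (fun x => if p x then wt x.1 else 0)).sum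

def massN (D : ℕ) (Q : List Ent) (p : Ent → Prop) [DecidablePred p] : ℕ :=
  (Q.map (fun x => if p x then 2 ^ (D - x.1.length) else 0)).sum

@[simp] theorem mass_nil (p : Ent → Prop) [DecidablePred p] : mass [] p = 0 := by simp [mass]
theorem mass_cons (x : Ent) (Q : List Ent) (p : Ent → Prop) [DecidablePred p] :
    mass (x :: Q) p = (if p x then wt x.1 else 0) + mass Q p := by simp [mass]

theorem mass_nonneg (Q : List Ent) (p : Ent → Prop) [DecidablePred p] : 0 ≤ mass Q p := by
  induction Q with
  | nil => simp
  | cons x Q ih =>
    rw [mass_cons]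
    split_ifs
    · have := wt_pos x.1; linarith
    · linarith

theorem massN_cast {D : ℕ} {Q : List Ent} (h : ∀ x ∈ Q, x.1.length ≤ D) (p : Ent → Prop)
    [DecidablePred p] : (massN D Q p : ℝ) = 2 ^ D * mass Q p := by
  induction Q with
  | nil => simp [massN]
  | cons x Q ih =>
    have h1 := ih (fun y hy => h y (List.mem_cons_of_mem _ hy))
    have h2 := h x List.mem_cons_self
    rw [mass_cons, mul_add, ← h1]
    unfold massN
    rw [List.map_cons, List.sum_cons, Nat.cast_add]
    congr 1
    split_ifs
    · unfold wt
      push_cast
      rw [pow_sub₀ _ (by norm_num) h2, one_div, inv_pow]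
    · simp

theorem mass_mono {Q : List Ent} {p q : Ent → Prop} [DecidablePred p] [DecidablePred q]
    (h : ∀ x ∈ Q, p x → q x) : mass Q p ≤ mass Q q := by
  induction Q with
  | nil => simp
  | cons x Q ih =>
    rw [mass_cons, mass_cons]
    have h1 := ih (fun y hy => h y (List.mem_cons_of_mem _ hy))
    have h2 := h x List.mem_cons_self
    have h3 := wt_pos x.1
    by_cases hp : p x
    · rw [if_pos hp, if_pos (h2 hp)]; linarith
    · rw [if_neg hp]
      split_ifs <;> linarith

theorem sum_mass_le {ι : Type*} (s : Finset ι) {Q : List Ent} (p : ι → Ent → Prop)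
    [∀ i, DecidablePred (p i)] (q : Ent → Prop) [DecidablePred q]
    (h1 : ∀ x ∈ Q, ∀ i ∈ s, p i x → q x)
    (h2 : ∀ x ∈ Q, ∀ i ∈ s, ∀ j ∈ s, p i x → p j x → i = j) :
    ∑ i ∈ s, mass Q (p i) ≤ mass Q q := by
  induction Q with
  | nil => simp
  | cons x Q ih =>
    have ih' := ih (fun y hy => h1 y (List.mem_cons_of_mem _ hy))
      (fun y hy => h2 y (List.mem_cons_of_mem _ hy))
    simp only [mass_cons, Finset.sum_add_distrib]
    have h3 : ∑ i ∈ s, (if p i x then wt x.1 else 0) ≤ (if q x then wt x.1 else 0) := by
      by_cases hex : ∃ i ∈ s, p i x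
      · obtain ⟨i, hi, hpi⟩ := hex
        rw [if_pos (h1 x List.mem_cons_self i hi hpi)]
        rw [Finset.sum_eq_single_of_mem i hi]
        · rw [if_pos hpi]
        · intro j hj hji
          rw [if_neg]
          intro hpj
          exact hji (h2 x List.mem_cons_self j hj i hi hpj hpi)
      · push Not at hex
        rw [Finset.sum_eq_zero]
        · split_ifs
          · exact (wt_pos _).le
          · exact le_rfl
        · intro i hi
          rw [if_neg (hex i hi)]
    linarith

theorem mass_le_sum {ι : Type*} (s : Finset ι) {Q : List Ent} (p : ι → Ent → Prop)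
    [∀ i, DecidablePred (p i)] (q : Ent → Prop) [DecidablePred q]
    (h1 : ∀ x ∈ Q, q x → ∃ i ∈ s, p i x) :
    mass Q q ≤ ∑ i ∈ s, mass Q (p i) := by
  induction Q with
  | nil => simp
  | cons x Q ih =>
    have ih' := ih (fun y hy => h1 y (List.mem_cons_of_mem _ hy))
    simp only [mass_cons, Finset.sum_add_distrib]
    have h3 : (if q x then wt x.1 else 0) ≤ ∑ i ∈ s, (if p i x then wt x.1 else 0) := by
      have hnn : ∀ i ∈ s, 0 ≤ (if p i x then wt x.1 else 0) := by
        intro i _
        split_ifs
        · exact (wt_pos _).le
        · exact le_rfl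
      by_cases hq : q x
      · obtain ⟨i, hi, hpi⟩ := h1 x List.mem_cons_self hq
        rw [if_pos hq]
        have := Finset.single_le_sum hnn hi
        rwa [if_pos hpi] at this
      · rw [if_neg hq]
        exact Finset.sum_nonneg hnn
    linarith

theorem tot_map_filter (Q : List Ent) (p : Ent → Prop) [DecidablePred p] :
    tot ((Q.filter (fun x => decide (p x))).map Prod.fst) = mass Q p := by
  induction Q with
  | nil => simp
  | cons x Q ih =>
    rw [mass_cons]
    by_cases hp : p x
    · rw [List.filter_cons_of_pos (by simpa using hp), List.map_cons, tot_cons, ih, if_pos hp]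
    · rw [List.filter_cons_of_neg (by simpa using hp), ih, if_neg hp, zero_add]

end Pool.Agent.Helper854
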